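import Pool.Agent.H15.GEO.Sln

/-!
# H15/GEO/Aff: the chart on the cells

`oar`: a polynomial of the coordinates on the cell of the affine chart, with the time fixed.
`chg`: the gradient of an affine polynomial there; it does not depend on the cell. `slc_oar`: the
slices of a slanted cell give the same polynomial.
-/

set_option autoImplicit false

namespace Pool.TUB

open Finset MvPolynomial
open Pool.Agent.H49.Ent Pool.Agent.H32.Dense Pool.STK Pool.KA Pool.KSAT Pool.K2S Pool.PB
  Pool.STAT Pool.STAT.CLO Pool.GEN Pool.M3F Pool.KAF Pool.KAL Pool.KS3 Pool.KJA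
open Pool.GEO (gsy gsy_zero gsy_succ gsy_tri gsy_deg)
open Pool.PM (lev)
open Pool.JMN (ev shf tdg)
open Pool.SPN (sg1)

/-- An affine polynomial at a sum. -/
theorem aff_add {σ : Type} [Fintype σ] {p : MvPolynomial σ ℝ} (hp : p.totalDegree ≤ 1)
    (x δ : σ → ℝ) : eval (fun i => x i + δ i) p - eval x p = eval δ p - eval (fun _ => 0) p := by
  classical
  rw [eval_eq', eval_eq', eval_eq', eval_eq', ← Finset.sum_sub_distrib, ← Finset.sum_sub_distrib]
  refine Finset.sum_congr rfl fun d hd => ?_
  rw [← mul_sub, ← mul_sub]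
  congr 1
  have h1 : d.sum (fun _ e => e) ≤ 1 := (le_totalDegree hd).trans hp
  have h2 : ∑ i, d i ≤ 1 := by
    refine le_trans (le_of_eq ?_) h1
    rw [Finsupp.sum_fintype _ _ fun _ => rfl]
  by_cases h0 : ∀ i, d i = 0
  · have e1 : ∀ f : σ → ℝ, ∏ i, f i ^ d i = 1 := fun f => Finset.prod_eq_one fun i _ => by
      rw [h0 i, pow_zero]
    rw [e1, e1, e1, e1]
  · push Not at h0
    obtain ⟨j, hj⟩ := h0
    have hj1 : d j = 1 := by
      have h3 := Finset.single_le_sum (f := fun i => d i) (fun _ _ => Nat.zero_le _)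
        (Finset.mem_univ j)
      have h4 : d j ≤ 1 := le_trans h3 h2
      omega
    have hne : ∀ i, i ≠ j → d i = 0 := by
      intro i hi
      have h3 : d i + d j ≤ ∑ i, d i := by
        have h4 := Finset.sum_le_sum_of_subset (f := fun i => d i)
          (Finset.subset_univ ({i, j} : Finset σ))
        rwa [Finset.sum_pair hi] at h4
      omega
    have e1 : ∀ f : σ → ℝ, ∏ i, f i ^ d i = f j := fun f => by
      rw [Finset.prod_eq_single j (fun i _ hi => by rw [hne i hi, pow_zero])
        (fun h => absurd (Finset.mem_univ _) h), hj1, pow_one]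
    rw [e1, e1, e1, e1]
    ring

/-- The differences of the values of an affine polynomial. -/
theorem aff_diff {σ : Type} [Fintype σ] {p : MvPolynomial σ ℝ} (hp : p.totalDegree ≤ 1)
    {x x' y y' : σ → ℝ} (h : ∀ i, x i - x' i = y i - y' i) :
    eval x p - eval x' p = eval y p - eval y' p := by
  have b1 := aff_add hp x' (fun i => x i - x' i)
  have b2 := aff_add hp y' (fun i => y i - y' i)
  have e1 : (fun i => x' i + (x i - x' i)) = x := by
    funext j
    ring
  have e2 : (fun i => y' i + (y i - y' i)) = y := by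
    funext j
    ring
  have e3 : (fun i => x i - x' i) = fun i => y i - y' i := funext h
  rw [e1, e3] at b1
  rw [e2] at b2
  rw [b1, b2]

/-- The derivatives of an affine polynomial. -/
theorem aff_pd {σ : Type} [Fintype σ] [DecidableEq σ] {p : MvPolynomial σ ℝ}
    (hp : p.totalDegree ≤ 1) (x : σ → ℝ) (i : σ) :
    eval x (pderiv i p) = eval (Pi.single i 1) p - eval (fun _ => 0) p := by
  classical
  have h1 : p = ∑ d ∈ p.support, monomial d (coeff d p) := p.as_sum
  have key : ∀ d : σ →₀ ℕ, ∑ i, d i ≤ 1 → ∀ a : ℝ, eval x (pderiv i (monomial d a)) =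
      eval (Pi.single i 1) (monomial d a) - eval (fun _ => 0) (monomial d a) := by
    intro d h2 a
    rw [pderiv_monomial, eval_monomial, eval_monomial, eval_monomial]
    rw [Finsupp.prod_fintype _ _ (fun _ => pow_zero _), Finsupp.prod_fintype _ _
      (fun _ => pow_zero _), Finsupp.prod_fintype _ _ (fun _ => pow_zero _)]
    by_cases h0 : ∀ i, d i = 0
    · have e1 : ∀ f : σ → ℝ, ∏ i, f i ^ d i = 1 := fun f => Finset.prod_eq_one fun i _ => by
        rw [h0 i, pow_zero]
      rw [e1, e1, h0 i]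
      simp
    · push Not at h0
      obtain ⟨j, hj⟩ := h0
      have hj1 : d j = 1 := by
        have h3 := Finset.single_le_sum (f := fun i => d i) (fun _ _ => Nat.zero_le _)
          (Finset.mem_univ j)
        have h4 : d j ≤ 1 := le_trans h3 h2
        omega
      have hne : ∀ i, i ≠ j → d i = 0 := by
        intro i hi
        have h3 : d i + d j ≤ ∑ i, d i := by
          have h4 := Finset.sum_le_sum_of_subset (f := fun i => d i)
            (Finset.subset_univ ({i, j} : Finset σ))
          rwa [Finset.sum_pair hi] at h4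
        omega
      have e1 : ∀ f : σ → ℝ, ∏ i, f i ^ d i = f j := fun f => by
        rw [Finset.prod_eq_single j (fun i _ hi => by rw [hne i hi, pow_zero])
          (fun h => absurd (Finset.mem_univ _) h), hj1, pow_one]
      rw [e1, e1]
      by_cases hij : i = j
      · subst hij
        have e2 : ∏ l, x l ^ ((d - Finsupp.single i 1 : σ →₀ ℕ) l) = 1 :=
            Finset.prod_eq_one fun l _ => by
          have e3 : (d - Finsupp.single i 1 : σ →₀ ℕ) l = 0 := by
            rw [Finsupp.tsub_apply]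
            by_cases hl : l = i
            · subst hl
              rw [Finsupp.single_eq_same, hj1]
            · rw [hne l hl, Nat.zero_sub]
          rw [e3, pow_zero]
        rw [e2, hj1, Pi.single_eq_same]
        push_cast
        ring
      · rw [hne i hij, Pi.single_eq_of_ne (Ne.symm hij)]
        simp
  have h3 : ∀ d ∈ p.support, ∑ i, d i ≤ 1 := by
    intro d hd
    have h1 : d.sum (fun _ e => e) ≤ 1 := (le_totalDegree hd).trans hp
    refine le_trans (le_of_eq ?_) h1
    rw [Finsupp.sum_fintype _ _ fun _ => rfl]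
  have e1 : eval x (pderiv i p) = ∑ d ∈ p.support, eval x (pderiv i (monomial d (coeff d p))) := by
    conv_lhs => rw [h1]
    rw [map_sum, map_sum]
  have e2 : ∀ f : σ → ℝ, eval f p = ∑ d ∈ p.support, eval f (monomial d (coeff d p)) := by
    intro f
    conv_lhs => rw [h1]
    rw [map_sum]
  rw [e1, e2 (Pi.single i 1), e2 (fun _ => 0), ← Finset.sum_sub_distrib]
  exact Finset.sum_congr rfl fun d hd => key d (h3 d hd) _

theorem deg_chiN_one {d : ℕ} (g : Fin d → MvPolynomial (Fin d) ℝ) (c w : Fin d → ℝ)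
    (hg : ∀ i, (g i).totalDegree ≤ 1) : ∀ n : ℕ, ∀ i : Fin d, (chiN g c w n i).totalDegree ≤ 1 := by
  intro n
  induction n with
  | zero =>
    intro i
    simp only [chiN, totalDegree_zero]
    exact Nat.zero_le _
  | succ n ih =>
    intro i
    simp only [chiN]
    split_ifs
    · refine deg_add1 (deg_add1 (deg_bind ih (hg i)) ?_) (deg_Cmul _ ?_)
      · rw [totalDegree_C]
        exact zero_le_one
      · rw [totalDegree_X]
    · rw [totalDegree_zero]
      exact Nat.zero_le _

/-- The identity slice. -/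
noncomputable def ids (p : MvPolynomial (Fin 4) ℝ) : MvPolynomial (Fin 3) ℝ :=
  slc (n := 3) 0 (fun _ => 0) (fun l i => if l = i then 1 else 0) p

theorem eval_ids (p : MvPolynomial (Fin 4) ℝ) (z : Fin 3 → ℝ) :
    eval z (ids p) = eval (Fin.cons 0 z : Fin 4 → ℝ) p := by
  unfold ids
  rw [eval_slc]
  congr 2
  funext i
  refine Fin.cases ?_ (fun l => ?_) i
  · rfl
  · rw [slv_succ, Fin.cons_succ, zero_add, Finset.sum_eq_single l]
    · rw [if_pos rfl, one_mul]
    · intro j _ hj
      rw [if_neg (Ne.symm hj), zero_mul]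
    · intro h
      exact absurd (Finset.mem_univ _) h

/-- A polynomial of the coordinates on the cell `ce` of the affine chart, at the time `T`. -/
noncomputable def oar (J W T : ℕ) (P : ℕ → PN) (g : ℕ → ℕ) (d : ℕ) (ce : Fin 3 → ℤ) (p : PN) :
    MvPolynomial (Fin 3) ℝ :=
  C (1 / 2 ^ W) * ids (bind₁ (dchi J W T P g d ce) (toF 4 W p))

theorem eval_oar (J W T : ℕ) (P : ℕ → PN) (g : ℕ → ℕ) (d : ℕ) (ce : Fin 3 → ℤ) (p : PN)
    (z : Fin 3 → ℝ) : eval z (oar J W T P g d ce p) =
      1 / 2 ^ W * eval (dpt J W T P g d ce z) (toF 4 W p) := by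
  unfold oar
  rw [map_mul, eval_C, eval_ids, Pool.M3F.eval_bind]
  rfl

theorem deg_oar {J W T : ℕ} {P : ℕ → PN} (hP : ∀ i, (P i).totalDegree ≤ 1) (g : ℕ → ℕ) (d : ℕ)
    (ce : Fin 3 → ℤ) {p : PN} {K : ℕ} (hp : p.totalDegree ≤ K) :
    (oar J W T P g d ce p).totalDegree ≤ K := by
  unfold oar ids
  refine deg_Cmul _ (deg_slc _ _ _ (deg_bind (fun i => ?_) ((deg_toF p).trans hp)))
  exact deg_chiN_one _ _ _ (fun i => gsy_deg hP i) 4 i

/-- The displacement in the cell does not depend on the cell. -/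
theorem dpt_diff {J W T T' : ℕ} {P : ℕ → PN} (hP : TriN P) (hd : ∀ i, (P i).totalDegree ≤ 1)
    (g : ℕ → ℕ) (d : ℕ) (ce ce' : Fin 3 → ℤ) (z z' : Fin 3 → ℝ) (i : Fin 4) :
    dpt J W T P g d ce z i - dpt J W T P g d ce z' i =
      dpt J W T' P g d ce' z i - dpt J W T' P g d ce' z' i := by
  obtain ⟨x, hx⟩ : ∃ x, x = dpt J W T P g d ce z := ⟨_, rfl⟩
  obtain ⟨x', hx'⟩ : ∃ x, x = dpt J W T P g d ce z' := ⟨_, rfl⟩
  obtain ⟨y, hy⟩ : ∃ x, x = dpt J W T' P g d ce' z := ⟨_, rfl⟩
  obtain ⟨y', hy'⟩ : ∃ x, x = dpt J W T' P g d ce' z' := ⟨_, rfl⟩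
  rw [← hx, ← hx', ← hy, ← hy']
  have key : ∀ n : ℕ, ∀ i : Fin 4, i.val = n → x i - x' i = y i - y' i := by
    intro n
    induction n using Nat.strong_induction_on with
    | _ n ih =>
      intro i hi
      refine Fin.cases (fun _ => ?_) (fun l hl => ?_) i hi
      · rw [hx, hx', hy, hy', dpt_zero J W T hP, dpt_zero J W T hP, dpt_zero J W T' hP,
          dpt_zero J W T' hP]
        ring
      · have a1 := dpt_succ J W T hP g d ce z l
        have a2 := dpt_succ J W T hP g d ce z' l
        have a3 := dpt_succ J W T' hP g d ce' z l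
        have a4 := dpt_succ J W T' hP g d ce' z' l
        rw [← hx] at a1
        rw [← hx'] at a2
        rw [← hy] at a3
        rw [← hy'] at a4
        obtain ⟨p, hp⟩ : ∃ p, p = toF 4 W (P (l + 1)) := ⟨_, rfl⟩
        rw [← hp] at a1 a2 a3 a4
        have hpd : p.totalDegree ≤ 1 := by
          rw [hp]
          exact (deg_toF _).trans (hd _)
        have b1 := aff_add hpd x' (fun i => x i - x' i)
        have b2 := aff_add hpd y' (fun i => y i - y' i)
        have e1 : (fun i => x' i + (x i - x' i)) = x := by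
          funext j
          ring
        have e2 : (fun i => y' i + (y i - y' i)) = y := by
          funext j
          ring
        rw [e1] at b1
        rw [e2] at b2
        have b3 : eval (fun i => x i - x' i) p = eval (fun i => y i - y' i) p :=
          eval_eq_of_pderiv (i := l.succ) (fun j hj => by
            rw [hp]
            exact triP_toF (d := 4) (W := W) hP l.succ j hj) fun j hj => ih j.val (by
              rw [← hl]
              exact hj) j rfl
        have e3 : (ce l + z l) / 2 ^ (g l + d) - (ce l + z' l) / 2 ^ (g l + d) =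
            (ce' l + z l) / 2 ^ (g l + d) - (ce' l + z' l) / 2 ^ (g l + d) := by ring
        rw [a1, a2, a3, a4]
        linear_combination b1 - b2 + b3 + 2 ^ W * e3
  exact key i.val i rfl

/-- The gradient of an affine polynomial in the cells. -/
noncomputable def chg (J W : ℕ) (P : ℕ → PN) (g : ℕ → ℕ) (d : ℕ) (p : PN) (i : Fin 3) : ℝ :=
  eval (Pi.single i 1) (oar J W 0 P g d (fun _ => 0) p) -
    eval (fun _ => 0) (oar J W 0 P g d (fun _ => 0) p)

theorem chg_eq {J W T : ℕ} {P : ℕ → PN} (hP : TriN P) (hd : ∀ i, (P i).totalDegree ≤ 1)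
    (g : ℕ → ℕ) (d : ℕ) (ce : Fin 3 → ℤ) {p : PN} (hp : p.totalDegree ≤ 1) (y : Fin 3 → ℝ)
    (i : Fin 3) : eval y (pderiv i (oar J W T P g d ce p)) = chg J W P g d p i := by
  rw [aff_pd (deg_oar hd g d ce hp)]
  unfold chg
  rw [eval_oar, eval_oar, eval_oar, eval_oar, ← mul_sub, ← mul_sub]
  refine congrArg (fun t : ℝ => 1 / 2 ^ W * t) ?_
  obtain ⟨q, hq⟩ : ∃ q, q = toF 4 W p := ⟨_, rfl⟩
  have hqd : q.totalDegree ≤ 1 := by
    rw [hq]
    exact (deg_toF _).trans hp
  rw [← hq]
  exact aff_diff hqd fun j => dpt_diff hP hd g d ce (fun _ => 0) _ _ j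

/-- **The slices of a slanted cell.** -/
theorem slc_oar {J W T W₀ T₁ M : ℕ} {P : ℕ → PN} (hP : TriN P) {g : ℕ → ℕ} {d : ℕ}
    {ce : Fin 3 → ℤ} {q : Fin 4 → ℝ} {N : Fin 4 → ℕ} {b : Fin 4 → ℤ} (hM : 1 ≤ M)
    (hN : ∀ i, 1 ≤ N i) (p : PN) :
    slc ((2 ^ W * ((T : ℝ) / 2 ^ J)) * (M / N 0) - b 0)
        (sB (snu W M N g d) q d (2 ^ W₀ * ((T : ℝ) / 2 ^ J) - T₁) ce b)
        (sS (snu W M N g d) q)
        (C (1 / 2 ^ W) * bind₁ (nchi M N (gsy 3 W (sls P g W₀ T₁ q)) b) (toF 4 W p)) =
      oar J W T P g d ce p := by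
  refine MvPolynomial.funext fun z => ?_
  rw [eval_slc, eval_oar, ← rpos_dpt hP hM hN z, map_mul, eval_C, Pool.M3F.eval_bind,
    nchi_rpos hM hN (gsy_tri (sls_tri hP g W₀ T₁ q))]

end Pool.TUB
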