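import Pool.Agent.H15.GEO.Ard

/-!
# H15/GEO/Aok: the fields of the array of a leaf at one point

`AOK`: the value, the Lipschitz bound, the size of the first coefficients, the smallness of the
others and the slope of the height. `aok_of`: from near-constancy in the cell.
-/

set_option autoImplicit false

namespace Pool.TUB

open Finset MvPolynomial
open Pool.JMN (ev shf tdg)
open Pool.SPN (sg1)
open Pool.PM (gr)

/-- The fields of the array `a` of a leaf: `x` the height of the point, `y` its position, `χ` the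
gradient of the chart, `q` and `q'` the natural coefficients of the two sheets. -/
structure AOK {K : ℕ} (hK : 1 ≤ K) (g : ℕ → ℕ) (d : ℕ) (a : (Fin 3 → Fin (K + 1)) → ℝ)
    (y χ : Fin 3 → ℝ) (q q' : Fin 4 → ℝ) (x u U τ Λ Gg ε : ℝ) : Prop where
  val : |x - ev a y| ≤ ε
  lip : ∀ z z' : Fin 3 → ℝ, (∀ l, |z l| ≤ 2) → (∀ l, |z' l| ≤ 2) →
    |ev a z - ev a z'| ≤ Gg * ∑ l : Fin 3, |z l - z' l| / 2 ^ (g l + d)
  up : ∀ i, |gr hK y a χ i| ≤ U * u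
  hi : ∀ X, (∀ i, |gr hK y a χ i| ≤ X) → ∀ α, 2 ≤ tdg α → |shf y a α| ≤ τ * X
  lk : ∀ i : Fin 2, |u * q' (Fin.natAdd 2 i) - (gr hK y a χ (Fin.castSucc i) +
    gr hK y a χ (Fin.last 2) * q (Fin.natAdd 2 i))| ≤ Λ * u

/-- **The fields of the array from near-constancy in the cell.** -/
theorem aok_of (K : ℕ) (hK : 1 ≤ K) : ∃ C : ℝ, 1 ≤ C ∧
    ∀ (g : ℕ → ℕ) (d : ℕ) (p pc pA : MvPolynomial (Fin 4) ℝ) (t : ℝ) (b ν : Fin 3 → ℝ)
      (q q' : Fin 4 → ℝ) (y χ : Fin 3 → ℝ) (Gr : Fin 3 → ℝ)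
      (ρ τ H X X₀ κ x u ε εf U τ' Λ Gg : ℝ),
      p.totalDegree ≤ K → pc.totalDegree ≤ 1 → pA.totalDegree ≤ 1 →
      (∀ i, 0 ≤ y i ∧ y i ≤ 1) → 0 < ρ → 0 < τ → τ ≤ 1 → (∀ l, 0 ≤ ν l) → 1 ≤ H →
      (∀ i, |q i| ≤ H) → (∀ l, ν l * H ≤ τ * ρ) → (∀ l, 9 * (ν l * H) ≤ ρ) → (∀ l, ν l ≤ X) →
      (∀ i : Fin 2, ν (Fin.castSucc i) ≤ X₀) →
      Nb ρ (slv t b (sS ν q) y) (p - pc) →
      (∀ l : Fin 3, Nb ρ (slv t b (sS ν q) y) (pderiv l.succ (p - pc))) →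
      Nb ρ (slv t b (sS ν q) y) (p - pc - pA) →
      (∀ l : Fin 3, ∀ v, (∀ i, |v i - slv t b (sS ν q) y i| ≤ ρ) →
        |eval v (pderiv l.succ p)| ≤ Gr l) →
      (∀ i : Fin 2, ν (Fin.castSucc i) * eval (slv t b (sS ν q) y)
        (pderiv (Fin.castSucc i).succ pA) = u * q' (Fin.natAdd 2 i)) →
      (∀ i, χ i = shf y (arM K (slc t b (sS ν q) pc)) (sg1 hK i)) →
      |x - eval (slv t b (sS ν q) y) p| ≤ ε → |x - eval (slv t b (sS ν q) y) pc| ≤ κ →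
      |x - eval (slv t b (sS ν q) y) pc - eval (slv t b (sS ν q) y) pA| ≤ κ * εf →
      (∀ i, ν i * Gr i + H * (ν 2 * Gr 2) ≤ Gg / 2 ^ (g i + d)) →
      C * H * (X / ρ) * (κ + ε) ≤ U * u → C * τ * H ^ 2 ≤ τ' →
      C * (X₀ / ρ) * (κ * εf + ε) ≤ Λ * u →
      AOK hK g d (arM K (slc t b (sS ν q) p)) y χ q q' x u U τ' Λ Gg ε := by
  obtain ⟨C₁, hC₁, h1⟩ := arr_up K hK
  obtain ⟨C₂, hC₂, h2⟩ := arr_hi K hK
  obtain ⟨C₃, hC₃, h3⟩ := arr_lk K hK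
  refine ⟨C₁ + C₂ + C₃, by linarith, ?_⟩
  intro g d p pc pA t b ν q q' y χ Gr ρ τ H X X₀ κ x u ε εf U τ' Λ Gg hp hpc hpA hy hρ hτ hτ1 hν hH
    hq hντ hν9 hνX hνX₀ n1 n2 n3 hGr hA hχ hx hxc hxA hGg hU hτ' hΛ
  obtain ⟨v, hv⟩ : ∃ v, v = slv t b (sS ν q) y := ⟨_, rfl⟩
  have hX0 : 0 ≤ X := (hν 0).trans (hνX 0)
  have hXρ : 0 ≤ X / ρ := by positivity
  have hε0 : 0 ≤ ε := (abs_nonneg _).trans hx
  have hκ0 : 0 ≤ κ := (abs_nonneg _).trans hxc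
  have hd1 : |eval v (p - pc)| ≤ κ + ε := by
    rw [hv, map_sub]
    have e1 : eval (slv t b (sS ν q) y) p - eval (slv t b (sS ν q) y) pc =
        (x - eval (slv t b (sS ν q) y) pc) - (x - eval (slv t b (sS ν q) y) p) := by ring
    rw [e1]
    exact (abs_sub _ _).trans (add_le_add hxc hx)
  have hd2 : |eval v (p - pc - pA)| ≤ κ * εf + ε := by
    rw [hv, map_sub, map_sub]
    have e1 : eval (slv t b (sS ν q) y) p - eval (slv t b (sS ν q) y) pc -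
        eval (slv t b (sS ν q) y) pA = (x - eval (slv t b (sS ν q) y) pc -
        eval (slv t b (sS ν q) y) pA) - (x - eval (slv t b (sS ν q) y) p) := by ring
    rw [e1]
    exact (abs_sub _ _).trans (add_le_add hxA hx)
  have hf0 : 0 ≤ κ * εf := (abs_nonneg _).trans hxA
  refine ⟨?_, ?_, ?_, ?_, ?_⟩
  · rw [ev_arM (deg_slc _ _ _ hp), eval_slc]
    exact hx
  · intro z z' hz hz'
    refine (arr_lip hp hy hρ.le hν hH hq hν9 hGr hz hz').trans ?_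
    rw [Finset.mul_sum]
    refine Finset.sum_le_sum fun i _ => ?_
    calc |z i - z' i| * (ν i * Gr i + H * (ν 2 * Gr 2)) ≤ |z i - z' i| * (Gg / 2 ^ (g i + d)) :=
          mul_le_mul_of_nonneg_left (hGg i) (abs_nonneg _)
      _ = _ := by ring
  · intro i
    refine (h1 p pc t b ν q y ρ H X χ hp hpc hρ hν hH hq hνX n1 hχ i).trans (le_trans ?_ hU)
    rw [← hv]
    have hH0 : 0 ≤ H := by linarith
    have e1 : C₁ * H * (X / ρ) * |eval v (p - pc)| ≤ C₁ * H * (X / ρ) * (κ + ε) :=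
      mul_le_mul_of_nonneg_left hd1 (by positivity)
    have e2 : C₁ * (H * (X / ρ) * (κ + ε)) ≤ (C₁ + C₂ + C₃) * (H * (X / ρ) * (κ + ε)) :=
      mul_le_mul_of_nonneg_right (by linarith) (by positivity)
    calc C₁ * H * (X / ρ) * |eval v (p - pc)| ≤ C₁ * (H * (X / ρ) * (κ + ε)) := by
          rw [← mul_assoc, ← mul_assoc]
          exact e1
      _ ≤ _ := e2
      _ = _ := by ring
  · intro X' hX' α hα
    have hX'0 : 0 ≤ X' := (abs_nonneg _).trans (hX' 0)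
    refine (h2 p pc t b ν q y ρ τ H X' χ hp hpc hρ hτ hτ1 hν hH hq hντ n2 hχ hX' α hα).trans ?_
    refine mul_le_mul_of_nonneg_right (le_trans ?_ hτ') hX'0
    have e1 : 0 ≤ τ * H ^ 2 := by positivity
    have e2 : C₂ * (τ * H ^ 2) ≤ (C₁ + C₂ + C₃) * (τ * H ^ 2) :=
      mul_le_mul_of_nonneg_right (by linarith) e1
    calc C₂ * τ * H ^ 2 = C₂ * (τ * H ^ 2) := by ring
      _ ≤ _ := e2
      _ = _ := by ring
  · intro i
    refine (h3 p pc pA t b ν q q' y ρ u χ hp hpc hpA hρ hν n3 hA hχ i).trans (le_trans ?_ hΛ)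
    rw [← hv]
    have hνi : ν (Fin.castSucc i) / ρ ≤ X₀ / ρ := div_le_div_of_nonneg_right (hνX₀ _) hρ.le
    have hνi0 : 0 ≤ ν (Fin.castSucc i) / ρ := div_nonneg (hν _) hρ.le
    have hX₀ρ : 0 ≤ X₀ / ρ := hνi0.trans hνi
    calc C₃ * (ν (Fin.castSucc i) / ρ) * |eval v (p - pc - pA)| ≤
          (C₁ + C₂ + C₃) * (X₀ / ρ) * (κ * εf + ε) := by
          refine mul_le_mul (mul_le_mul (by linarith) hνi hνi0 (by linarith)) hd2
            (abs_nonneg _) (by positivity)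

end Pool.TUB
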