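import Pool.Agent.H86.EXT.Brg

/-!
# H15/GEO/Nbv: near-constancy around the position in a cell

`Nb ρ v P`: the values of `P` at distance at most `ρ` of `v` are at most three times the value at
`v`. `nbc_ev`: near-constancy of a family of polynomials in the coordinates of a cell around the
position, for most samples of a law with nearly full digits in the cell, given the label. `low_ev`:
the digits in a subcell.
-/

set_option autoImplicit false

namespace Pool.TUB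

open Finset Real
open Pool.Agent.H49.Ent Pool.Agent.H32.Dense Pool.STK Pool.KAF Pool.KAL Pool.KS3 Pool.M3F Pool.KJA
open Pool.IEN Pool.EXS

/-- Near-constancy around `v`. -/
def Nb {k : ℕ} (ρ : ℝ) (v : Fin k → ℝ) (P : MvPolynomial (Fin k) ℝ) : Prop :=
  ∀ u : Fin k → ℝ, (∀ i, |u i - v i| ≤ ρ) →
    |MvPolynomial.eval u P| ≤ 3 * |MvPolynomial.eval v P|

theorem nb_zero {k : ℕ} (ρ : ℝ) (v : Fin k → ℝ) : Nb ρ v (0 : MvPolynomial (Fin k) ℝ) := by
  intro u _
  rw [map_zero, map_zero, abs_zero, mul_zero]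

theorem Nb.mono {k : ℕ} {ρ ρ' : ℝ} {v : Fin k → ℝ} {P : MvPolynomial (Fin k) ℝ}
    (h : Nb ρ v P) (hρ : ρ' ≤ ρ) : Nb ρ' v P := fun u hu => h u fun i => (hu i).trans hρ

theorem nb_nc {k : ℕ} {a ρ : ℝ} {z v : Fin k → ℝ} {P : MvPolynomial (Fin k) ℝ}
    (h : NC (1 / 2) a z P) (hρ : 0 ≤ ρ) (hv : ∀ i, |v i - z i| + ρ ≤ a) : Nb ρ v P := by
  intro u hu
  refine h.cell (fun i => ?_) (fun i => ?_)
  · have e1 : u i - z i = (u i - v i) + (v i - z i) := by ring
    rw [e1]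
    refine (abs_add_le _ _).trans ?_
    linarith [hu i, hv i]
  · linarith [hv i]

variable {d : ℕ}

/-- **Near-constancy around the position in the cell.** -/
theorem nbc_ev (d K m₀ : ℕ) : ∃ C : ℝ, 1 ≤ C ∧
    ∀ (V Γ : Type) [Fintype V] (r : V → ℝ) (c : V → Γ) (L : ℕ) (N : Fin d → ℕ)
      (n : V → Fin d → ℤ) (b₀ : Γ → Fin d → ℤ) (v : V → Fin d → ℝ)
      (P : Γ → Fin m₀ → MvPolynomial (Fin d) ℝ) (h μ : ℝ),
      IsLaw r → 1 ≤ L → (∀ i, 1 ≤ N i) → 0 < h → C * Real.exp h ≤ L →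
      (∀ e, 0 < r e → ∀ j, (P (c e) j).totalDegree ≤ K) →
      (∀ e, 0 < r e → nidx (fun i => L * N i) (n e) = b₀ (c e)) →
      (∀ e, 0 < r e → ∀ i, |v e i - (nrem (fun i => L * N i) (n e) i : ℝ) /
        ((L * N i : ℕ) : ℝ)| ≤ 1 / L) →
      ∑ i, Real.log ((L * N i : ℕ) : ℝ) -
        CH r (fun e => nrem (fun i => L * N i) (n e)) c ≤ μ →
      ms r (fun e => ¬ ∀ j, Nb (2 / L) (v e) (P (c e) j)) ≤ (μ + Real.log 2) / h := by
  classical
  obtain ⟨C, hC, hnc⟩ := nc_ev d K m₀ (1 / 2) (by norm_num)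
  refine ⟨C * 4, by linarith, ?_⟩
  intro V Γ _ r c L N n b₀ v P h μ hr hL hN hh hCL hdeg hb₀ hv hμ
  have hL0 : (0 : ℝ) < L := by exact_mod_cast hL
  obtain ⟨N₀, hN₀⟩ : ∃ N₀ : Fin d → ℕ, N₀ = fun i => L * N i := ⟨_, rfl⟩
  rw [← hN₀] at hb₀ hμ
  simp only [← hN₀] at hv
  have hN₀1 : ∀ i, 1 ≤ N₀ i := fun i => by
    rw [hN₀]
    exact Nat.mul_pos hL (hN i)
  have hN₀e : ∀ i, (((L * N i : ℕ)) : ℝ) = (N₀ i : ℝ) := fun i => by rw [hN₀]
  -- the digit
  obtain ⟨Y, hY⟩ : ∃ Y : V → Fin d → Fin L, Y = fun e i =>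
    ⟨nrem N₀ (n e) i / N i, by
      have h1 := nrem_lt hN₀1 (n e) i
      rw [hN₀] at h1 ⊢
      exact Nat.div_lt_of_lt_mul (by rw [mul_comm]; exact h1)⟩ := ⟨_, rfl⟩
  have hYv : ∀ e i, (Y e i : ℕ) = nrem N₀ (n e) i / N i := fun e i => by rw [hY]
  have h1 := ent_top hr c (fun e => nrem N₀ (n e)) L N Y hL hN (fun e _ i => hYv e i)
  have h2 := hnc V Γ r c L Y P 4 h hr hL (by norm_num) hh hCL hdeg
  have h3 : ms r (fun e => ¬ ∀ j, Nb (2 / L) (v e) (P (c e) j)) ≤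
      ms r (fun e => ¬ ∀ j, P (c e) j = 0 ∨ NC (1 / 2) (4 / L) (gp L (Y e)) (P (c e) j)) := by
    refine ms_le hr.nonneg fun e he hbad hgood => hbad fun j => ?_
    rcases hgood j with h4 | h4
    · rw [h4]
      exact nb_zero _ _
    · refine nb_nc h4 (by positivity) fun i => ?_
      have hNi : (0 : ℝ) < N i := by exact_mod_cast hN i
      have hN₀i : (0 : ℝ) < N₀ i := by exact_mod_cast hN₀1 i
      have h5 := hv e he i
      rw [hN₀e i] at h5
      have h6 : |(nrem N₀ (n e) i : ℝ) / (N₀ i : ℝ) - gp L (Y e) i| ≤ 1 / L := by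
        show |(nrem N₀ (n e) i : ℝ) / (N₀ i : ℝ) - ((Y e i : ℕ) : ℝ) / L| ≤ 1 / L
        have e1 := Nat.div_add_mod (nrem N₀ (n e) i) (N i)
        have e2 := Nat.mod_lt (nrem N₀ (n e) i) (hN i)
        have e3 : (nrem N₀ (n e) i : ℝ) = N i * (Y e i : ℕ) + (nrem N₀ (n e) i % N i : ℕ) := by
          rw [hYv]
          exact_mod_cast e1.symm
        have e4 : (N₀ i : ℝ) = L * N i := by
          rw [hN₀]
          push_cast
          ring
        have e5 : (nrem N₀ (n e) i : ℝ) / (N₀ i : ℝ) - ((Y e i : ℕ) : ℝ) / L =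
            (nrem N₀ (n e) i % N i : ℕ) / (N i : ℝ) / L := by
          rw [e3, e4]
          field_simp
          ring
        rw [e5, abs_of_nonneg (by positivity)]
        refine div_le_div_of_nonneg_right ?_ hL0.le
        rw [div_le_one hNi]
        exact_mod_cast e2.le
      have e6 : v e i - gp L (Y e) i = (v e i - (nrem N₀ (n e) i : ℝ) / (N₀ i : ℝ)) +
          ((nrem N₀ (n e) i : ℝ) / (N₀ i : ℝ) - gp L (Y e) i) := by ring
      have e7 : (1 : ℝ) / L + 1 / L + 2 / L = 4 / L := by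
        field_simp
        norm_num
      rw [e6]
      have e8 := abs_add_le (v e i - (nrem N₀ (n e) i : ℝ) / (N₀ i : ℝ))
        ((nrem N₀ (n e) i : ℝ) / (N₀ i : ℝ) - gp L (Y e) i)
      linarith
  refine h3.trans (h2.trans ?_)
  refine div_le_div_of_nonneg_right ?_ hh.le
  have h7 : ∑ i, Real.log (((L * N i : ℕ)) : ℝ) - CH r (fun e => nrem N₀ (n e)) c ≤ μ := hμ
  linarith

/-- **The digits in a subcell**: given the index of the subcell they are nearly full. -/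
theorem low_ev {V Γ : Type} [Fintype V] {r : V → ℝ} (hr : IsLaw r) (c : V → Γ) {L : ℕ}
    {N : Fin d → ℕ} (hL : 1 ≤ L) (hN : ∀ i, 1 ≤ N i) (n : V → Fin d → ℤ) :
    ∑ i, Real.log (N i) - CH r (fun e => nrem N (n e)) (fun e => (c e, nidx N (n e))) ≤
      ∑ i, Real.log ((L * N i : ℕ) : ℝ) - CH r (fun e => nrem (fun i => L * N i) (n e))
        (fun e => (c e, nidx (fun i => L * N i) (n e))) := by
  classical
  obtain ⟨N₀, hN₀⟩ : ∃ N₀ : Fin d → ℕ, N₀ = fun i => L * N i := ⟨_, rfl⟩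
  have hN₀1 : ∀ i, 1 ≤ N₀ i := fun i => by
    rw [hN₀]
    exact Nat.mul_pos hL (hN i)
  rw [← hN₀]
  obtain ⟨Y, hY⟩ : ∃ Y : V → Fin d → Fin L, Y = fun e i =>
    ⟨nrem N₀ (n e) i / N i, by
      have h1 := nrem_lt hN₀1 (n e) i
      rw [hN₀] at h1 ⊢
      exact Nat.div_lt_of_lt_mul (by rw [mul_comm]; exact h1)⟩ := ⟨_, rfl⟩
  have hYv : ∀ e i, (Y e i : ℕ) = nrem N₀ (n e) i / N i := fun e i => by rw [hY]
  have h1 := ent_low hr (fun e => (c e, nidx N₀ (n e))) (fun e => nrem N₀ (n e)) L N Y hL hN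
    (fun e _ i => hYv e i)
  have hdvd : ∀ i, (N i : ℤ) ∣ (N₀ i : ℤ) := fun i => by
    rw [hN₀]
    push_cast
    exact dvd_mul_left _ _
  have h2 : ∀ e i, nrem N₀ (n e) i % N i = nrem N (n e) i := by
    intro e i
    have e1 := nrem_cast hN₀1 (n e) i
    have e2 : ((nrem N₀ (n e) i % N i : ℕ) : ℤ) = (nrem N (n e) i : ℤ) := by
      have hNi : (0 : ℤ) < N i := by exact_mod_cast hN i
      have e3 : ((nrem N (n e) i : ℕ) : ℤ) = n e i % (N i : ℤ) := by
        unfold nrem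
        exact Int.toNat_of_nonneg (Int.emod_nonneg _ hNi.ne')
      rw [e3, Int.natCast_mod, e1, Int.sub_emod]
      have e4 : nidx N₀ (n e) i * (N₀ i : ℤ) % (N i : ℤ) = 0 :=
        Int.emod_eq_zero_of_dvd ((hdvd i).mul_left _)
      rw [e4, sub_zero, Int.emod_emod_of_dvd _ (dvd_refl _)]
    exact_mod_cast e2
  have h3 : (fun e (i : Fin d) => nrem N₀ (n e) i % N i) = fun e => nrem N (n e) := by
    funext e i
    exact h2 e i
  rw [h3] at h1
  -- the labels
  have h4 : CH r (fun e => nrem N (n e)) (fun e => (Y e, (c e, nidx N₀ (n e)))) ≤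
      CH r (fun e => nrem N (n e)) (fun e => (c e, nidx N (n e))) := by
    refine CH_mono_cond hr.nonneg fun e e' _ _ h => ?_
    simp only [Prod.mk.injEq] at h
    obtain ⟨hY', hc, hn⟩ := h
    simp only [Prod.mk.injEq]
    refine ⟨hc, ?_⟩
    funext i
    have hNi : (0 : ℤ) < N i := by exact_mod_cast hN i
    have e8 : ∀ e, ((Y e i : ℕ) : ℤ) = nidx N (n e) i - nidx N₀ (n e) i * L := by
      intro e
      rw [hYv, Int.natCast_div, nrem_cast hN₀1]
      have e9 : n e i - nidx N₀ (n e) i * (N₀ i : ℤ) =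
          n e i + (-(nidx N₀ (n e) i * L)) * (N i : ℤ) := by
        have e10 : (N₀ i : ℤ) = L * N i := by
          rw [hN₀]
          push_cast
          ring
        rw [e10]
        ring
      rw [e9, Int.add_mul_ediv_right _ _ hNi.ne']
      show n e i / (N i : ℤ) + _ = n e i / (N i : ℤ) - _
      ring
    have e1 := e8 e
    have e2 := e8 e'
    rw [hY', hn] at e1
    linarith
  have h5 : ∑ i, Real.log ((L * N i : ℕ) : ℝ) = ∑ i, Real.log (N₀ i) := by rw [hN₀]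
  rw [h5] at h1 ⊢
  linarith

end Pool.TUB
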