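import Pool.Agent.H15.GEO.Sln
import Pool.Agent.H15.GEO.Nbv

/-!
# H15/GEO/Ard: the fields of an array from near-constancy in the cell

`p`: a leaf in the coordinates of a cell, `pc`: the chart, `pA`: the sheet of the height (an affine
function). `gr_eq`: the first coefficients of the array without the chart. `gr_up`: their size.
`arr_hi`: the coefficients of order at least two. `arr_lk`: the slope of the height on the leaf.
-/

set_option autoImplicit false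

namespace Pool.TUB

open Finset MvPolynomial
open Pool.JMN (ev shf tdg)
open Pool.SPN (sg1)
open Pool.PM (gr)

variable {K : ℕ}

theorem slc_sub {n k : ℕ} (t : ℝ) (b : Fin n → ℝ) (S : Fin n → Fin k → ℝ)
    (P P' : MvPolynomial (Fin (n + 1)) ℝ) : slc t b S (P - P') = slc t b S P - slc t b S P' :=
  map_sub _ _ _

theorem sh_sub {k : ℕ} (y : Fin k → ℝ) (P P' : MvPolynomial (Fin k) ℝ) :
    sh y (P - P') = sh y P - sh y P' := map_sub _ _ _

/-- The coefficients of order at least two do not see the chart. -/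
theorem shf_sub_one {n k : ℕ} (hK : 1 ≤ K) {p pc : MvPolynomial (Fin (n + 1)) ℝ}
    (hp : p.totalDegree ≤ K) (hpc : pc.totalDegree ≤ 1) (t : ℝ) (b : Fin n → ℝ)
    (S : Fin n → Fin k → ℝ) (y : Fin k → ℝ) {α : Fin k → Fin (K + 1)} (hα : 2 ≤ tdg α) :
    shf y (arM K (slc t b S p)) α = shf y (arM K (slc t b S (p - pc))) α := by
  classical
  have hd : (p - pc).totalDegree ≤ K := deg_sub1 hp (hpc.trans hK)
  rw [shf_arM (deg_slc t b S hp), shf_arM (deg_slc t b S hd), slc_sub, sh_sub]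
  show coeff (fsp α) _ = coeff (fsp α) _
  rw [coeff_sub]
  have h1 : (sh y (slc t b S pc)).totalDegree ≤ 1 := deg_sh y (deg_slc t b S hpc)
  have h2 : coeff (fsp α) (sh y (slc t b S pc)) = 0 := by
    refine coeff_eq_zero_of_totalDegree_lt (lt_of_le_of_lt h1 ?_)
    have h3 : ∑ i ∈ (fsp α).support, (fsp α) i = tdg α := by
      unfold tdg
      refine Finset.sum_subset (Finset.subset_univ _) fun i _ hi => ?_
      rw [Finsupp.notMem_support_iff] at hi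
      exact hi
    rw [h3]
    omega
  rw [h2, sub_zero]

/-- **The first coefficients of the array without the chart.** -/
theorem gr_eq (hK : 1 ≤ K) {p pc : MvPolynomial (Fin 4) ℝ} (hp : p.totalDegree ≤ K)
    (hpc : pc.totalDegree ≤ 1) (t : ℝ) (b : Fin 3 → ℝ) (S : Fin 3 → Fin 3 → ℝ) (y : Fin 3 → ℝ)
    {χ : Fin 3 → ℝ} (hχ : ∀ i, χ i = shf y (arM K (slc t b S pc)) (sg1 hK i)) (i : Fin 3) :
    gr hK y (arM K (slc t b S p)) χ i =
      ∑ l, S l i * eval (slv t b S y) (pderiv l.succ (p - pc)) := by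
  unfold gr
  rw [hχ, one_slc hp hK, one_slc (hpc.trans hK) hK, ← Finset.sum_sub_distrib]
  refine Finset.sum_congr rfl fun l _ => ?_
  rw [map_sub, map_sub, mul_sub]

theorem sS_col (ν : Fin 3 → ℝ) (q : Fin 4 → ℝ) (D : Fin 3 → ℝ) :
    (∑ l, sS ν q l 0 * D l = ν 0 * D 0 - q 2 * (ν 2 * D 2)) ∧
    (∑ l, sS ν q l 1 * D l = ν 1 * D 1 - q 3 * (ν 2 * D 2)) ∧
      ∑ l, sS ν q l 2 * D l = ν 2 * D 2 := by
  have h0 : (Fin.castSucc (0 : Fin 3) + 2 : Fin 4) = 2 := by decide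
  have h1 : (Fin.castSucc (1 : Fin 3) + 2 : Fin 4) = 3 := by decide
  have e02 : ¬ ((0 : Fin 3) = 2) := by decide
  have e12 : ¬ ((1 : Fin 3) = 2) := by decide
  have e10 : ¬ ((1 : Fin 3) = 0) := by decide
  have e01 : ¬ ((0 : Fin 3) = 1) := by decide
  have e20 : ¬ ((2 : Fin 3) = 0) := by decide
  have e21 : ¬ ((2 : Fin 3) = 1) := by decide
  refine ⟨?_, ?_, ?_⟩
  · rw [Fin.sum_univ_three]
    unfold sS
    rw [if_pos rfl, if_neg e10, if_neg e12, if_neg e20, if_pos rfl, h0]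
    ring
  · rw [Fin.sum_univ_three]
    unfold sS
    rw [if_neg e01, if_neg e02, if_pos rfl, if_neg e21, if_pos rfl, h1]
    ring
  · rw [Fin.sum_univ_three]
    unfold sS
    rw [if_neg e02, if_neg e02, if_neg e12, if_neg e12, if_pos rfl]
    ring

theorem sS_le {ν : Fin 3 → ℝ} {q : Fin 4 → ℝ} {H : ℝ} (hν : ∀ l, 0 ≤ ν l) (hH : 1 ≤ H)
    (hq : ∀ i, |q i| ≤ H) (l i : Fin 3) : |sS ν q l i| ≤ ν l * H := by
  unfold sS
  rw [abs_mul, abs_of_nonneg (hν l)]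
  refine mul_le_mul_of_nonneg_left ?_ (hν l)
  split_ifs
  · rw [abs_one]
    exact hH
  · rw [abs_neg]
    exact hq _
  · rw [abs_zero]
    linarith

/-- The derivatives in the cell from the coefficients of the array. -/
theorem der_le {ν : Fin 3 → ℝ} {q : Fin 4 → ℝ} {H X : ℝ} {D G : Fin 3 → ℝ} (hν : ∀ l, 0 ≤ ν l)
    (hH : 1 ≤ H) (hq : ∀ i, |q i| ≤ H) (hG : ∀ i, G i = ∑ l, sS ν q l i * D l)
    (hX : ∀ i, |G i| ≤ X) (l : Fin 3) : ν l * |D l| ≤ 2 * H * X := by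
  obtain ⟨c0, c1, c2⟩ := sS_col ν q D
  rw [← hG] at c0 c1 c2
  have hX0 : 0 ≤ X := (abs_nonneg _).trans (hX 0)
  have a2 : ν 2 * |D 2| ≤ X := by
    have h1 := hX 2
    rw [c2, abs_mul, abs_of_nonneg (hν 2)] at h1
    exact h1
  have hHX : X ≤ H * X := le_mul_of_one_le_left hX0 hH
  have key : ∀ (i : Fin 3) (a : ℝ), |a| ≤ H → G i = ν i * D i - a * (ν 2 * D 2) →
      ν i * |D i| ≤ 2 * H * X := by
    intro i a ha he
    have h1 : ν i * D i = G i + a * (ν 2 * D 2) := by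
      rw [he]
      ring
    have h2 : ν i * |D i| = |ν i * D i| := by rw [abs_mul, abs_of_nonneg (hν i)]
    rw [h2, h1]
    refine (abs_add_le _ _).trans ?_
    have h3 : |a * (ν 2 * D 2)| ≤ H * X := by
      rw [abs_mul, abs_mul, abs_of_nonneg (hν 2)]
      exact mul_le_mul ha a2 (mul_nonneg (hν 2) (abs_nonneg _)) (by linarith)
    linarith [hX i]
  have hl : l = 0 ∨ l = 1 ∨ l = 2 := by
    fin_cases l
    · exact Or.inl rfl
    · exact Or.inr (Or.inl rfl)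
    · exact Or.inr (Or.inr rfl)
  rcases hl with rfl | rfl | rfl
  · exact key 0 (q 2) (hq 2) c0
  · exact key 1 (q 3) (hq 3) c1
  · linarith

/-- **The coefficients of order at least two.** -/
theorem arr_hi (K : ℕ) (hK : 1 ≤ K) : ∃ C : ℝ, 1 ≤ C ∧ ∀ (p pc : MvPolynomial (Fin 4) ℝ)
    (t : ℝ) (b ν : Fin 3 → ℝ) (q : Fin 4 → ℝ) (y : Fin 3 → ℝ) (ρ τ H X : ℝ) (χ : Fin 3 → ℝ),
    p.totalDegree ≤ K → pc.totalDegree ≤ 1 → 0 < ρ → 0 < τ → τ ≤ 1 → (∀ l, 0 ≤ ν l) → 1 ≤ H →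
    (∀ i, |q i| ≤ H) → (∀ l, ν l * H ≤ τ * ρ) →
    (∀ l : Fin 3, Nb ρ (slv t b (sS ν q) y) (pderiv l.succ (p - pc))) →
    (∀ i, χ i = shf y (arM K (slc t b (sS ν q) pc)) (sg1 hK i)) →
    (∀ i, |gr hK y (arM K (slc t b (sS ν q) p)) χ i| ≤ X) →
    ∀ α, 2 ≤ tdg α → |shf y (arM K (slc t b (sS ν q) p)) α| ≤ C * τ * H ^ 2 * X := by
  obtain ⟨C, hC, hhi⟩ := hi_le 3 3 K
  refine ⟨C * 18, by linarith, ?_⟩
  intro p pc t b ν q y ρ τ H X χ hp hpc hρ hτ hτ1 hν hH hq hντ hNb hχ hX α hα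
  have hd : (p - pc).totalDegree ≤ K := deg_sub1 hp (hpc.trans hK)
  obtain ⟨D, hD⟩ : ∃ D : Fin 3 → ℝ, D = fun l => eval (slv t b (sS ν q) y)
    (pderiv l.succ (p - pc)) := ⟨_, rfl⟩
  have hX0 : 0 ≤ X := (abs_nonneg _).trans (hX 0)
  have h1 := hhi (p - pc) hd t b (sS ν q) y ρ τ (fun l => ν l * H) (fun l => 3 * |D l|) hρ hτ hτ1
    (fun l i => sS_le hν hH hq l i) hντ (fun l => mul_nonneg (hν l) (by linarith))
    (fun l u hu => by
      rw [hD]
      exact hNb l u hu) α hα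
  rw [shf_sub_one hK hp hpc t b (sS ν q) y hα]
  refine h1.trans ?_
  have h2 : ∀ l, ν l * |D l| ≤ 2 * H * X := der_le hν hH hq
    (fun i => by rw [hD]; exact gr_eq hK hp hpc t b (sS ν q) y hχ i) hX
  have h3 : ∑ l, ν l * H * (3 * |D l|) ≤ 18 * H ^ 2 * X := by
    have h4 : ∀ l ∈ (Finset.univ : Finset (Fin 3)), ν l * H * (3 * |D l|) ≤ 6 * H ^ 2 * X := by
      intro l _
      have h5 := mul_le_mul_of_nonneg_left (h2 l) (by linarith : (0 : ℝ) ≤ 3 * H)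
      have e1 : ν l * H * (3 * |D l|) = 3 * H * (ν l * |D l|) := by ring
      have e2 : 6 * H ^ 2 * X = 3 * H * (2 * H * X) := by ring
      rw [e1, e2]
      exact h5
    refine (Finset.sum_le_sum h4).trans (le_of_eq ?_)
    rw [Finset.sum_const, Finset.card_univ, Fintype.card_fin, nsmul_eq_mul]
    push_cast
    ring
  have h6 : 0 ≤ C * τ := by positivity
  calc C * τ * ∑ l, ν l * H * (3 * |D l|) ≤ C * τ * (18 * H ^ 2 * X) :=
        mul_le_mul_of_nonneg_left h3 h6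
    _ = _ := by ring

/-- **The slope of the height on the leaf.** -/
theorem arr_lk (K : ℕ) (hK : 1 ≤ K) : ∃ C : ℝ, 1 ≤ C ∧ ∀ (p pc pA : MvPolynomial (Fin 4) ℝ)
    (t : ℝ) (b ν : Fin 3 → ℝ) (q q' : Fin 4 → ℝ) (y : Fin 3 → ℝ) (ρ u : ℝ) (χ : Fin 3 → ℝ),
    p.totalDegree ≤ K → pc.totalDegree ≤ 1 → pA.totalDegree ≤ 1 → 0 < ρ → (∀ l, 0 ≤ ν l) →
    Nb ρ (slv t b (sS ν q) y) (p - pc - pA) →
    (∀ i : Fin 2, ν (Fin.castSucc i) * eval (slv t b (sS ν q) y)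
      (pderiv (Fin.castSucc i).succ pA) = u * q' (Fin.natAdd 2 i)) →
    (∀ i, χ i = shf y (arM K (slc t b (sS ν q) pc)) (sg1 hK i)) →
    ∀ i : Fin 2, |u * q' (Fin.natAdd 2 i) -
      (gr hK y (arM K (slc t b (sS ν q) p)) χ (Fin.castSucc i) +
        gr hK y (arM K (slc t b (sS ν q) p)) χ (Fin.last 2) * q (Fin.natAdd 2 i))| ≤
      C * (ν (Fin.castSucc i) / ρ) * |eval (slv t b (sS ν q) y) (p - pc - pA)| := by
  obtain ⟨C, hC, hder⟩ := nb_der 4 K
  refine ⟨C * 3, by linarith, ?_⟩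
  intro p pc pA t b ν q q' y ρ u χ hp hpc hpA hρ hν hNb hA hχ i
  obtain ⟨v, hv⟩ : ∃ v, v = slv t b (sS ν q) y := ⟨_, rfl⟩
  obtain ⟨D, hD⟩ : ∃ D : Fin 3 → ℝ, D = fun l => eval (slv t b (sS ν q) y)
    (pderiv l.succ (p - pc)) := ⟨_, rfl⟩
  have hg : ∀ i, gr hK y (arM K (slc t b (sS ν q) p)) χ i = ∑ l, sS ν q l i * D l := fun i => by
    rw [hD]
    exact gr_eq hK hp hpc t b (sS ν q) y hχ i
  obtain ⟨c0, c1, c2⟩ := sS_col ν q D
  have hlast : (Fin.last 2 : Fin 3) = 2 := rfl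
  have h1 : gr hK y (arM K (slc t b (sS ν q) p)) χ (Fin.castSucc i) +
      gr hK y (arM K (slc t b (sS ν q) p)) χ (Fin.last 2) * q (Fin.natAdd 2 i) =
      ν (Fin.castSucc i) * D (Fin.castSucc i) := by
    rw [hg, hg, hlast, c2]
    have hi : i = 0 ∨ i = 1 := by
      fin_cases i
      · exact Or.inl rfl
      · exact Or.inr rfl
    rcases hi with rfl | rfl
    · have e1 : (Fin.castSucc (0 : Fin 2) : Fin 3) = 0 := rfl
      have e2 : (Fin.natAdd 2 (0 : Fin 2) : Fin 4) = 2 := rfl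
      rw [e1, e2, c0]
      ring
    · have e1 : (Fin.castSucc (1 : Fin 2) : Fin 3) = 1 := rfl
      have e2 : (Fin.natAdd 2 (1 : Fin 2) : Fin 4) = 3 := rfl
      rw [e1, e2, c1]
      ring
  have h2 : u * q' (Fin.natAdd 2 i) - ν (Fin.castSucc i) * D (Fin.castSucc i) =
      -(ν (Fin.castSucc i) * eval v (pderiv (Fin.castSucc i).succ (p - pc - pA))) := by
    rw [← hA i, hD, hv, map_sub (pderiv (Fin.castSucc i).succ) (p - pc) pA, map_sub]
    ring
  rw [h1, h2, abs_neg, abs_mul, abs_of_nonneg (hν _)]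
  have hd : (p - pc - pA).totalDegree ≤ K := deg_sub1 (deg_sub1 hp (hpc.trans hK)) (hpA.trans hK)
  have h3 := hder (p - pc - pA) hd v ρ (3 * |eval v (p - pc - pA)|) hρ
    (by rw [hv]; exact hNb) (Fin.castSucc i).succ
  have h4 : |eval v (pderiv (Fin.castSucc i).succ (p - pc - pA))| ≤
      C * (3 * |eval v (p - pc - pA)|) / ρ := by
    rw [le_div_iff₀ hρ]
    exact h3
  rw [← hv]
  calc ν (Fin.castSucc i) * |eval v (pderiv (Fin.castSucc i).succ (p - pc - pA))| ≤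
        ν (Fin.castSucc i) * (C * (3 * |eval v (p - pc - pA)|) / ρ) :=
        mul_le_mul_of_nonneg_left h4 (hν _)
    _ = _ := by ring

/-- **The size of the first coefficients.** -/
theorem arr_up (K : ℕ) (hK : 1 ≤ K) : ∃ C : ℝ, 1 ≤ C ∧ ∀ (p pc : MvPolynomial (Fin 4) ℝ)
    (t : ℝ) (b ν : Fin 3 → ℝ) (q : Fin 4 → ℝ) (y : Fin 3 → ℝ) (ρ H X : ℝ) (χ : Fin 3 → ℝ),
    p.totalDegree ≤ K → pc.totalDegree ≤ 1 → 0 < ρ → (∀ l, 0 ≤ ν l) → 1 ≤ H →
    (∀ i, |q i| ≤ H) → (∀ l, ν l ≤ X) → Nb ρ (slv t b (sS ν q) y) (p - pc) →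
    (∀ i, χ i = shf y (arM K (slc t b (sS ν q) pc)) (sg1 hK i)) →
    ∀ i, |gr hK y (arM K (slc t b (sS ν q) p)) χ i| ≤
      C * H * (X / ρ) * |eval (slv t b (sS ν q) y) (p - pc)| := by
  obtain ⟨C, hC, hder⟩ := nb_der 4 K
  refine ⟨C * 9, by linarith, ?_⟩
  intro p pc t b ν q y ρ H X χ hp hpc hρ hν hH hq hX hNb hχ i
  have hd : (p - pc).totalDegree ≤ K := deg_sub1 hp (hpc.trans hK)
  obtain ⟨A, hA⟩ : ∃ A, A = |eval (slv t b (sS ν q) y) (p - pc)| := ⟨_, rfl⟩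
  have hA0 : 0 ≤ A := by rw [hA]; exact abs_nonneg _
  rw [gr_eq hK hp hpc t b (sS ν q) y hχ i, ← hA]
  refine (Finset.abs_sum_le_sum_abs _ _).trans ?_
  have h1 : ∀ l ∈ (Finset.univ : Finset (Fin 3)), |sS ν q l i *
      eval (slv t b (sS ν q) y) (pderiv l.succ (p - pc))| ≤ X * H * (C * (3 * A) / ρ) := by
    intro l _
    rw [abs_mul]
    have h3 := hder (p - pc) hd (slv t b (sS ν q) y) ρ (3 * A) hρ
      (by rw [hA]; exact hNb) l.succ
    refine mul_le_mul ((sS_le hν hH hq l i).trans (mul_le_mul_of_nonneg_right (hX l)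
      (by linarith))) ?_ (abs_nonneg _) (mul_nonneg ((hν l).trans (hX l)) (by linarith))
    rw [le_div_iff₀ hρ]
    exact h3
  refine (Finset.sum_le_sum h1).trans (le_of_eq ?_)
  rw [Finset.sum_const, Finset.card_univ, Fintype.card_fin, nsmul_eq_mul]
  push_cast
  ring

/-- **The array is Lipschitz.** -/
theorem arr_lip {p : MvPolynomial (Fin 4) ℝ} {t : ℝ} {b ν : Fin 3 → ℝ} {q : Fin 4 → ℝ}
    {y : Fin 3 → ℝ} {ρ H : ℝ} {Gr : Fin 3 → ℝ} (hp : p.totalDegree ≤ K)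
    (hy : ∀ i, 0 ≤ y i ∧ y i ≤ 1) (hρ : 0 ≤ ρ) (hν : ∀ l, 0 ≤ ν l) (hH : 1 ≤ H)
    (hq : ∀ i, |q i| ≤ H) (hνρ : ∀ l, 9 * (ν l * H) ≤ ρ)
    (hG : ∀ l : Fin 3, ∀ u, (∀ i, |u i - slv t b (sS ν q) y i| ≤ ρ) →
      |eval u (pderiv l.succ p)| ≤ Gr l) {z z' : Fin 3 → ℝ} (hz : ∀ i, |z i| ≤ 2)
    (hz' : ∀ i, |z' i| ≤ 2) :
    |ev (arM K (slc t b (sS ν q) p)) z - ev (arM K (slc t b (sS ν q) p)) z'| ≤
      ∑ i, |z i - z' i| * (ν i * Gr i + H * (ν 2 * Gr 2)) := by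
  have hGr : ∀ l, 0 ≤ Gr l := fun l => (abs_nonneg _).trans (hG l _ fun i => by
    rw [sub_self, abs_zero]
    exact hρ)
  have h1 := lip_slc hp (t := t) (b := b) (S := sS ν q) hy (fun l => by
    have h2 : ∀ i ∈ (Finset.univ : Finset (Fin 3)), |sS ν q l i| * 3 ≤ ν l * H * 3 :=
      fun i _ => mul_le_mul_of_nonneg_right (sS_le hν hH hq l i) (by norm_num)
    refine (Finset.sum_le_sum h2).trans ?_
    rw [Finset.sum_const, Finset.card_univ, Fintype.card_fin, nsmul_eq_mul]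
    have h3 := hνρ l
    push_cast
    linarith) hρ hG hz hz'
  refine h1.trans (Finset.sum_le_sum fun i _ => mul_le_mul_of_nonneg_left ?_ (abs_nonneg _))
  -- the column
  have e0 : ∀ l : Fin 3, |sS ν q l i| * Gr l ≤ (if l = i then ν i * Gr i else 0) +
      (if l = 2 then H * (ν 2 * Gr 2) else 0) := by
    intro l
    unfold sS
    by_cases h : l = i
    · subst h
      rw [if_pos rfl, if_pos rfl, mul_one, abs_of_nonneg (hν _)]
      have : 0 ≤ (if l = 2 then H * (ν 2 * Gr 2) else 0) := by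
        split_ifs
        · exact mul_nonneg (by linarith) (mul_nonneg (hν _) (hGr _))
        · exact le_rfl
      linarith
    · rw [if_neg h, if_neg h, zero_add]
      by_cases h2 : l = 2
      · subst h2
        rw [if_pos rfl, if_pos rfl, abs_mul, abs_of_nonneg (hν _), abs_neg]
        have h3 := hq (Fin.castSucc i + 2)
        calc ν 2 * |q (Fin.castSucc i + 2)| * Gr 2 ≤ ν 2 * H * Gr 2 :=
              mul_le_mul_of_nonneg_right (mul_le_mul_of_nonneg_left h3 (hν _)) (hGr _)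
          _ = _ := by ring
      · rw [if_neg h2, if_neg h2, mul_zero, abs_zero, zero_mul]
  refine (Finset.sum_le_sum fun l _ => e0 l).trans (le_of_eq ?_)
  rw [Finset.sum_add_distrib, Finset.sum_ite_eq', Finset.sum_ite_eq', if_pos (Finset.mem_univ _),
    if_pos (Finset.mem_univ _)]

end Pool.TUB
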