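import Pool.Agent.H67.SPN.Sig
import Pool.Agent.H86.GEO.Pda

/-!
# H15/GEO/Ary: arrays of polynomials

`arM`: the array of a polynomial in `k` variables. `slc`: a polynomial in `n + 1` variables, with
the value `t` of the first variable, on an affine image of a cell. `hi_le`: the Taylor coefficients
of order at least two from the first derivatives. `one_slc`, `lip_slc`: the first coefficients.
-/

set_option autoImplicit false

namespace Pool.TUB

open Finset MvPolynomial
open Pool.JMN (ev shf tdg cK coef_le shf_le ev_le arr_ext ev_shf)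
open Pool.SPN (sg1)
open Pool.M3F (ucube cpt eval_bind pderiv_bind)

variable {k K : ℕ}

/-- The exponent. -/
noncomputable def fsp (α : Fin k → Fin (K + 1)) : Fin k →₀ ℕ :=
  Finsupp.equivFunOnFinite.symm (fun i => (α i : ℕ))

theorem fsp_apply (α : Fin k → Fin (K + 1)) (i : Fin k) : fsp α i = (α i : ℕ) := rfl

/-- The array of a polynomial. -/
noncomputable def arM (K : ℕ) (P : MvPolynomial (Fin k) ℝ) (α : Fin k → Fin (K + 1)) : ℝ :=
  coeff (fsp α) P

theorem ev_arM {P : MvPolynomial (Fin k) ℝ} (hP : P.totalDegree ≤ K) (z : Fin k → ℝ) :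
    ev (arM K P) z = eval z P := by
  classical
  rw [eval_eq']
  unfold ev
  have hdeg : ∀ d ∈ P.support, ∀ i, d i ≤ K := by
    intro d hd i
    refine le_trans ?_ ((le_totalDegree hd).trans hP)
    by_cases h : i ∈ d.support
    · exact Finset.single_le_sum (f := fun i => d i) (fun _ _ => Nat.zero_le _) h
    · rw [Finsupp.notMem_support_iff.1 h]
      exact Nat.zero_le _
  refine (Finset.sum_of_injOn (fun d : Fin k →₀ ℕ => fun i : Fin k =>
    (⟨min (d i) K, by omega⟩ : Fin (K + 1))) ?_ ?_ ?_ ?_).symm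
  · intro d hd d' hd' h
    ext i
    have h1 := congrFun h i
    simp only [Fin.mk.injEq] at h1
    have h2 := hdeg d hd i
    have h3 := hdeg d' hd' i
    omega
  · intro d _
    exact Finset.mem_coe.2 (Finset.mem_univ _)
  · intro α _ hα
    have h1 : fsp α ∉ P.support := by
      intro h2
      refine hα ⟨fsp α, h2, ?_⟩
      funext i
      refine Fin.ext ?_
      show min (fsp α i) K = (α i : ℕ)
      rw [fsp_apply]
      have := (α i).2
      omega
    show arM K P α * _ = 0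
    unfold arM
    rw [notMem_support_iff.1 h1, zero_mul]
  · intro d hd
    have h1 : fsp (K := K) (fun i : Fin k => (⟨min (d i) K, by omega⟩ : Fin (K + 1))) = d := by
      ext i
      show min (d i) K = d i
      have := hdeg d hd i
      omega
    show coeff d P * ∏ i, z i ^ d i = coeff (fsp _) P * ∏ i, z i ^ (min (d i) K)
    rw [h1]
    congr 1
    refine Finset.prod_congr rfl fun i _ => ?_
    rw [min_eq_left (hdeg d hd i)]

/-- The shift of a polynomial. -/
noncomputable def sh (y : Fin k → ℝ) (P : MvPolynomial (Fin k) ℝ) : MvPolynomial (Fin k) ℝ :=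
  bind₁ (fun i => X i + C (y i)) P

theorem eval_sh (y h : Fin k → ℝ) (P : MvPolynomial (Fin k) ℝ) :
    eval h (sh y P) = eval (fun i => y i + h i) P := by
  unfold sh
  rw [eval_bind]
  congr 2
  funext i
  show eval h (X i + C (y i)) = _
  rw [map_add, eval_X, eval_C, add_comm]

theorem deg_bind {σ : Type} {n : ℕ} {Φ : σ → MvPolynomial (Fin n) ℝ}
    (hΦ : ∀ o, (Φ o).totalDegree ≤ 1) {P : MvPolynomial σ ℝ} (hP : P.totalDegree ≤ K) :
    (bind₁ Φ P).totalDegree ≤ K := by
  refine (Pool.KS3.SML.totalDegree_bind_le _ 1 hΦ P).trans ?_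
  rw [one_mul]
  exact hP

theorem deg_sh (y : Fin k → ℝ) {P : MvPolynomial (Fin k) ℝ} (hP : P.totalDegree ≤ K) :
    (sh y P).totalDegree ≤ K :=
  deg_bind (fun i => (totalDegree_add _ _).trans (by
    rw [totalDegree_X, totalDegree_C]
    exact le_of_eq (max_eq_left zero_le_one))) hP

theorem shf_arM {P : MvPolynomial (Fin k) ℝ} (hP : P.totalDegree ≤ K) (y : Fin k → ℝ) :
    shf y (arM K P) = arM K (sh y P) := by
  refine arr_ext fun h => ?_
  rw [ev_shf, ev_arM hP, ev_arM (deg_sh y hP), eval_sh]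

theorem pd_sh (y : Fin k → ℝ) (i : Fin k) (P : MvPolynomial (Fin k) ℝ) :
    pderiv i (sh y P) = sh y (pderiv i P) := by
  classical
  unfold sh
  rw [pderiv_bind, Finset.sum_eq_single i]
  · rw [map_add, pderiv_X_self, pderiv_C, add_zero, mul_one]
  · intro l _ hl
    rw [map_add, pderiv_X_of_ne hl, pderiv_C, add_zero, mul_zero]
  · intro h
    exact absurd (Finset.mem_univ _) h

theorem deg_pd (i : Fin k) {P : MvPolynomial (Fin k) ℝ} (hP : P.totalDegree ≤ K) :
    (pderiv i P).totalDegree ≤ K :=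
  Pool.KS3.SML.totalDegree_pderiv_le i P K (hP.trans (Nat.le_succ K))

/-- The coefficient of a derivative. -/
theorem coef_pd {P : MvPolynomial (Fin k) ℝ} (i : Fin k) {α β : Fin k → Fin (K + 1)}
    (hβ : ∀ l, (β l : ℕ) = if l = i then (α i : ℕ) - 1 else (α l : ℕ)) (hα : 1 ≤ (α i : ℕ)) :
    coeff (fsp β) (pderiv i P) = coeff (fsp α) P * (α i : ℕ) := by
  classical
  have hfs : fsp β + Finsupp.single i 1 = fsp α := by
    ext l
    rw [Finsupp.add_apply, fsp_apply, fsp_apply, hβ l, Finsupp.single_apply]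
    by_cases h : l = i
    · subst h
      simp only [if_true]
      omega
    · rw [if_neg h, if_neg (Ne.symm h), add_zero]
  rw [coeff_pderiv, hfs, fsp_apply, hβ i, if_pos rfl]
  congr 1
  have e5 : ((α i : ℕ) : ℝ) = (((α i : ℕ) - 1 : ℕ) : ℝ) + 1 := by
    have e6 : (α i : ℕ) = (α i : ℕ) - 1 + 1 := by omega
    exact_mod_cast e6
  rw [e5]

/-- The first Taylor coefficients. -/
theorem shf_one {P : MvPolynomial (Fin k) ℝ} (hP : P.totalDegree ≤ K) (y : Fin k → ℝ)
    (α : Fin k → Fin (K + 1)) (i : Fin k) (hα : ∀ l, (α l : ℕ) = if l = i then 1 else 0) :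
    shf y (arM K P) α = eval y (pderiv i P) := by
  classical
  rw [shf_arM hP]
  show coeff (fsp α) (sh y P) = _
  have h1 : (0 : Fin k →₀ ℕ) + Finsupp.single i 1 = fsp α := by
    ext l
    rw [Finsupp.add_apply, fsp_apply, hα l, Finsupp.single_apply]
    by_cases h : l = i
    · subst h
      simp
    · rw [if_neg h, if_neg (Ne.symm h)]
      rfl
  have h2 := coeff_pderiv (i := i) (sh y P) 0
  rw [h1, Finsupp.coe_zero, Pi.zero_apply, Nat.cast_zero, zero_add, mul_one] at h2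
  rw [← h2, pd_sh]
  have h3 := eval_sh y (fun _ => 0) (pderiv i P)
  simp only [add_zero] at h3
  rw [← h3, show (fun _ : Fin k => (0 : ℝ)) = 0 from rfl, ← constantCoeff_eq, eval_zero]

/-- A derivative at the centre of a cube. -/
theorem nb_der (k K : ℕ) : ∃ C : ℝ, 1 ≤ C ∧ ∀ (P : MvPolynomial (Fin k) ℝ),
    P.totalDegree ≤ K → ∀ (v : Fin k → ℝ) (ρ A : ℝ), 0 < ρ →
    (∀ u, (∀ i, |u i - v i| ≤ ρ) → |eval u P| ≤ A) → ∀ i, |eval v (pderiv i P)| * ρ ≤ C * A := by
  classical
  obtain ⟨C, hC, hco⟩ := coef_le k (K + 1)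
  refine ⟨C, hC, fun P hP v ρ A hρ hA i => ?_⟩
  have hP' : P.totalDegree ≤ K + 1 := hP.trans (Nat.le_succ K)
  obtain ⟨α, hα⟩ : ∃ α : Fin k → Fin (K + 1 + 1), ∀ l, (α l : ℕ) = if l = i then 1 else 0 := by
    refine ⟨fun l => ⟨if l = i then 1 else 0, ?_⟩, fun l => rfl⟩
    split_ifs <;> omega
  have h1 := hco (arM (K + 1) (sh v P)) ρ A hρ (fun x hx => by
    rw [ev_arM (deg_sh v hP'), eval_sh]
    refine hA _ fun j => ?_
    rw [add_sub_cancel_left, abs_of_nonneg (hx j).1]
    exact (hx j).2) α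
  have h2 : tdg α = 1 := by
    unfold tdg
    rw [Finset.sum_eq_single i]
    · rw [hα, if_pos rfl]
    · intro l _ hl
      rw [hα, if_neg hl]
    · intro h
      exact absurd (Finset.mem_univ _) h
  have h3 : arM (K + 1) (sh v P) α = eval v (pderiv i P) := by
    rw [← shf_arM hP', shf_one hP' v α i hα]
  rw [h2, h3, pow_one] at h1
  exact h1

variable {n : ℕ}

/-- The affine slice. -/
noncomputable def slf (t : ℝ) (b : Fin n → ℝ) (S : Fin n → Fin k → ℝ) :
    Fin (n + 1) → MvPolynomial (Fin k) ℝ :=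
  Fin.cons (C t) (fun l => C (b l) + ∑ i, C (S l i) * X i)

/-- The point of the slice. -/
def slv (t : ℝ) (b : Fin n → ℝ) (S : Fin n → Fin k → ℝ) (z : Fin k → ℝ) : Fin (n + 1) → ℝ :=
  Fin.cons t (fun l => b l + ∑ i, S l i * z i)

/-- A polynomial in `n + 1` variables on the slice. -/
noncomputable def slc (t : ℝ) (b : Fin n → ℝ) (S : Fin n → Fin k → ℝ)
    (P : MvPolynomial (Fin (n + 1)) ℝ) : MvPolynomial (Fin k) ℝ := bind₁ (slf t b S) P

theorem slv_zero (t : ℝ) (b : Fin n → ℝ) (S : Fin n → Fin k → ℝ) (z : Fin k → ℝ) :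
    slv t b S z 0 = t := rfl

theorem slv_succ (t : ℝ) (b : Fin n → ℝ) (S : Fin n → Fin k → ℝ) (z : Fin k → ℝ) (l : Fin n) :
    slv t b S z l.succ = b l + ∑ i, S l i * z i := rfl

theorem eval_slc (t : ℝ) (b : Fin n → ℝ) (S : Fin n → Fin k → ℝ)
    (P : MvPolynomial (Fin (n + 1)) ℝ) (z : Fin k → ℝ) :
    eval z (slc t b S P) = eval (slv t b S z) P := by
  unfold slc
  rw [eval_bind]
  congr 2
  funext i
  refine Fin.cases ?_ (fun l => ?_) i
  · show eval z (C t) = t
    rw [eval_C]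
  · show eval z (C (b l) + ∑ i, C (S l i) * X i) = b l + ∑ i, S l i * z i
    rw [map_add, eval_C, map_sum]
    congr 1
    refine Finset.sum_congr rfl fun j _ => ?_
    rw [map_mul, eval_C, eval_X]

theorem deg_slc (t : ℝ) (b : Fin n → ℝ) (S : Fin n → Fin k → ℝ)
    {P : MvPolynomial (Fin (n + 1)) ℝ} (hP : P.totalDegree ≤ K) :
    (slc t b S P).totalDegree ≤ K := by
  refine deg_bind (fun i => ?_) hP
  refine Fin.cases ?_ (fun l => ?_) i
  · show (C t : MvPolynomial (Fin k) ℝ).totalDegree ≤ 1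
    rw [totalDegree_C]
    exact zero_le_one
  · show (C (b l) + ∑ i, C (S l i) * X i : MvPolynomial (Fin k) ℝ).totalDegree ≤ 1
    refine (totalDegree_add _ _).trans (max_le ?_ ?_)
    · rw [totalDegree_C]
      exact zero_le_one
    · refine (totalDegree_finsetSum _ _).trans (Finset.sup_le fun j _ => ?_)
      refine (totalDegree_mul _ _).trans ?_
      rw [totalDegree_C, totalDegree_X]

theorem pd_slc (t : ℝ) (b : Fin n → ℝ) (S : Fin n → Fin k → ℝ)
    (P : MvPolynomial (Fin (n + 1)) ℝ) (i : Fin k) (z : Fin k → ℝ) :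
    eval z (pderiv i (slc t b S P)) =
      ∑ l, S l i * eval (slv t b S z) (pderiv l.succ P) := by
  classical
  unfold slc
  rw [pderiv_bind, Fin.sum_univ_succ]
  have h0 : pderiv i (slf t b S 0) = 0 := by
    show pderiv i (C t) = 0
    exact pderiv_C
  rw [h0, mul_zero, zero_add, map_sum]
  refine Finset.sum_congr rfl fun l _ => ?_
  have h1 : pderiv i (slf t b S l.succ) = C (S l i) := by
    show pderiv i (C (b l) + ∑ j, C (S l j) * X j) = _
    rw [map_add, pderiv_C, zero_add, map_sum, Finset.sum_eq_single i]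
    · rw [pderiv_C_mul, pderiv_X_self, mul_one]
    · intro j _ hj
      rw [pderiv_C_mul, pderiv_X_of_ne hj, mul_zero]
    · intro h
      exact absurd (Finset.mem_univ _) h
  rw [h1, map_mul, eval_C, mul_comm]
  congr 1
  exact eval_slc t b S (pderiv l.succ P) z

/-- The first coefficients of the array on the slice. -/
theorem one_slc {P : MvPolynomial (Fin (n + 1)) ℝ} (hP : P.totalDegree ≤ K) (hK : 1 ≤ K) (t : ℝ)
    (b : Fin n → ℝ) (S : Fin n → Fin k → ℝ) (y : Fin k → ℝ) (i : Fin k) :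
    shf y (arM K (slc t b S P)) (sg1 hK i) =
      ∑ l, S l i * eval (slv t b S y) (pderiv l.succ P) := by
  rw [← pd_slc]
  refine shf_one (deg_slc t b S hP) y _ i fun l => ?_
  unfold sg1
  split_ifs
  · rfl
  · rfl

/-- **The Taylor coefficients of order at least two on the slice**, from the derivatives. -/
theorem hi_le (n k K : ℕ) : ∃ C : ℝ, 1 ≤ C ∧ ∀ (P : MvPolynomial (Fin (n + 1)) ℝ),
    P.totalDegree ≤ K → ∀ (t : ℝ) (b : Fin n → ℝ) (S : Fin n → Fin k → ℝ) (y : Fin k → ℝ)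
    (ρ τ : ℝ) (σ G : Fin n → ℝ), 0 < ρ → 0 < τ → τ ≤ 1 → (∀ l i, |S l i| ≤ σ l) →
    (∀ l, σ l ≤ τ * ρ) → (∀ l, 0 ≤ σ l) → (∀ l, ∀ u, (∀ i, |u i - slv t b S y i| ≤ ρ) →
      |eval u (pderiv l.succ P)| ≤ G l) →
    ∀ α : Fin k → Fin (K + 1), 2 ≤ tdg α →
      |shf y (arM K (slc t b S P)) α| ≤ C * τ * ∑ l, σ l * G l := by
  classical
  obtain ⟨C₀, hC₀, hco⟩ := coef_le k K
  have hk1 : (1 : ℝ) ≤ (k : ℝ) + 1 := by
    have : (0 : ℝ) ≤ k := Nat.cast_nonneg k
    linarith
  refine ⟨C₀ * ((k : ℝ) + 1) ^ (k * K), one_le_mul_of_one_le_of_one_le hC₀ (one_le_pow₀ hk1), ?_⟩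
  intro P hP t b S y ρ τ σ G hρ hτ hτ1 hS hσ hσ0 hG α hα2
  obtain ⟨i, hi⟩ : ∃ i, 1 ≤ (α i : ℕ) := by
    by_contra hcon
    push Not at hcon
    have h1 : tdg α = 0 := Finset.sum_eq_zero fun i _ => by
      have := hcon i
      omega
    omega
  obtain ⟨q, hq⟩ : ∃ q, q = slc t b S P := ⟨_, rfl⟩
  have hqd : q.totalDegree ≤ K := by rw [hq]; exact deg_slc t b S hP
  obtain ⟨r, hr⟩ : ∃ r : ℝ, r = 1 / (((k : ℝ) + 1) * τ) := ⟨_, rfl⟩
  have hkτ : 0 < ((k : ℝ) + 1) * τ := by positivity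
  have hr0 : 0 < r := by rw [hr]; positivity
  have hG0 : ∀ l, 0 ≤ G l := fun l => (abs_nonneg _).trans (hG l _ fun i => by
    rw [sub_self, abs_zero]
    exact hρ.le)
  obtain ⟨Γ, hΓ⟩ : ∃ Γ : ℝ, Γ = ∑ l, σ l * G l := ⟨_, rfl⟩
  have hΓ0 : 0 ≤ Γ := by
    rw [hΓ]
    exact Finset.sum_nonneg fun l _ => mul_nonneg (hσ0 l) (hG0 l)
  -- the derivative of the slice near `y`
  have h1 : ∀ x : Fin k → ℝ, (∀ j, 0 ≤ x j ∧ x j ≤ r) →
      |ev (arM K (sh y (pderiv i q))) x| ≤ Γ := by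
    intro x hx
    rw [ev_arM (deg_sh y (deg_pd i hqd)), eval_sh, hq, pd_slc]
    refine (Finset.abs_sum_le_sum_abs _ _).trans ?_
    rw [hΓ]
    refine Finset.sum_le_sum fun l _ => ?_
    rw [abs_mul]
    refine mul_le_mul (hS l i) (hG l _ ?_) (abs_nonneg _) (hσ0 l)
    intro j
    refine Fin.cases ?_ (fun j => ?_) j
    · rw [slv_zero, slv_zero, sub_self, abs_zero]
      exact hρ.le
    · rw [slv_succ, slv_succ]
      have e1 : b j + ∑ i, S j i * (y i + x i) - (b j + ∑ i, S j i * y i) =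
          ∑ i, S j i * x i := by
        have e2 : ∑ i, S j i * (y i + x i) = ∑ i, S j i * y i + ∑ i, S j i * x i := by
          rw [← Finset.sum_add_distrib]
          exact Finset.sum_congr rfl fun _ _ => by ring
        rw [e2]
        ring
      rw [e1]
      refine (Finset.abs_sum_le_sum_abs _ _).trans ?_
      have e3 : ∀ i ∈ (Finset.univ : Finset (Fin k)), |S j i * x i| ≤ (τ * ρ) * r := by
        intro i _
        rw [abs_mul, abs_of_nonneg (hx i).1]
        exact mul_le_mul ((hS j i).trans (hσ j)) (hx i).2 (hx i).1 (by positivity)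
      refine (Finset.sum_le_sum e3).trans ?_
      rw [Finset.sum_const, Finset.card_univ, Fintype.card_fin, nsmul_eq_mul, hr]
      have e4 : (k : ℝ) * (τ * ρ * (1 / (((k : ℝ) + 1) * τ))) = ρ * (k / (k + 1)) := by
        field_simp
      rw [e4]
      refine mul_le_of_le_one_right hρ.le ?_
      rw [div_le_one (by positivity)]
      linarith
  have h2 := hco _ r Γ hr0 h1
  -- the smaller exponent
  obtain ⟨β, hβ⟩ : ∃ β : Fin k → Fin (K + 1), ∀ l, (β l : ℕ) = if l = i then (α i : ℕ) - 1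
      else (α l : ℕ) := by
    refine ⟨fun l => ⟨if l = i then (α i : ℕ) - 1 else (α l : ℕ), ?_⟩, fun l => rfl⟩
    have h2 := (α l).2
    have h3 := (α i).2
    split_ifs <;> omega
  have htd : tdg β + 1 = tdg α := by
    unfold tdg
    rw [← Finset.add_sum_erase _ _ (Finset.mem_univ i),
      ← Finset.add_sum_erase (Finset.univ : Finset (Fin k)) (fun i => (α i : ℕ))
        (Finset.mem_univ i), hβ i, if_pos rfl]
    have h3 : ∑ l ∈ Finset.univ.erase i, (β l : ℕ) = ∑ l ∈ Finset.univ.erase i, (α l : ℕ) :=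
      Finset.sum_congr rfl fun l hl => by rw [hβ l, if_neg (Finset.ne_of_mem_erase hl)]
    rw [h3]
    omega
  have h3 : arM K (sh y (pderiv i q)) β = shf y (arM K q) α * (α i : ℕ) := by
    rw [shf_arM hqd]
    show coeff (fsp β) (sh y (pderiv i q)) = coeff (fsp α) (sh y q) * (α i : ℕ)
    rw [← pd_sh]
    exact coef_pd i hβ hi
  have h4 := h2 β
  rw [h3, abs_mul, Nat.abs_cast] at h4
  have h5 : (1 : ℝ) ≤ ((α i : ℕ) : ℝ) := by exact_mod_cast hi
  have h6 : |shf y (arM K q) α| * r ^ tdg β ≤ C₀ * Γ := by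
    refine le_trans ?_ h4
    exact mul_le_mul_of_nonneg_right (le_mul_of_one_le_right (abs_nonneg _) h5) (by positivity)
  rw [hr, one_div, inv_pow, ← div_eq_mul_inv, div_le_iff₀ (by positivity), mul_pow] at h6
  rw [← hq]
  have h7 : ((k : ℝ) + 1) ^ tdg β ≤ ((k : ℝ) + 1) ^ (k * K) :=
    pow_le_pow_right₀ hk1 (Pool.JMN.tdg_le β)
  have h8 : τ ^ tdg β ≤ τ := by
    have h9 : τ ^ tdg β ≤ τ ^ 1 := pow_le_pow_of_le_one hτ.le hτ1 (by omega)
    rwa [pow_one] at h9
  calc |shf y (arM K q) α| ≤ C₀ * Γ * (((k : ℝ) + 1) ^ tdg β * τ ^ tdg β) := h6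
    _ ≤ C₀ * Γ * (((k : ℝ) + 1) ^ (k * K) * τ) :=
        mul_le_mul_of_nonneg_left (mul_le_mul h7 h8 (by positivity) (by positivity))
          (by positivity)
    _ = _ := by rw [hΓ]; ring

/-- The array on the slice is Lipschitz. -/
theorem lip_slc {P : MvPolynomial (Fin (n + 1)) ℝ} (hP : P.totalDegree ≤ K) {t : ℝ}
    {b : Fin n → ℝ} {S : Fin n → Fin k → ℝ} {y : Fin k → ℝ} {ρ : ℝ} {G : Fin n → ℝ}
    (hy : ∀ i, 0 ≤ y i ∧ y i ≤ 1) (hσ : ∀ l, ∑ i, |S l i| * 3 ≤ ρ) (hρ : 0 ≤ ρ)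
    (hG : ∀ l, ∀ u, (∀ i, |u i - slv t b S y i| ≤ ρ) → |eval u (pderiv l.succ P)| ≤ G l)
    {z z' : Fin k → ℝ} (hz : ∀ i, |z i| ≤ 2) (hz' : ∀ i, |z' i| ≤ 2) :
    |ev (arM K (slc t b S P)) z - ev (arM K (slc t b S P)) z'| ≤
      ∑ i, |z i - z' i| * ∑ l, |S l i| * G l := by
  rw [ev_arM (deg_slc t b S hP), ev_arM (deg_slc t b S hP)]
  have h1 := Pool.EXS.mv_seg (slc t b S P) (fun i => ∑ l, |S l i| * G l) (u := z') (u' := z) (by
    intro s hs i
    rw [pd_slc]
    refine (Finset.abs_sum_le_sum_abs _ _).trans (Finset.sum_le_sum fun l _ => ?_)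
    rw [abs_mul]
    refine mul_le_mul_of_nonneg_left (hG l _ ?_) (abs_nonneg _)
    intro j
    refine Fin.cases ?_ (fun j => ?_) j
    · rw [slv_zero, slv_zero, sub_self, abs_zero]
      exact hρ
    · rw [slv_succ, slv_succ]
      obtain ⟨w, hw⟩ : ∃ w : Fin k → ℝ, w = fun i => z' i + s * (z i - z' i) := ⟨_, rfl⟩
      have hw3 : ∀ i, |w i - y i| ≤ 3 := by
        intro i
        rw [hw]
        have h2 := abs_le.1 (hz i)
        have h3 := abs_le.1 (hz' i)
        obtain ⟨hs0, hs1⟩ := hs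
        obtain ⟨hy0, hy1⟩ := hy i
        have e1 : z' i + s * (z i - z' i) - y i = (1 - s) * z' i + s * z i - y i := by ring
        have e2 : (1 - s) * z' i ≤ (1 - s) * 2 := mul_le_mul_of_nonneg_left h3.2 (by linarith)
        have e3 : (1 - s) * (-2) ≤ (1 - s) * z' i := mul_le_mul_of_nonneg_left h3.1 (by linarith)
        have e4 : s * z i ≤ s * 2 := mul_le_mul_of_nonneg_left h2.2 hs0
        have e5 : s * (-2) ≤ s * z i := mul_le_mul_of_nonneg_left h2.1 hs0
        show |z' i + s * (z i - z' i) - y i| ≤ 3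
        rw [e1, abs_le]
        constructor <;> linarith
      have e1 : b j + ∑ i, S j i * w i - (b j + ∑ i, S j i * y i) =
          ∑ i, S j i * (w i - y i) := by
        have e2 : ∑ i, S j i * (w i - y i) = ∑ i, S j i * w i - ∑ i, S j i * y i := by
          rw [← Finset.sum_sub_distrib]
          exact Finset.sum_congr rfl fun _ _ => by ring
        rw [e2]
        ring
      have e0 : ∀ i, z' i + s * (z i - z' i) = w i := fun i => by rw [hw]
      simp only [e0]
      rw [e1]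
      refine (Finset.abs_sum_le_sum_abs _ _).trans (le_trans (Finset.sum_le_sum fun i _ => ?_)
        (hσ j))
      rw [abs_mul]
      exact mul_le_mul_of_nonneg_left (hw3 i) (abs_nonneg _))
  refine h1.trans (le_of_eq (Finset.sum_congr rfl fun i _ => mul_comm _ _))

end Pool.TUB
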