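import Pool.Agent.H15.GEO.Own

/-!
# H15/GEO/Fin: the fields of the arrays, with the numbers

`fmA`: the family of polynomials which must be nearly constant. `fin_aok`: `loc_aok` in the slanted
cells, with the numbers.
-/

set_option autoImplicit false

namespace Pool.TUB

open Finset MvPolynomial
open Pool.Agent.H49.Ent Pool.Agent.H32.Dense Pool.STK Pool.KA Pool.KSAT Pool.K2S Pool.PB
  Pool.STAT Pool.STAT.CLO Pool.GEN Pool.M3F Pool.KAF Pool.KAL Pool.KS3 Pool.KJA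
open Pool.GEO (gsy gsy_zero gsy_succ gsy_tri gsy_deg)
open Pool.PM (lev nx nt lfv PLab)
open Pool.JMN (ev shf tdg)
open Pool.SPN (sg1)
open Pool.JPN (ntc ce yc)

theorem wdS_succ (W₀ : ℕ) (g : ℕ → ℕ) (L : ℕ) (l : Fin 3) :
    wdS W₀ g L l.succ = if l = 2 then g 2 + L else g l := by
  unfold wdS
  have h1 : l = 0 ∨ l = 1 ∨ l = 2 := by
    fin_cases l
    · exact Or.inl rfl
    · exact Or.inr (Or.inl rfl)
    · exact Or.inr (Or.inr rfl)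
  rcases h1 with rfl | rfl | rfl
  · rfl
  · rfl
  · rfl

/-- The widths of the cell of depth `d` in the units of the slanted cells of depth `q`. -/
theorem snu_eq {W W₀ Pr L q d : ℕ} {g : ℕ → ℕ} (hWP : W ≤ Pr) (l : Fin 3)
    (h : wdS W₀ g L l.succ + q ≤ Pr) : snu W (2 ^ (Pr - W)) (nwS Pr W₀ g L q) g d l =
      (if l = 2 then 2 ^ (L + q) else 2 ^ q) / 2 ^ d := by
  unfold snu nwS
  rw [wdS_succ] at h ⊢
  have e1 : (2 : ℝ) ^ (Pr - W) * 2 ^ W = 2 ^ Pr := by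
    rw [← pow_add]
    congr 1
    omega
  have p2 : (0 : ℝ) < 2 ^ W := by positivity
  push_cast
  split_ifs with h2
  · subst h2
    rw [if_pos rfl] at h
    have e2 : (2 : ℝ) ^ (Pr - (g 2 + L + q)) * 2 ^ (g 2 + L + q) = 2 ^ Pr := by
      rw [← pow_add]
      congr 1
      omega
    have e3 : (2 : ℝ) ^ W * (1 / 2 ^ (g 2 + d)) * (2 ^ (Pr - W) / 2 ^ (Pr - (g 2 + L + q))) =
        (2 ^ (Pr - W) * 2 ^ W) / (2 ^ (g 2 + d) * 2 ^ (Pr - (g 2 + L + q))) := by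
      field_simp
    show (2 : ℝ) ^ W * (1 / 2 ^ (g 2 + d)) * (2 ^ (Pr - W) / 2 ^ (Pr - (g 2 + L + q))) = _
    rw [e3, e1, ← e2]
    rw [pow_add 2 (g 2) d, pow_add 2 (g 2 + L) q, pow_add 2 (g 2) L, pow_add 2 L q]
    field_simp
  · rw [if_neg h2] at h
    have e2 : (2 : ℝ) ^ (Pr - (g l + q)) * 2 ^ (g l + q) = 2 ^ Pr := by
      rw [← pow_add]
      congr 1
      omega
    have e3 : (2 : ℝ) ^ W * (1 / 2 ^ (g l + d)) * (2 ^ (Pr - W) / 2 ^ (Pr - (g l + q))) =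
        (2 ^ (Pr - W) * 2 ^ W) / (2 ^ (g l + d) * 2 ^ (Pr - (g l + q))) := by
      field_simp
    rw [e3, e1, ← e2]
    rw [pow_add 2 (g l) d, pow_add 2 (g l) q]
    field_simp

section fam

variable {m J : ℕ} {F : Fam m J}

/-- The chart of the height in the slanted cell `b` of the label `γ`. -/
noncomputable def pcS (l : PLab F) (W W₀ Pr sg L q : ℕ) (lv : l.V₁ → l.V₀ → Fin 4 → ℝ)
    (γ : l.V₁ × (l.V₀ × ℕ)) (b : Fin 4 → ℤ) : MvPolynomial (Fin 4) ℝ :=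
  plC W sg (2 ^ (Pr - W)) (nwS Pr W₀ l.g L q) (sG l W W₀ lv γ) b (l.P γ.2.1 4)

/-- The sheet of the height in the slanted cell `b` of the label `γ`. -/
noncomputable def paS (l : PLab F) (W W₀ Pr sg L q d : ℕ) (ln : l.V₁ → l.V₀ → Fin 4 → ℝ)
    (γ : l.V₁ × (l.V₀ × ℕ)) (b : Fin 4 → ℤ) : MvPolynomial (Fin 4) ℝ :=
  plA (1 / 2 ^ (sg + l.g 3)) (ln γ.1 γ.2.1)
    ![2 ^ W₀ / 2 ^ W * ((nwS Pr W₀ l.g L q 0 : ℝ) / ((2 ^ (Pr - W) : ℕ) : ℝ)),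
      1 / (snu W (2 ^ (Pr - W)) (nwS Pr W₀ l.g L q) l.g d 0 * 2 ^ d),
      1 / (snu W (2 ^ (Pr - W)) (nwS Pr W₀ l.g L q) l.g d 1 * 2 ^ d)]
    ![2 ^ W₀ / 2 ^ W * ((nwS Pr W₀ l.g L q 0 : ℝ) / ((2 ^ (Pr - W) : ℕ) : ℝ)) * b 0 - γ.2.2,
      1 / (snu W (2 ^ (Pr - W)) (nwS Pr W₀ l.g L q) l.g d 0 * 2 ^ d) * b 1,
      1 / (snu W (2 ^ (Pr - W)) (nwS Pr W₀ l.g L q) l.g d 1 * 2 ^ d) * b 2]

/-- The polynomials which must be nearly constant. -/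
noncomputable def fmA (l : PLab F) (W W₀ Pr sg L q d : ℕ) (lv ln : l.V₁ → l.V₀ → Fin 4 → ℝ)
    (p : MvPolynomial (Fin 4) ℝ) (γ : l.V₁ × (l.V₀ × ℕ)) (b : Fin 4 → ℤ) :
    Fin 2 ⊕ (Fin 2 × Fin 3) → MvPolynomial (Fin 4) ℝ
  | Sum.inl 0 => p - pcS l W W₀ Pr sg L q lv γ b
  | Sum.inl 1 => p - pcS l W W₀ Pr sg L q lv γ b - paS l W W₀ Pr sg L q d ln γ b
  | Sum.inr (0, i) => pderiv i.succ (p - pcS l W W₀ Pr sg L q lv γ b)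
  | Sum.inr (1, i) => pderiv i.succ p

theorem deg_sG {l : PLab F} (hdeg : ∀ v i, (l.P v i).totalDegree ≤ 1) (W W₀ : ℕ)
    (lv : l.V₁ → l.V₀ → Fin 4 → ℝ) (γ : l.V₁ × (l.V₀ × ℕ)) (i : Fin 4) :
    (sG l W W₀ lv γ i).totalDegree ≤ 1 :=
  gsy_deg (sls_deg (hdeg _) l.g W₀ _ _) i

theorem tri_sG {l : PLab F} (htri : ∀ v, TriN (l.P v)) (W W₀ : ℕ)
    (lv : l.V₁ → l.V₀ → Fin 4 → ℝ) (γ : l.V₁ × (l.V₀ × ℕ)) : TriP (sG l W W₀ lv γ) :=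
  gsy_tri (sls_tri (htri _) l.g W₀ _ _)

theorem deg_fmA {l : PLab F} (hdeg : ∀ v i, (l.P v i).totalDegree ≤ 1) {K : ℕ} (hK : 1 ≤ K)
    (W W₀ Pr sg L q d : ℕ) (lv ln : l.V₁ → l.V₀ → Fin 4 → ℝ) {p : MvPolynomial (Fin 4) ℝ}
    (hp : p.totalDegree ≤ K) (γ : l.V₁ × (l.V₀ × ℕ)) (b : Fin 4 → ℤ)
    (j : Fin 2 ⊕ (Fin 2 × Fin 3)) :
    (fmA l W W₀ Pr sg L q d lv ln p γ b j).totalDegree ≤ K := by
  have h1 : (pcS l W W₀ Pr sg L q lv γ b).totalDegree ≤ K :=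
    (deg_plC (fun i => deg_sG hdeg W W₀ lv γ i) (hdeg _ _)).trans hK
  have h2 : (paS l W W₀ Pr sg L q d ln γ b).totalDegree ≤ K := (deg_plA _ _ _ _).trans hK
  have h3 : ∀ {q : MvPolynomial (Fin 4) ℝ}, q.totalDegree ≤ K → ∀ i : Fin 4,
      (pderiv i q).totalDegree ≤ K := fun {q} hq i =>
    (Pool.EXS.tdeg_pd _ _).trans ((Nat.sub_le _ _).trans hq)
  rcases j with j | ⟨j, i⟩
  · have hj : j = 0 ∨ j = 1 := by
      fin_cases j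
      · exact Or.inl rfl
      · exact Or.inr rfl
    rcases hj with rfl | rfl
    · exact deg_sub1 hp h1
    · exact deg_sub1 (deg_sub1 hp h1) h2
  · have hj : j = 0 ∨ j = 1 := by
      fin_cases j
      · exact Or.inl rfl
      · exact Or.inr rfl
    rcases hj with rfl | rfl
    · exact h3 (deg_sub1 hp h1) _
    · exact h3 hp _

end fam

/-- **The fields of the array, with the numbers.** -/
theorem fin_aok (K : ℕ) (hK : 1 ≤ K) : ∃ C : ℝ, 1 ≤ C ∧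
    ∀ {m J : ℕ} {F : Fam m J} (l : PLab F) (c : ℕ → Fin m)
      (W W₀ Pr sg L q ls h₀ Xg tt d Ln : ℕ) (lv ln : l.V₁ → l.V₀ → Fin 4 → ℝ)
      (γ : l.V₁ × (l.V₀ × ℕ)) (b : Fin 4 → ℤ) (ω : F.Ω) (p : MvPolynomial (Fin 4) ℝ) (μ : ℝ),
      γ.2 = (l.z₀ (ptr F J ω), F.T1 W₀ ω) → (∀ v, TriN (l.P v)) →
      (∀ v i, (l.P v i).totalDegree ≤ 1) → W ≤ Pr → Pr ≤ J →
      (∀ i, wdS W₀ l.g L i + q ≤ Pr) → l.g 3 ≤ J → (∀ i < 2, l.g i ≤ l.g 2 + tt) →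
      L + q + h₀ + ls + 3 ≤ d → p.totalDegree ≤ K → (∀ i, |lv γ.1 γ.2.1 i| ≤ 2 ^ h₀) →
      (∀ j, Nb (2 / 2 ^ ls) (poS l c W W₀ Pr L q lv γ b ω)
        (fmA l W W₀ Pr sg L q d lv ln p γ b j)) →
      (∀ i : Fin 3, 3 * |eval (poS l c W W₀ Pr L q lv γ b ω) (pderiv i.succ p)| ≤
        2 ^ Xg * ((nwS Pr W₀ l.g L q i.succ : ℝ) / 2 ^ (Pr - W)) / 2 ^ W) →
      |px c (ptr F J ω) 4 / 2 ^ sg - eval (poS l c W W₀ Pr L q lv γ b ω) p| ≤ 2 ^ Xg / 2 ^ Pr →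
      |ntc F c l.P l.z₀ ω 3| ≤ 1 / 2 ^ l.g 3 →
      |nx F c l.P l.z₀ l.g ω 3 - lfv F c l.P l.z₀ l.g W₀ (ln γ.1 γ.2.1) ω| ≤
        1 / 2 ^ Ln + μ / 2 ^ L →
      AOK hK l.g d (arM K (slc
          ((2 ^ W * ((F.T ω : ℝ) / 2 ^ J)) * (((2 ^ (Pr - W) : ℕ) : ℝ) /
            (nwS Pr W₀ l.g L q 0 : ℝ)) - b 0)
          (sB (snu W (2 ^ (Pr - W)) (nwS Pr W₀ l.g L q) l.g d) (lv γ.1 γ.2.1) d (nt F W₀ ω)
            (ce 3 F c l.P l.z₀ l.g d ω) b)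
          (sS (snu W (2 ^ (Pr - W)) (nwS Pr W₀ l.g L q) l.g d) (lv γ.1 γ.2.1)) p))
        (yc 3 F c l.P l.z₀ l.g d ω)
        (fun i => 1 / 2 ^ sg * chg J W (l.P (l.z₀ (ptr F J ω))) l.g d
          (l.P (l.z₀ (ptr F J ω)) 4) i)
        (lv γ.1 γ.2.1) (ln γ.1 γ.2.1) (F.x ω (c 3) / 2 ^ sg) (1 / 2 ^ (sg + l.g 3 + d))
        (C * 2 ^ (h₀ + L + q + ls) * (1 + 2 ^ (Xg + sg + l.g 3) / 2 ^ Pr))
        (C * 2 ^ (L + q + 3 * h₀ + ls) / 2 ^ d)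
        (C * 2 ^ (q + ls) * (1 / 2 ^ Ln + 2 ^ l.g 3 / 2 ^ J + 2 ^ (Xg + sg + l.g 3) / 2 ^ Pr) +
          C * 2 ^ (q + ls) / 2 ^ L * μ)
        (2 ^ Xg * (1 + 2 ^ h₀ * 2 ^ tt)) (2 ^ (Xg + 1) / 2 ^ Pr) := by
  obtain ⟨C, hC, h0⟩ := loc_aok K hK
  refine ⟨C, hC, ?_⟩
  intro m J F l c W W₀ Pr sg L q ls h₀ Xg tt d Ln lv ln γ b ω p μ hγ htri hdeg hWP hPJ hwd hgJ hg2
    hd hp hlv hnb hgr hval hpos hdev
  obtain ⟨κ, v₀, T₁⟩ := γ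
  simp only [Prod.mk.injEq] at hγ
  obtain ⟨rfl, rfl⟩ := hγ
  dsimp only at hlv hdev ⊢
  obtain ⟨ν, hν⟩ : ∃ ν, ν = snu W (2 ^ (Pr - W)) (nwS Pr W₀ l.g L q) l.g d := ⟨_, rfl⟩
  have hνe : ∀ i, ν i = (if i = 2 then 2 ^ (L + q) else 2 ^ q) / 2 ^ d := fun i => by
    rw [hν]
    exact snu_eq hWP i (hwd _)
  have hC0 : 0 < C := by linarith
  have pd : (0 : ℝ) < 2 ^ d := by positivity
  have h1L : (1 : ℝ) ≤ 2 ^ L := one_le_pow₀ (by norm_num)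
  have hνX : ∀ i, ν i ≤ 2 ^ (L + q) / 2 ^ d := by
    intro i
    rw [hνe]
    refine div_le_div_of_nonneg_right ?_ pd.le
    split_ifs
    · exact le_rfl
    · exact pow_le_pow_right₀ (by norm_num) (by omega)
  have hν0 : ∀ i, 0 < ν i := fun i => by
    rw [hνe]
    split_ifs <;> positivity
  have hM0 : (0 : ℝ) < ((2 ^ (Pr - W) : ℕ) : ℝ) := by positivity
  have hN0 : ∀ i, (0 : ℝ) < (nwS Pr W₀ l.g L q i : ℝ) := fun i => by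
    exact_mod_cast nwS_pos Pr W₀ l.g L q i
  obtain ⟨v, hv⟩ : ∃ v, v = poS l c W W₀ Pr L q lv (κ, (l.z₀ (ptr F J ω), F.T1 W₀ ω)) b ω :=
    ⟨_, rfl⟩
  rw [← hv] at hnb hgr hval
  have hτ0 : (0 : ℝ) < 2 ^ (L + q + h₀ + ls) / 2 ^ d := by positivity
  have hτle : (2 : ℝ) ^ (L + q + h₀ + ls) / 2 ^ d ≤ 1 / 8 := by
    rw [div_le_div_iff₀ pd (by norm_num)]
    have e1 : (2 : ℝ) ^ (L + q + h₀ + ls) * 8 = 2 ^ (L + q + h₀ + ls + 3) := by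
      rw [pow_add _ (L + q + h₀ + ls) 3]
      norm_num
    rw [e1, one_mul]
    exact pow_le_pow_right₀ (by norm_num) hd
  have key := h0 c W W₀ (2 ^ (Pr - W)) sg d l.P l.z₀ l.g (nwS Pr W₀ l.g L q) b
    (lv κ (l.z₀ (ptr F J ω))) (ln κ (l.z₀ (ptr F J ω))) ω p
    (fun i => 2 ^ Xg * ((nwS Pr W₀ l.g L q i.succ : ℝ) / 2 ^ (Pr - W)) / 2 ^ W)
    (2 / 2 ^ ls) (2 ^ (L + q + h₀ + ls) / 2 ^ d) (2 ^ h₀) (2 ^ (L + q) / 2 ^ d) (2 ^ q / 2 ^ d)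
    (2 ^ (Xg + 1) / 2 ^ Pr) (1 / 2 ^ Ln + μ / 2 ^ L)
    (C * 2 ^ (h₀ + L + q + ls) * (1 + 2 ^ (Xg + sg + l.g 3) / 2 ^ Pr))
    (C * 2 ^ (L + q + 3 * h₀ + ls) / 2 ^ d)
    (C * 2 ^ (q + ls) * (1 / 2 ^ Ln + 2 ^ l.g 3 / 2 ^ J + 2 ^ (Xg + sg + l.g 3) / 2 ^ Pr) +
          C * 2 ^ (q + ls) / 2 ^ L * μ)
    (2 ^ Xg * (1 + 2 ^ h₀ * 2 ^ tt)) (sG l W W₀ lv (κ, (l.z₀ (ptr F J ω), F.T1 W₀ ω))) ν v rfl hν
    hv Nat.one_le_two_pow (nwS_pos Pr W₀ l.g L q) htri hdeg hp (by positivity) hτ0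
    (hτle.trans (by norm_num)) (one_le_pow₀ (by norm_num)) hlv ?_ ?_ hνX ?_ (hnb (Sum.inl 0))
    (fun i => hnb (Sum.inr (0, i))) ?_ ?_ ?_ hpos hgJ hdev ?_ ?_ ?_ ?_
  · rw [← hν]
    exact key
  · -- ν H ≤ τ ρ
    intro i
    have e1 : (2 : ℝ) ^ (L + q) / 2 ^ d * 2 ^ h₀ ≤ 2 ^ (L + q + h₀ + ls) / 2 ^ d * (2 / 2 ^ ls) := by
      have e2 : (2 : ℝ) ^ (L + q + h₀ + ls) / 2 ^ d * (2 / 2 ^ ls) =
          2 * (2 ^ (L + q) / 2 ^ d * 2 ^ h₀) := by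
        rw [pow_add 2 (L + q + h₀) ls, pow_add 2 (L + q) h₀]
        field_simp
      rw [e2]
      have : (0 : ℝ) ≤ 2 ^ (L + q) / 2 ^ d * 2 ^ h₀ := by positivity
      linarith
    exact (mul_le_mul_of_nonneg_right (hνX i) (by positivity)).trans e1
  · intro i
    have e1 : 9 * ((2 : ℝ) ^ (L + q) / 2 ^ d * 2 ^ h₀) ≤ 2 / 2 ^ ls := by
      have e2 : (2 : ℝ) ^ (L + q) / 2 ^ d * 2 ^ h₀ = 2 ^ (L + q + h₀ + ls) / 2 ^ d / 2 ^ ls := by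
        rw [pow_add 2 (L + q + h₀) ls, pow_add 2 (L + q) h₀]
        field_simp
      rw [e2, ← mul_div_assoc]
      refine div_le_div_of_nonneg_right ?_ (by positivity)
      linarith
    refine le_trans (mul_le_mul_of_nonneg_left (mul_le_mul_of_nonneg_right (hνX i)
      (by positivity)) (by norm_num)) e1
  · intro i
    rw [hνe, if_neg (by
      intro h
      have := congrArg Fin.val h
      have h2 := i.2
      simp at this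
      omega)]
  · have h1 := hnb (Sum.inl 1)
    unfold fmA pcS paS at h1
    rw [← hν] at h1
    exact h1
  · intro i v' hv'
    have h1 := hnb (Sum.inr (1, i)) v' hv'
    exact h1.trans (hgr i)
  · -- the value
    have e1 := x_px c ω 3
    have psg : (0 : ℝ) < 2 ^ sg := by positivity
    have e2 : F.x ω (c 3) / 2 ^ sg - eval v p = (F.x ω (c 3) - px c (ptr F J ω) 4) / 2 ^ sg +
        (px c (ptr F J ω) 4 / 2 ^ sg - eval v p) := by ring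
    rw [e2]
    refine (abs_add_le _ _).trans ?_
    have e3 : |(F.x ω (c 3) - px c (ptr F J ω) 4) / 2 ^ sg| ≤ 2 ^ Xg / 2 ^ Pr := by
      rw [abs_div, abs_of_pos psg, div_le_div_iff₀ psg (by positivity)]
      have e4 : (1 : ℝ) ≤ 2 ^ sg := one_le_pow₀ (by norm_num)
      have e5 : (1 : ℝ) ≤ 2 ^ Xg := one_le_pow₀ (by norm_num)
      have e6 : (2 : ℝ) ^ Pr ≤ 2 ^ J := pow_le_pow_right₀ (by norm_num) hPJ
      have e7 : |F.x ω (c 3) - px c (ptr F J ω) 4| * 2 ^ Pr ≤ 1 := by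
        have e8 : |F.x ω (c 3) - px c (ptr F J ω) (3 + 1)| * 2 ^ Pr ≤ 1 / 2 ^ J * 2 ^ J :=
          mul_le_mul e1 e6 (by positivity) (by positivity)
        have e9 : (1 : ℝ) / 2 ^ J * 2 ^ J = 1 := by
          field_simp
        rw [e9] at e8
        exact e8
      refine e7.trans ?_
      exact one_le_mul_of_one_le_of_one_le e5 e4
    have e4 : (2 : ℝ) ^ (Xg + 1) / 2 ^ Pr = 2 ^ Xg / 2 ^ Pr + 2 ^ Xg / 2 ^ Pr := by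
      rw [pow_succ]
      ring
    rw [e4]
    exact add_le_add e3 hval
  · -- Gg
    intro i
    have e1 : ∀ i, ν i * (2 ^ Xg * ((nwS Pr W₀ l.g L q i.succ : ℝ) / 2 ^ (Pr - W)) / 2 ^ W) =
        2 ^ Xg / 2 ^ (l.g i + d) := by
      intro i
      rw [hν]
      unfold snu
      have h1 := hN0 i.succ
      have pW : (0 : ℝ) < 2 ^ W := by positivity
      push_cast
      field_simp
    have e2 : ν 2 * (2 ^ Xg * ((nwS Pr W₀ l.g L q (Fin.succ 2) : ℝ) / 2 ^ (Pr - W)) / 2 ^ W) =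
        2 ^ Xg / 2 ^ (l.g 2 + d) := e1 2
    rw [e1, e2]
    have e3 : (1 : ℝ) / 2 ^ (l.g 2 + d) ≤ 2 ^ tt / 2 ^ (l.g i + d) := by
      rw [div_le_div_iff₀ (by positivity) (by positivity), one_mul, ← pow_add]
      refine pow_le_pow_right₀ (by norm_num) ?_
      have h1 : (i : ℕ) = 2 ∨ (i : ℕ) < 2 := by
        have := i.2
        omega
      rcases h1 with h1 | h1
      · rw [h1]
        omega
      · have := hg2 i h1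
        omega
    have e4 : (2 : ℝ) ^ h₀ * (2 ^ Xg / 2 ^ (l.g 2 + d)) ≤
        2 ^ h₀ * (2 ^ Xg * (2 ^ tt / 2 ^ (l.g i + d))) := by
      refine mul_le_mul_of_nonneg_left ?_ (by positivity)
      rw [div_eq_mul_one_div]
      exact mul_le_mul_of_nonneg_left e3 (by positivity)
    calc (2 : ℝ) ^ Xg / 2 ^ (l.g i + d) + 2 ^ h₀ * (2 ^ Xg / 2 ^ (l.g 2 + d)) ≤
        2 ^ Xg / 2 ^ (l.g i + d) + 2 ^ h₀ * (2 ^ Xg * (2 ^ tt / 2 ^ (l.g i + d))) := by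
          linarith
      _ = 2 ^ Xg * (1 + 2 ^ h₀ * 2 ^ tt) / 2 ^ (l.g i + d) := by ring
  · -- U
    refine le_of_eq ?_
    have e1 : (2 : ℝ) ^ (Xg + 1) / 2 ^ Pr = 2 / 2 ^ (sg + l.g 3) *
        (2 ^ (Xg + sg + l.g 3) / 2 ^ Pr) := by
      rw [pow_succ, pow_add 2 (Xg + sg) (l.g 3), pow_add 2 Xg sg, pow_add 2 sg (l.g 3)]
      field_simp
    rw [e1, pow_add 2 (sg + l.g 3) d, pow_add 2 (h₀ + L + q) ls, pow_add 2 (h₀ + L) q,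
      pow_add 2 h₀ L, pow_add 2 L q]
    field_simp
  · refine le_of_eq ?_
    rw [pow_add 2 (L + q + h₀) ls, pow_add 2 (L + q) h₀, pow_add 2 (L + q + 3 * h₀) ls,
      pow_add 2 (L + q) (3 * h₀), pow_mul' 2 3 h₀]
    ring
  · refine le_of_eq ?_
    have e1 : (2 : ℝ) ^ (Xg + 1) / 2 ^ Pr = 2 / 2 ^ (sg + l.g 3) *
        (2 ^ (Xg + sg + l.g 3) / 2 ^ Pr) := by
      rw [pow_succ, pow_add 2 (Xg + sg) (l.g 3), pow_add 2 Xg sg, pow_add 2 sg (l.g 3)]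
      field_simp
    rw [e1, pow_add 2 (sg + l.g 3) d, pow_add 2 q ls]
    field_simp
    ring

end Pool.TUB
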