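import Pool.Agent.H53.JM.Tilt
import Pool.Agent.H86.IE.Lnw

/-!
# H15/GEO/Lwq: conditioning a law on a large event

`q_cond`: the conditional law on an event of mass at least one half; `pe_and`: the mass of the bad
part of the event.
-/

set_option autoImplicit false

namespace Pool.TUB

open Finset Real
open Pool.Agent.H49.Ent Pool.Agent.H32.Dense Pool.KAF Pool.K2S Pool.STK Pool.KAL
open Pool.IEN (ms ms_eq)

variable {V : Type} [Fintype V] {p : V → ℝ}

theorem ms_Pe (p : V → ℝ) (A : V → Prop) : ms p A = Pe p A := by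
  classical
  rw [Pe_eq, ms_eq p A fun v => Classical.propDecidable _]

/-- **The conditional law.** -/
theorem q_cond (hp : IsLaw p) {A : V → Prop} (hA : 1 / 2 ≤ Pe p A) :
    IsLaw (Pool.Agent.H49.Ent.cond p A True) ∧
    (∀ e, Pool.Agent.H49.Ent.cond p A True e ≤ 2 * p e) ∧
    (∀ e, 0 < Pool.Agent.H49.Ent.cond p A True e → A e) ∧
    ∀ B : V → Prop, Pe p (fun e => A e ∧ B e) ≤ ms (Pool.Agent.H49.Ent.cond p A True) B := by
  classical
  have hA0 : 0 < Pe p A := lt_of_lt_of_le (by norm_num) hA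
  refine ⟨isLaw_cond hp hA0, fun e => ?_, fun e he => ?_, fun B => ?_⟩
  · rw [Pool.JPR.cond_ev]
    have h0 := hp.nonneg e
    split_ifs
    · rw [div_le_iff₀ hA0]
      nlinarith
    · linarith
  · rw [Pool.JPR.cond_ev] at he
    by_contra h
    rw [if_neg h] at he
    exact lt_irrefl _ he
  · rw [ms_Pe, Pool.JPR.Pe_cnd, le_div_iff₀ hA0]
    have h1 : Pe p A ≤ 1 := by
      have h2 := Pe_mono hp (A := fun _ => True) (B := A) (fun _ _ => trivial)
      rwa [Pe_univ hp] at h2
    have h3 := Pe_nonneg hp (fun e => A e ∧ B e)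
    nlinarith

end Pool.TUB
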