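import Pool.Agent.H3.PM.Arf
import Pool.Agent.H15.GEO.Fin
import Pool.Agent.H15.GEO.Lwq
import Pool.Agent.H33.GEO.DaBr

/-!
# H15/GEO/Asm: the arrays of a member

`asm_mem`: the arrays of a member from the events: branches (`BrS`), near-constancy of the families
of both leaves, comparison of the size of the slopes with the slope at the sample.
-/

set_option autoImplicit false

namespace Pool.TUB

open Finset MvPolynomial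
open Pool.Agent.H49.Ent Pool.Agent.H32.Dense Pool.STK Pool.KA Pool.KSAT Pool.K2S Pool.PB
  Pool.STAT Pool.STAT.CLO Pool.GEN Pool.M3F Pool.KAF Pool.KAL Pool.KS3 Pool.KJA
open Pool.GEO (gsy gsy_zero gsy_succ gsy_tri gsy_deg)
open Pool.PM (lev nx nt lfv PLab MNum MDat q2)
open Pool.JMN (ev shf tdg)
open Pool.SPN (sg1)
open Pool.JPN (ntc ce yc)
open Pool.KM7 (P2_isLaw P2_pos P2_fst)

variable {m J : ℕ}

/-- The numbers of a member. -/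
structure NumA (W W₀ Pr sg L q ls h₀ Xg tt dd Ln Lg kC X : ℕ) (h θ L' Ln' Pn G hb : ℕ) (g : ℕ → ℕ)
    (J : ℕ) : Prop where
  WP : W ≤ Pr
  PJ : Pr ≤ J
  wd : ∀ i, wdS W₀ g L i + q + Lg + 5 ≤ Pr
  g3 : g 3 ≤ J
  gt : ∀ i < 2, g i ≤ g 2 + tt
  dl : L + q + h₀ + ls + 3 ≤ dd
  XX : X + 2 ≤ Xg
  XP : Xg + sg + g 3 ≤ Pr
  U : kC + 1 + h₀ + L + q + ls ≤ L' + h
  τ : kC + L + q + 3 * h₀ + ls + θ ≤ dd
  l1 : kC + q + ls + 2 + Ln' ≤ h + Ln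
  l2 : kC + q + ls + g 3 + 2 + Ln' ≤ h + J
  l3 : kC + q + ls + Xg + sg + g 3 + 2 + Ln' ≤ h + Pr
  l4 : kC + q + ls + hb + L' + 2 ≤ h + L
  G : Xg + h₀ + tt + 1 ≤ G
  ε : Xg + 1 + Pn ≤ Pr

/-- The index set of the families. -/
abbrev Ix : Type := Fin 2 ⊕ (Fin 2 × Fin 3)

/-- The family of the foreign leaf. -/
noncomputable def fmF {F : Fam m J} (l : PLab F) (W W₀ Pr sg L q d : ℕ)
    (lv ln : l.V₁ → l.V₀ → Fin 4 → ℝ) {D n₀ : ℕ}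
    (aF : l.V₁ × (l.V₀ × ℕ) → (Fin 4 → ℤ) → Fin D → Fin n₀ → MvPolynomial (Fin 4) ℝ)
    (x : (l.V₁ × (l.V₀ × ℕ)) × (Fin 4 → ℤ)) (j : (Fin D × Fin n₀) × Ix) :
    MvPolynomial (Fin 4) ℝ :=
  fmA l W W₀ Pr sg L q d lv ln (C (1 / 2 ^ W) * aF x.1 x.2 j.1.1 j.1.2) x.1 x.2 j.2

/-- The family of the own leaf; `P₁`: the labels of the height. -/
noncomputable def fmO {F : Fam m J} (l : PLab F) (W W₀ Pr sg L q d : ℕ)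
    (lv ln : l.V₁ → l.V₀ → Fin 4 → ℝ) (P₁ : l.V₁ → ℕ → PN)
    (x : (l.V₁ × (l.V₀ × ℕ)) × (Fin 4 → ℤ)) (j : Ix) : MvPolynomial (Fin 4) ℝ :=
  fmA l W W₀ Pr sg L q d lv ln
    (plO W (2 ^ (Pr - W)) (nwS Pr W₀ l.g L q) (sG l W W₀ lv x.1) x.2 (P₁ x.1.1 4)) x.1 x.2 j

/-- The sample is in the natural box of its label. -/
theorem bxr_px {F : Fam m J} {c : ℕ → Fin m} {r W sg : ℕ} {g : ℕ → ℕ} {K : ℕ} {L : ℝ}
    {B : F.Ω → Prop} {V : Type} {z : PtT F → V} {z' : LnT F → V} {P : V → ℕ → PN} (hW : W ≤ J)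
    (h : NLabW F c r W sg g K L B z z' P) {ω : F.Ω} (hω : B ω) :
    CLO.Bxr 4 (wid W g) (P (z (ptr F J ω))) (r + 1) (px c (ptr F J ω)) := by
  intro j hj
  have h4 : ∀ n : ℕ, (1 : ℝ) / 2 ^ n ≤ 4 / 2 ^ n := fun n =>
    div_le_div_of_nonneg_right (by norm_num) (by positivity)
  rcases Nat.eq_zero_or_pos j with rfl | hj0
  · rw [h.zero ω hω, eval_C, px_zero]
    have : wid W g 0 = W := if_pos rfl
    rw [this]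
    exact (t_cell F hW ω).trans (h4 _)
  · obtain ⟨j, rfl⟩ : ∃ j', j = j' + 1 := ⟨j - 1, by omega⟩
    have : wid W g (j + 1) = g j := if_neg (by omega)
    rw [this]
    exact (h.pos ω hω j (by omega)).trans (h4 _)

/-- The mass of the union of several events. -/
theorem pe_seven {V : Type} [Fintype V] {p : V → ℝ} (hp : IsLaw p) {E B₀ B₁ B₂ B₃ B₄ B₅ : V → Prop}
    (h : ∀ e, 0 < p e → ¬ E e → B₀ e ∨ B₁ e ∨ B₂ e ∨ B₃ e ∨ B₄ e ∨ B₅ e) {x₀ x₁ x₂ x₃ x₄ x₅ : ℝ}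
    (h₀ : Pe p B₀ ≤ x₀) (h₁ : Pe p B₁ ≤ x₁) (h₂ : Pe p B₂ ≤ x₂) (h₃ : Pe p B₃ ≤ x₃)
    (h₄ : Pe p B₄ ≤ x₄) (h₅ : Pe p B₅ ≤ x₅) :
    Pe p (fun e => ¬ E e) ≤ x₀ + (x₁ + (x₂ + (x₃ + (x₄ + x₅)))) := by
  rw [← ms_Pe] at h₀ h₁ h₂ h₃ h₄ h₅ ⊢
  refine (Pool.IEN.ms_le hp.nonneg h).trans ?_
  refine (Pool.IEN.ms_or hp.nonneg _ _).trans (add_le_add h₀ ?_)
  refine (Pool.IEN.ms_or hp.nonneg _ _).trans (add_le_add h₁ ?_)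
  refine (Pool.IEN.ms_or hp.nonneg _ _).trans (add_le_add h₂ ?_)
  refine (Pool.IEN.ms_or hp.nonneg _ _).trans (add_le_add h₃ ?_)
  exact (Pool.IEN.ms_or hp.nonneg _ _).trans (add_le_add h₄ h₅)

theorem two_le {a b : ℕ} (h : a ≤ b) : (2 : ℝ) ^ a ≤ 2 ^ b := pow_le_pow_right₀ (by norm_num) h

/-- **The arrays of a member.** -/
theorem asm_mem (K' : ℕ) (hK' : 1 ≤ K') : ∃ kC : ℕ, ∀ {m J : ℕ} {F : Fam m J} {A : F.Ω → Prop}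
    {c : ℕ → Fin m} {N : MNum} {φ : ℝ} {K D n₀ : ℕ} (d : MDat N φ K D F c A)
    (lv ln : d.V → d.U → Fin 4 → ℝ)
    (L q ls h₀ Xg tt dd Ln Lg X : ℕ) (h θ L' Ln' Pn G hb : ℕ) (μ c₁ c₂ : ℝ)
    (aF : d.V × (d.U × ℕ) → (Fin 4 → ℤ) → Fin D → Fin n₀ → MvPolynomial (Fin 4) ℝ),
    NumA ⌊N.w1 * J⌋₊ ⌊N.w0 * J⌋₊ d.Pr ⌊N.sN * J⌋₊ L q ls h₀ Xg tt dd Ln Lg kC X h θ L' Ln' Pn G
      hb d.gU J → 0 < Pe F.p A → K ≤ K' → (∀ γ b k i, (aF γ b k i).totalDegree ≤ K') →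
    12 * d.L * (1 + 4 * 2 ^ Lg) ^ 5 ≤ 2 ^ Xg → c₁ + 5 * c₂ < 1 →
    (∀ ω, A ω → μ ≤ d.mo ω) →
    Pe (q2 F A ⌊N.w0 * J⌋₊) (fun e => ¬ d.lb.Shv c ⌊N.w0 * J⌋₊ h₀ L lv e) ≤ c₁ →
    Pe (q2 F A ⌊N.w0 * J⌋₊) (fun e => ¬ d.lb.Shn c ⌊N.w0 * J⌋₊ h₀ L Ln ln μ e) ≤ c₂ →
    (∀ e, 0 < q2 F A ⌊N.w0 * J⌋₊ e → d.lb.Shv c ⌊N.w0 * J⌋₊ h₀ L lv e → ∀ R,
      (R = lbF d.lb ⌊N.w0 * J⌋₊ ∨ R = lbO d.lb ⌊N.w0 * J⌋₊) → ∀ i j (x : Fin 4 → ℝ),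
      |eval x (pderiv j (sG d.lb ⌊N.w1 * J⌋₊ ⌊N.w0 * J⌋₊ lv (R e) i))| ≤ 2 ^ Lg) →
    Pe F.p (fun ω => A ω ∧ ¬ d.mo ω ≤ 2 ^ hb * max 1 (2 ^ d.gU 3 / 2 ^ d.gU 2 *
      |d.dN (d.z (ptr F J ω)) (d.u (ptr F J ω)) (px c (ptr F J ω))|)) ≤ c₂ * Pe F.p A →
    Pe (q2 F A ⌊N.w0 * J⌋₊) (fun e => d.lb.Shv c ⌊N.w0 * J⌋₊ h₀ L lv e ∧
      ¬ ∃ k i, BrS d.lb c ⌊N.w1 * J⌋₊ ⌊N.w0 * J⌋₊ d.Pr ⌊N.sN * J⌋₊ L q X lv aF e k i) ≤ c₂ →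
    Pe (q2 F A ⌊N.w0 * J⌋₊) (fun e => d.lb.Shv c ⌊N.w0 * J⌋₊ h₀ L lv e ∧
      ¬ ∀ j, Nb (2 / 2 ^ ls) (poS d.lb c ⌊N.w1 * J⌋₊ ⌊N.w0 * J⌋₊ d.Pr L q lv
        (lbF d.lb ⌊N.w0 * J⌋₊ e)
        (ceS d.lb c ⌊N.w1 * J⌋₊ ⌊N.w0 * J⌋₊ d.Pr ⌊N.sN * J⌋₊ L q lv (lbF d.lb ⌊N.w0 * J⌋₊ e) e.1)
        e.1) (fmF d.lb ⌊N.w1 * J⌋₊ ⌊N.w0 * J⌋₊ d.Pr ⌊N.sN * J⌋₊ L q dd lv ln aF
          (lbF d.lb ⌊N.w0 * J⌋₊ e,
            ceS d.lb c ⌊N.w1 * J⌋₊ ⌊N.w0 * J⌋₊ d.Pr ⌊N.sN * J⌋₊ L q lv (lbF d.lb ⌊N.w0 * J⌋₊ e)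
              e.1) j)) ≤ c₂ →
    Pe (q2 F A ⌊N.w0 * J⌋₊) (fun e => d.lb.Shv c ⌊N.w0 * J⌋₊ h₀ L lv e ∧
      ¬ ∀ j, Nb (2 / 2 ^ ls) (poS d.lb c ⌊N.w1 * J⌋₊ ⌊N.w0 * J⌋₊ d.Pr L q lv
        (lbO d.lb ⌊N.w0 * J⌋₊ e)
        (ceS d.lb c ⌊N.w1 * J⌋₊ ⌊N.w0 * J⌋₊ d.Pr ⌊N.sN * J⌋₊ L q lv (lbO d.lb ⌊N.w0 * J⌋₊ e) e.1)
        e.1) (fmO d.lb ⌊N.w1 * J⌋₊ ⌊N.w0 * J⌋₊ d.Pr ⌊N.sN * J⌋₊ L q dd lv ln d.P
          (lbO d.lb ⌊N.w0 * J⌋₊ e,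
            ceS d.lb c ⌊N.w1 * J⌋₊ ⌊N.w0 * J⌋₊ d.Pr ⌊N.sN * J⌋₊ L q lv (lbO d.lb ⌊N.w0 * J⌋₊ e)
              e.1) j)) ≤ c₂ →
    ∃ (br : F.Ω × F.Ω → Fin (D * n₀ * 81)) (a : F.Ω × F.Ω → (Fin 3 → Fin (K' + 1)) → ℝ)
      (b₁ : F.Ω → (Fin 3 → Fin (K' + 1)) → ℝ) (χ : d.U → Fin 3 → ℝ) (M : F.Ω × F.Ω → ℝ)
      (E₁ : F.Ω × F.Ω → Prop),
      d.lb.Arr hK' A c ⌊N.w0 * J⌋₊ ⌊N.w1 * J⌋₊ h θ dd L' Ln' ⌊N.sN * J⌋₊ Pn G lv ln br a b₁ χ M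
        E₁ ∧
      (∀ e, E₁ e → μ ≤ 2 ^ hb * (M e + 2 ^ L' / 2 ^ Ln')) ∧
      Pe (q2 F A ⌊N.w0 * J⌋₊) (fun e => ¬ E₁ e) ≤ c₁ + 5 * c₂ := by
  classical
  obtain ⟨C₁, hC₁, hfin⟩ := fin_aok K' hK'
  obtain ⟨kC, hkC⟩ : ∃ kC : ℕ, C₁ < 2 ^ kC := pow_unbounded_of_one_lt C₁ (by norm_num)
  refine ⟨kC, ?_⟩
  intro m J F A c N φ K D n₀ d lv ln L q ls h₀ Xg tt dd Ln Lg X h θ L' Ln' Pn G hb μ c₁ c₂ aF
    hnum hA hKK hdegF hXg hc hμ hShv hShn hder hmk hbr hnF hnO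
  have hlab3 := d.lab3
  obtain ⟨W, hW⟩ : ∃ W, W = ⌊N.w1 * J⌋₊ := ⟨_, rfl⟩
  obtain ⟨W₀, hW₀⟩ : ∃ W, W = ⌊N.w0 * J⌋₊ := ⟨_, rfl⟩
  obtain ⟨sg, hsg⟩ : ∃ W, W = ⌊N.sN * J⌋₊ := ⟨_, rfl⟩
  have hok := d.lb_ok
  have hdN : ∀ κ v b, d.dN κ v b = 2 ^ sg * eval b (pderiv 3 (d.P κ 4)) -
      eval b (pderiv 3 (d.Q v 4)) := fun κ v b => by rw [hsg]; rfl
  rw [← hW, ← hW₀, ← hsg] at hnum
  rw [← hW, ← hsg] at hlab3
  rw [← hW, ← hW₀] at hder hok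
  rw [← hW₀] at hShv hShn
  rw [← hW, ← hW₀, ← hsg] at hbr hnF hnO
  rw [← hW, ← hW₀, ← hsg]
  obtain ⟨qq, hqq⟩ : ∃ qq, qq = q2 F A W₀ := ⟨_, rfl⟩
  have hlq : IsLaw qq := by
    rw [hqq]
    exact P2_isLaw (isLaw_cond F.isLaw hA) _
  have hsup : ∀ e, 0 < qq e → A e.1 ∧ A e.2 := by
    intro e he
    rw [hqq] at he
    have h1 := (P2_pos (isLaw_cond F.isLaw hA) e).1 he
    exact ⟨cond_supp h1.1, cond_supp h1.2.1⟩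
  rw [← hqq] at hShv hShn hder hbr hnF hnO ⊢
  have hWJ : W ≤ J := hnum.WP.trans hnum.PJ
  have hwd : ∀ i, wdS W₀ d.lb.g L i + q ≤ d.Pr := fun i => by
    have := hnum.wd i
    show wdS W₀ d.gU L i + q ≤ d.Pr
    omega
  have htri : ∀ v, TriN (d.lb.P v) := d.tri
  have hdeg : ∀ v i, (d.lb.P v i).totalDegree ≤ 1 := d.aff
  have hL0 : 0 ≤ d.L := d.L0
  have hM0 : (0 : ℝ) < ((2 ^ (d.Pr - W) : ℕ) : ℝ) := by positivity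
  have hMc : ((2 ^ (d.Pr - W) : ℕ) : ℝ) = 2 ^ (d.Pr - W) := by push_cast; rfl
  have pW : (0 : ℝ) < 2 ^ W := by positivity
  have hMW : (2 : ℝ) ^ (d.Pr - W) * 2 ^ W = 2 ^ d.Pr := by
    rw [← pow_add]
    congr 1
    have := hnum.WP
    omega
  have hNw : ∀ i, (11 : ℝ) * 2 ^ Lg * 2 ≤ (nwS d.Pr W₀ d.lb.g L q i : ℝ) := by
    intro i
    unfold nwS
    push_cast
    calc (11 : ℝ) * 2 ^ Lg * 2 ≤ 2 ^ Lg * 2 ^ 5 := by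
          have : (0 : ℝ) < 2 ^ Lg := by positivity
          nlinarith
      _ = 2 ^ (Lg + 5) := by rw [pow_add]
      _ ≤ _ := two_le (by
          have h1 := hnum.wd i
          have h2 : wdS W₀ d.lb.g L i = wdS W₀ d.gU L i := rfl
          omega)
  have hLg1 : (1 : ℝ) ≤ 2 ^ Lg := one_le_pow₀ (by norm_num)
  have hN3 : ∀ j, (3 + 8 * (2 : ℝ) ^ Lg) / (nwS d.Pr W₀ d.lb.g L q j : ℝ) ≤ 1 / 2 := by
    intro j
    have h1 := hNw j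
    have h2 : (0 : ℝ) < (nwS d.Pr W₀ d.lb.g L q j : ℝ) := by
      exact_mod_cast nwS_pos d.Pr W₀ d.lb.g L q j
    rw [div_le_iff₀ h2]
    linarith
  -- the branch
  obtain ⟨kk, hkk⟩ : ∃ kk : F.Ω × F.Ω → Fin D × Fin n₀, ∀ e,
      (∃ k i, BrS d.lb c W W₀ d.Pr sg L q X lv aF e k i) →
        BrS d.lb c W W₀ d.Pr sg L q X lv aF e (kk e).1 (kk e).2 := by
    by_cases hne : Nonempty (Fin D × Fin n₀)
    · obtain ⟨x₀⟩ := hne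
      refine ⟨fun e => if hx : ∃ k i, BrS d.lb c W W₀ d.Pr sg L q X lv aF e k i then
        (hx.choose, hx.choose_spec.choose) else x₀, fun e he => ?_⟩
      simp only [dif_pos he]
      exact he.choose_spec.choose_spec
    · exfalso
      have h1 : Pe qq (fun e => ¬ (fun _ : F.Ω × F.Ω => False) e) ≤ c₁ + c₂ := by
        have h2 : Pe qq (fun e => ¬ (fun _ : F.Ω × F.Ω => False) e) ≤
            Pe qq (fun e => (¬ d.lb.Shv c W₀ h₀ L lv e) ∨ (d.lb.Shv c W₀ h₀ L lv e ∧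
              ¬ ∃ k i, BrS d.lb c W W₀ d.Pr sg L q X lv aF e k i)) := by
          refine Pe_mono hlq fun e _ => ?_
          by_cases h3 : d.lb.Shv c W₀ h₀ L lv e
          · refine Or.inr ⟨h3, ?_⟩
            rintro ⟨k, i, -⟩
            exact hne ⟨(k, i)⟩
          · exact Or.inl h3
        rw [← ms_Pe, ← ms_Pe] at h2
        have h4 := Pool.IEN.ms_or hlq.nonneg (fun e => ¬ d.lb.Shv c W₀ h₀ L lv e)
          (fun e => d.lb.Shv c W₀ h₀ L lv e ∧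
              ¬ ∃ k i, BrS d.lb c W W₀ d.Pr sg L q X lv aF e k i)
        rw [ms_Pe qq (fun e => ¬ d.lb.Shv c W₀ h₀ L lv e), ms_Pe qq (fun e =>
          d.lb.Shv c W₀ h₀ L lv e ∧ ¬ ∃ k i, BrS d.lb c W W₀ d.Pr sg L q X lv aF e k i)] at h4
        rw [← ms_Pe]
        linarith
      have h5 : Pe qq (fun e => ¬ (fun _ : F.Ω × F.Ω => False) e) = 1 := by
        have h6 : (fun e => ¬ (fun _ : F.Ω × F.Ω => False) e) = fun _ : F.Ω × F.Ω => True := by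
          funext e
          exact propext ⟨fun _ => trivial, fun _ h => h⟩
        rw [h6]
        exact Pe_univ hlq
      have hc20 : 0 ≤ c₂ := (Pe_nonneg hlq _).trans hShn
      rw [h5] at h1
      linarith
  obtain ⟨br, AF, hAF⟩ := da_br (K := K') d.lb c W W₀ d.Pr sg L q dd lv aF kk (2 ^ h₀) (2 ^ Lg) htri
    hnum.WP hnum.PJ (by positivity) (one_le_pow₀ (by norm_num)) hN3 (by
      intro i
      rw [snu_eq hnum.WP i (hwd _)]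
      have h1 : ((if i = 2 then (2 : ℝ) ^ (L + q) else 2 ^ q) / 2 ^ dd) * (1 + 2 * 2 ^ h₀) ≤
          2 ^ (L + q) / 2 ^ dd * (1 + 2 * 2 ^ h₀) := by
        refine mul_le_mul_of_nonneg_right (div_le_div_of_nonneg_right ?_ (by positivity))
          (by positivity)
        split_ifs
        · exact le_rfl
        · exact two_le (by omega)
      refine h1.trans ?_
      rw [div_mul_eq_mul_div, div_le_div_iff₀ (by positivity) (by norm_num)]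
      have h2 : (1 : ℝ) ≤ 2 ^ h₀ := one_le_pow₀ (by norm_num)
      calc (2 : ℝ) ^ (L + q) * (1 + 2 * 2 ^ h₀) * 2 ≤ 2 ^ (L + q) * (2 ^ h₀ * 2 ^ 3) := by
            have : (0 : ℝ) < 2 ^ (L + q) := by positivity
            nlinarith
        _ = 2 ^ (L + q + (h₀ + 3)) := by rw [pow_add _ (L + q), pow_add _ h₀]
        _ ≤ 2 ^ dd := two_le (by have := hnum.dl; omega)
        _ = 1 * 2 ^ dd := (one_mul _).symm)
  -- the event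
  obtain ⟨mkg, hmkg⟩ : ∃ mkg : F.Ω → Prop, mkg = fun ω => d.mo ω ≤ 2 ^ hb * max 1
      (2 ^ d.gU 3 / 2 ^ d.gU 2 * |d.dN (d.z (ptr F J ω)) (d.u (ptr F J ω))
        (px c (ptr F J ω))|) := ⟨_, rfl⟩
  obtain ⟨nF, hnFd⟩ : ∃ nF : F.Ω × F.Ω → Prop, nF = fun e => ∀ j, Nb (2 / 2 ^ ls)
      (poS d.lb c W W₀ d.Pr L q lv (lbF d.lb W₀ e) (ceS d.lb c W W₀ d.Pr sg L q lv
        (lbF d.lb W₀ e) e.1) e.1) (fmF d.lb W W₀ d.Pr sg L q dd lv ln aF (lbF d.lb W₀ e,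
          ceS d.lb c W W₀ d.Pr sg L q lv (lbF d.lb W₀ e) e.1) j) := ⟨_, rfl⟩
  obtain ⟨nO, hnOd⟩ : ∃ nO : F.Ω × F.Ω → Prop, nO = fun e => ∀ j, Nb (2 / 2 ^ ls)
      (poS d.lb c W W₀ d.Pr L q lv (lbO d.lb W₀ e) (ceS d.lb c W W₀ d.Pr sg L q lv
        (lbO d.lb W₀ e) e.1) e.1) (fmO d.lb W W₀ d.Pr sg L q dd lv ln d.P (lbO d.lb W₀ e,
          ceS d.lb c W W₀ d.Pr sg L q lv (lbO d.lb W₀ e) e.1) j) := ⟨_, rfl⟩
  obtain ⟨bF, hbF⟩ : ∃ bF : F.Ω × F.Ω → Prop, bF = fun e =>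
      ∃ k i, BrS d.lb c W W₀ d.Pr sg L q X lv aF e k i := ⟨_, rfl⟩
  have hmk2 : Pe qq (fun e => A e.1 ∧ ¬ mkg e.1) ≤ c₂ := by
    have hp := isLaw_cond F.isLaw hA
    have h1 := (P2_fst hp (slam F W₀)).law_eq (fun ω => A ω ∧ ¬ mkg ω) True
    have h2 : Pe qq (fun e => A e.1 ∧ ¬ mkg e.1) = Pe (Pool.Agent.H49.Ent.cond F.p A True)
        (fun ω => A ω ∧ ¬ mkg ω) := by
      rw [hqq]
      exact h1
    rw [h2, Pool.JPR.Pe_cnd, div_le_iff₀ hA]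
    refine le_trans (le_of_eq ?_) hmk
    congr 1
    funext ω
    rw [hmkg]
    exact propext ⟨fun h => h.2, fun h => ⟨h.1, h⟩⟩
  obtain ⟨E₁, hE₁⟩ : ∃ E₁ : F.Ω × F.Ω → Prop, E₁ = fun e => 0 < qq e ∧
      d.lb.Shv c W₀ h₀ L lv e ∧ d.lb.Shn c W₀ h₀ L Ln ln μ e ∧ bF e ∧ nF e ∧ nO e ∧ mkg e.1 :=
    ⟨_, rfl⟩
  have hmass : Pe qq (fun e => ¬ E₁ e) ≤ c₁ + 5 * c₂ := by
    have h1 := pe_seven hlq (E := E₁) (B₀ := fun e => ¬ d.lb.Shv c W₀ h₀ L lv e)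
      (B₁ := fun e => ¬ d.lb.Shn c W₀ h₀ L Ln ln μ e)
      (B₂ := fun e => d.lb.Shv c W₀ h₀ L lv e ∧ ¬ bF e)
      (B₃ := fun e => d.lb.Shv c W₀ h₀ L lv e ∧ ¬ nF e)
      (B₄ := fun e => d.lb.Shv c W₀ h₀ L lv e ∧ ¬ nO e)
      (B₅ := fun e => A e.1 ∧ ¬ mkg e.1) (by
        intro e he hE
        by_contra hcon
        push Not at hcon
        obtain ⟨g0, g1, g2, g3, g4, g5⟩ := hcon
        refine hE ?_
        rw [hE₁]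
        exact ⟨he, g0, g1, g2 g0, g3 g0, g4 g0, g5 (hsup e he).1⟩)
      (x₀ := c₁) (x₁ := c₂) (x₂ := c₂) (x₃ := c₂) (x₄ := c₂) (x₅ := c₂) hShv hShn
      (by rw [hbF]; exact hbr) (by rw [hnFd]; exact hnF) (by rw [hnOd]; exact hnO) hmk2
    linarith
  -- the box of the label
  have hgradL : ∀ ω, A ω → ∀ l < 4, |eval (px c (ptr F J ω)) (pderiv l (d.P (d.z (ptr F J ω)) 4))| ≤
      d.L := fun ω hω l hl => hlab3.grad ω hω _ (bxr_px hWJ hlab3 hω) 4 (by norm_num) l hl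
  have hXg2 : (2 : ℝ) ≤ 2 ^ Xg := by
    calc (2 : ℝ) = 2 ^ 1 := by norm_num
      _ ≤ _ := two_le (by have := hnum.XX; omega)
  -- the own leaf
  have hown : ∀ e, E₁ e → AOK hK' d.lb.g dd (arM K' (oar J W (F.T e.1) (d.lb.P (d.lb.z₀
      (ptr F J e.1))) d.lb.g dd (ce 3 F c d.lb.P d.lb.z₀ d.lb.g dd e.1)
        (d.P (d.lb.z₁ (ptr F J e.1)) 4))) (yc 3 F c d.lb.P d.lb.z₀ d.lb.g dd e.1)
      (fun i => 1 / 2 ^ sg * chg J W (d.lb.P (d.lb.z₀ (ptr F J e.1))) d.lb.g dd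
          (d.lb.P (d.lb.z₀ (ptr F J e.1)) 4) i) (d.lb.sh lv e.1 e.1) (d.lb.sh ln e.1 e.1)
      (F.x e.1 (c 3) / 2 ^ sg) (1 / 2 ^ (sg + d.lb.g 3 + dd))
        (C₁ * 2 ^ (h₀ + L + q + ls) * (1 + 2 ^ (Xg + sg + d.lb.g 3) / 2 ^ d.Pr))
        (C₁ * 2 ^ (L + q + 3 * h₀ + ls) / 2 ^ dd)
        (C₁ * 2 ^ (q + ls) * (1 / 2 ^ Ln + 2 ^ d.lb.g 3 / 2 ^ J +
          2 ^ (Xg + sg + d.lb.g 3) / 2 ^ d.Pr) + C₁ * 2 ^ (q + ls) / 2 ^ L * μ)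
        (2 ^ Xg * (1 + 2 ^ h₀ * 2 ^ tt)) (2 ^ (Xg + 1) / 2 ^ d.Pr) := by
    intro e he
    rw [hE₁] at he
    obtain ⟨he0, hsv, hsn, -, -, hno, -⟩ := he
    have hAe := (hsup e he0).1
    rw [hnOd] at hno
    obtain ⟨γ, hγ⟩ : ∃ γ, γ = lbO d.lb W₀ e := ⟨_, rfl⟩
    obtain ⟨b, hb⟩ : ∃ b, b = ceS d.lb c W W₀ d.Pr sg L q lv γ e.1 := ⟨_, rfl⟩
    have hno' : ∀ j, Nb (2 / 2 ^ ls) (poS d.lb c W W₀ d.Pr L q lv γ b e.1)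
        (fmA d.lb W W₀ d.Pr sg L q dd lv ln (plO W (2 ^ (d.Pr - W)) (nwS d.Pr W₀ d.lb.g L q)
          (sG d.lb W W₀ lv γ) b (d.P γ.1 4)) γ b j) := by
      rw [hb, hγ]
      exact hno
    have hder' : ∀ i l (x : Fin 4 → ℝ), |eval x (pderiv l (sG d.lb W W₀ lv γ i))| ≤ 2 ^ Lg := by
      intro i l x
      rw [hγ]
      exact hder e he0 hsv _ (Or.inr rfl) i l x
    have hP4 : (d.P γ.1 4).vars ⊆ range 4 := hlab3.tri _ 4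
    have hγ1 : γ.1 = d.z (ptr F J e.1) := by rw [hγ]; rfl
    have hgr := fun l => own_grad (c := c) (W := W) (b := b) Nat.one_le_two_pow
      (nwS_pos d.Pr W₀ d.lb.g L q) (tri_sG htri W W₀ lv γ) (by positivity) hL0 hder'
      (p := d.P γ.1 4) e.1 (fun l hl => by
        rw [hγ1]
        exact hgradL e.1 hAe l hl) hP4 l (M := 2 ^ (d.Pr - W))
    have hva := own_val (c := c) (W := W) (b := b) Nat.one_le_two_pow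
      (nwS_pos d.Pr W₀ d.lb.g L q) (tri_sG htri W W₀ lv γ) hP4 e.1 (M := 2 ^ (d.Pr - W))
    have key := hfin d.lb c W W₀ d.Pr sg L q ls h₀ Xg tt dd Ln lv ln γ b e.1
      (plO W (2 ^ (d.Pr - W)) (nwS d.Pr W₀ d.lb.g L q) (sG d.lb W W₀ lv γ) b (d.P γ.1 4)) μ
      (by rw [hγ]; rfl) htri hdeg hnum.WP hnum.PJ hwd hnum.g3 hnum.gt hnum.dl
      ((deg_plO (fun i => deg_sG hdeg W W₀ lv γ i) (hlab3.deg _ _)).trans hKK)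
      (fun i => by rw [hγ]; exact (hsv.2.2 i).1) hno' ?_ ?_ (d.posN e.1 hAe)
      (by rw [hγ]; exact hsn.1)
    · have hsl := slc_oar (J := J) (W := W) (T := F.T e.1) (W₀ := W₀) (T₁ := F.T1 W₀ e.1)
        (M := 2 ^ (d.Pr - W)) (htri (d.lb.z₀ (ptr F J e.1))) (g := d.lb.g) (d := dd)
        (ce := ce 3 F c d.lb.P d.lb.z₀ d.lb.g dd e.1) (q := lv γ.1 γ.2.1) (b := b)
        (N := nwS d.Pr W₀ d.lb.g L q) Nat.one_le_two_pow (nwS_pos d.Pr W₀ d.lb.g L q)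
        (d.P γ.1 4)
      have hpl : plO W (2 ^ (d.Pr - W)) (nwS d.Pr W₀ d.lb.g L q) (sG d.lb W W₀ lv γ) b
          (d.P γ.1 4) = C (1 / 2 ^ W) * bind₁ (nchi (2 ^ (d.Pr - W)) (nwS d.Pr W₀ d.lb.g L q)
            (gsy 3 W (sls (d.lb.P (d.lb.z₀ (ptr F J e.1))) d.lb.g W₀ (F.T1 W₀ e.1)
              (lv γ.1 γ.2.1))) b) (toF 4 W (d.P γ.1 4)) := by
        rw [hγ]
        rfl
      have hnt : nt F W₀ e.1 = 2 ^ W₀ * ((F.T e.1 : ℝ) / 2 ^ J) - F.T1 W₀ e.1 := rfl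
      rw [hpl, hnt, hsl] at key
      rw [hγ] at key
      exact key
    · intro i
      have h1 := hgr i.succ
      have h2 : |eval (poS d.lb c W W₀ d.Pr L q lv γ b e.1) (pderiv i.succ (plO W
          (2 ^ (d.Pr - W)) (nwS d.Pr W₀ d.lb.g L q) (sG d.lb W W₀ lv γ) b (d.P γ.1 4)))| ≤
          4 * d.L * (1 + 4 * 2 ^ Lg) ^ 5 * ((nwS d.Pr W₀ d.lb.g L q i.succ : ℝ) /
            ((2 ^ (d.Pr - W) : ℕ) : ℝ)) / 2 ^ W := h1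
      rw [hMc] at h2
      obtain ⟨y, hy⟩ : ∃ y : ℝ, y = (nwS d.Pr W₀ d.lb.g L q i.succ : ℝ) / 2 ^ (d.Pr - W) :=
        ⟨_, rfl⟩
      rw [← hy] at h2 ⊢
      have hy0 : 0 ≤ y := by
        rw [hy]
        positivity
      calc 3 * |eval (poS d.lb c W W₀ d.Pr L q lv γ b e.1) (pderiv i.succ (plO W
          (2 ^ (d.Pr - W)) (nwS d.Pr W₀ d.lb.g L q) (sG d.lb W W₀ lv γ) b (d.P γ.1 4)))| ≤
          3 * (4 * d.L * (1 + 4 * 2 ^ Lg) ^ 5 * y / 2 ^ W) :=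
            mul_le_mul_of_nonneg_left h2 (by norm_num)
        _ = 12 * d.L * (1 + 4 * 2 ^ Lg) ^ 5 * (y / 2 ^ W) := by ring
        _ ≤ 2 ^ Xg * (y / 2 ^ W) := mul_le_mul_of_nonneg_right hXg (by positivity)
        _ = _ := by ring
    · have h1 : eval (poS d.lb c W W₀ d.Pr L q lv γ b e.1) (plO W
          (2 ^ (d.Pr - W)) (nwS d.Pr W₀ d.lb.g L q) (sG d.lb W W₀ lv γ) b (d.P γ.1 4)) =
          eval (px c (ptr F J e.1)) (d.P γ.1 4) := hva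
      rw [h1, hγ1]
      have h2 := hlab3.posN e.1 hAe
      have h3 : (1 : ℝ) / 2 ^ d.gN 3 ≤ 1 / 2 ^ d.Pr :=
        one_div_le_one_div_of_le (by positivity) (two_le d.Pr_g)
      have h4 : (1 : ℝ) / 2 ^ J ≤ 1 / 2 ^ d.Pr :=
        one_div_le_one_div_of_le (by positivity) (two_le hnum.PJ)
      have h5 : (2 : ℝ) / 2 ^ d.Pr ≤ 2 ^ Xg / 2 ^ d.Pr :=
        div_le_div_of_nonneg_right hXg2 (by positivity)
      have h6 : (2 : ℝ) / 2 ^ d.Pr = 1 / 2 ^ d.Pr + 1 / 2 ^ d.Pr := by ring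
      have h7 : |px c (ptr F J e.1) 4 / 2 ^ sg - eval (px c (ptr F J e.1))
          (d.P (d.z (ptr F J e.1)) 4)| ≤ 1 / 2 ^ d.gN 3 + 1 / 2 ^ J := h2
      linarith
  -- the leaf of the second sample
  have hfor : ∀ e, E₁ e → AOK hK' d.lb.g dd (AF (d.lb.z₁ (ptr F J e.2)) (d.lb.z₀ (ptr F J e.1))
      (F.T e.1) (ce 3 F c d.lb.P d.lb.z₀ d.lb.g dd e.1) (br e))
      (yc 3 F c d.lb.P d.lb.z₀ d.lb.g dd e.1)
      (fun i => 1 / 2 ^ sg * chg J W (d.lb.P (d.lb.z₀ (ptr F J e.1))) d.lb.g dd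
          (d.lb.P (d.lb.z₀ (ptr F J e.1)) 4) i) (d.lb.sh lv e.1 e.2) (d.lb.sh ln e.1 e.2)
      (F.x e.1 (c 3) / 2 ^ sg) (1 / 2 ^ (sg + d.lb.g 3 + dd))
        (C₁ * 2 ^ (h₀ + L + q + ls) * (1 + 2 ^ (Xg + sg + d.lb.g 3) / 2 ^ d.Pr))
        (C₁ * 2 ^ (L + q + 3 * h₀ + ls) / 2 ^ dd)
        (C₁ * 2 ^ (q + ls) * (1 / 2 ^ Ln + 2 ^ d.lb.g 3 / 2 ^ J +
          2 ^ (Xg + sg + d.lb.g 3) / 2 ^ d.Pr) + C₁ * 2 ^ (q + ls) / 2 ^ L * μ)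
        (2 ^ Xg * (1 + 2 ^ h₀ * 2 ^ tt)) (2 ^ (Xg + 1) / 2 ^ d.Pr) := by
    intro e he
    rw [hE₁] at he
    obtain ⟨he0, hsv, hsn, hbf, hnf, -, -⟩ := he
    have hAe := (hsup e he0).1
    rw [hnFd] at hnf
    rw [hbF] at hbf
    have hB := hkk e hbf
    have hder' : ∀ i l (x : Fin 4 → ℝ), |eval x (pderiv l (sG d.lb W W₀ lv (lbF d.lb W₀ e) i))| ≤
        2 ^ Lg := fun i l x => hder e he0 hsv _ (Or.inl rfl) i l x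
    rw [hAF e (fun i => (hsv.2.2 i).2) hder']
    obtain ⟨γ, hγ⟩ : ∃ γ, γ = lbF d.lb W₀ e := ⟨_, rfl⟩
    obtain ⟨b, hb⟩ : ∃ b, b = ceS d.lb c W W₀ d.Pr sg L q lv γ e.1 := ⟨_, rfl⟩
    obtain ⟨a, ha⟩ : ∃ a, a = aF γ b (kk e).1 (kk e).2 := ⟨_, rfl⟩
    have hnf' : ∀ j, Nb (2 / 2 ^ ls) (poS d.lb c W W₀ d.Pr L q lv γ b e.1)
        (fmA d.lb W W₀ d.Pr sg L q dd lv ln (C (1 / 2 ^ W) * a) γ b j) := by
      intro j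
      rw [ha, hb, hγ]
      exact hnf (kk e, j)
    have hval := hB.val
    have hgrd := hB.grad
    rw [← hγ] at hder' hval hgrd
    rw [← hb] at hval hgrd
    rw [← ha] at hval hgrd
    -- the position
    have hpo : ∀ j, |poS d.lb c W W₀ d.Pr L q lv γ b e.1 j| ≤ 2 := by
      intro j
      have h1 := pos_near (κ := 2) Nat.one_le_two_pow (nwS_pos d.Pr W₀ d.lb.g L q)
        (tri_sG htri W W₀ lv γ) (by positivity : (0 : ℝ) ≤ 2 ^ Lg) (by norm_num)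
        (fun i l x => hder' i l x) (M := 2 ^ (d.Pr - W)) (x := bse (Pool.GEO.xte c 3 W d.Pr sg F e.1))
        (p := bpx F c 3 W e.1) (fun i => bpx_near c 3 sg hnum.WP hnum.PJ e.1 i) j
      have h2 : rpos (2 ^ (d.Pr - W)) (nwS d.Pr W₀ d.lb.g L q) (sG d.lb W W₀ lv γ)
          (nidx (nwS d.Pr W₀ d.lb.g L q) (ndg (2 ^ (d.Pr - W)) (sG d.lb W W₀ lv γ)
            (bse (Pool.GEO.xte c 3 W d.Pr sg F e.1)))) (bpx F c 3 W e.1) =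
          poS d.lb c W W₀ d.Pr L q lv γ b e.1 := by
        rw [hb]
        rfl
      rw [h2] at h1
      have h3 : (1 + 2 + ((4 : ℕ) : ℝ) * 2 ^ Lg * 2) / (nwS d.Pr W₀ d.lb.g L q j : ℝ) ≤ 1 / 2 := by
        refine le_trans (le_of_eq ?_) (hN3 j)
        push_cast
        ring
      have h4 := h1.trans h3
      obtain ⟨n, hn⟩ : ∃ n : ℕ, n = nrem (nwS d.Pr W₀ d.lb.g L q) (ndg (2 ^ (d.Pr - W))
        (sG d.lb W W₀ lv γ) (bse (Pool.GEO.xte c 3 W d.Pr sg F e.1))) j := ⟨_, rfl⟩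
      have h5 : n < nwS d.Pr W₀ d.lb.g L q j := by
        rw [hn]
        exact nrem_lt (nwS_pos d.Pr W₀ d.lb.g L q) _ j
      rw [← hn] at h4
      have h6 : (0 : ℝ) < (nwS d.Pr W₀ d.lb.g L q j : ℝ) := by
        exact_mod_cast nwS_pos d.Pr W₀ d.lb.g L q j
      have h7 : (n : ℝ) / (nwS d.Pr W₀ d.lb.g L q j : ℝ) ≤ 1 := by
        rw [div_le_one h6]
        exact_mod_cast h5.le
      have h8 : (0 : ℝ) ≤ (n : ℝ) / (nwS d.Pr W₀ d.lb.g L q j : ℝ) := by positivity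
      rw [abs_le] at h4 ⊢
      constructor <;> linarith [h4.1, h4.2]
    have hg1 : ∀ i : Fin 3, 3 * |eval (poS d.lb c W W₀ d.Pr L q lv γ b e.1)
        (pderiv i.succ (C (1 / 2 ^ W) * a))| ≤
        2 ^ Xg * ((nwS d.Pr W₀ d.lb.g L q i.succ : ℝ) / 2 ^ (d.Pr - W)) / 2 ^ W := by
      intro i
      have h1 := hgrd _ hpo i.succ
      rw [pderiv_C_mul, map_mul, eval_C, abs_mul, abs_of_pos (by positivity : (0 : ℝ) < 1 / 2 ^ W)]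
      obtain ⟨y, hy⟩ : ∃ y : ℝ, y = (nwS d.Pr W₀ d.lb.g L q i.succ : ℝ) / 2 ^ (d.Pr - W) :=
        ⟨_, rfl⟩
      rw [← hy] at h1 ⊢
      have hy0 : 0 ≤ y := by
        rw [hy]
        positivity
      have h2 : 3 * (2 : ℝ) ^ X ≤ 2 ^ Xg := by
        calc 3 * (2 : ℝ) ^ X ≤ 2 ^ X * 2 ^ 2 := by
              have : (0 : ℝ) < 2 ^ X := by positivity
              linarith
          _ = 2 ^ (X + 2) := by rw [pow_add]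
          _ ≤ _ := two_le hnum.XX
      calc 3 * (1 / 2 ^ W * |eval (poS d.lb c W W₀ d.Pr L q lv γ b e.1) (pderiv i.succ a)|) ≤
          3 * (1 / 2 ^ W * (2 ^ X * y)) := by
            refine mul_le_mul_of_nonneg_left (mul_le_mul_of_nonneg_left h1 (by positivity))
              (by norm_num)
        _ = 3 * 2 ^ X * (y / 2 ^ W) := by ring
        _ ≤ 2 ^ Xg * (y / 2 ^ W) := mul_le_mul_of_nonneg_right h2 (by positivity)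
        _ = _ := by ring
    have hg2 : |px c (ptr F J e.1) 4 / 2 ^ sg - eval (poS d.lb c W W₀ d.Pr L q lv γ b e.1)
        (C (1 / 2 ^ W) * a)| ≤ 2 ^ Xg / 2 ^ d.Pr := by
      rw [map_mul, eval_C]
      have h1 : px c (ptr F J e.1) 4 / 2 ^ sg - 1 / 2 ^ W *
          eval (poS d.lb c W W₀ d.Pr L q lv γ b e.1) a =
          (2 ^ W * (px c (ptr F J e.1) 4 / 2 ^ sg) -
            eval (poS d.lb c W W₀ d.Pr L q lv γ b e.1) a) / 2 ^ W := by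
        field_simp
      rw [h1, abs_div, abs_of_pos pW]
      calc |2 ^ W * (px c (ptr F J e.1) 4 / 2 ^ sg) -
            eval (poS d.lb c W W₀ d.Pr L q lv γ b e.1) a| / 2 ^ W ≤
          2 ^ X / 2 ^ (d.Pr - W) / 2 ^ W := div_le_div_of_nonneg_right hval pW.le
        _ = 2 ^ X / 2 ^ d.Pr := by rw [div_div, hMW]
        _ ≤ _ := div_le_div_of_nonneg_right (two_le (by have := hnum.XX; omega)) (by positivity)
    have hda : (C (1 / 2 ^ W) * a).totalDegree ≤ K' := deg_Cmul _ (by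
      rw [ha]
      exact hdegF _ _ _ _)
    have hγ2 : γ.2 = (d.lb.z₀ (ptr F J e.1), F.T1 W₀ e.1) := by
      rw [hγ]
      rfl
    have hs1 : ∀ i, |lv γ.1 γ.2.1 i| ≤ 2 ^ h₀ := fun i => by
      rw [hγ]
      exact (hsv.2.2 i).2
    have hs2 : |nx F c d.lb.P d.lb.z₀ d.lb.g e.1 3 - lfv F c d.lb.P d.lb.z₀ d.lb.g W₀
        (ln γ.1 γ.2.1) e.1| ≤ 1 / 2 ^ Ln + μ / 2 ^ L := by
      rw [hγ]
      exact hsn.2.1
    have key := hfin d.lb c W W₀ d.Pr sg L q ls h₀ Xg tt dd Ln lv ln γ b e.1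
      (C (1 / 2 ^ W) * a) μ hγ2 htri hdeg hnum.WP hnum.PJ hwd hnum.g3 hnum.gt
      hnum.dl hda hs1 hnf' hg1 hg2 (d.posN e.1 hAe) hs2
    have e1 : lv γ.1 γ.2.1 = d.lb.sh lv e.1 e.2 := by
      rw [hγ]
      rfl
    have e2 : ln γ.1 γ.2.1 = d.lb.sh ln e.1 e.2 := by
      rw [hγ]
      rfl
    rw [e1, e2, ha, hb, hγ] at key
    exact key
  -- the numbers
  have hC0 : 0 < C₁ := by linarith
  have hXP : (2 : ℝ) ^ (Xg + sg + d.lb.g 3) / 2 ^ d.Pr ≤ 1 := by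
    rw [div_le_one (by positivity)]
    exact two_le hnum.XP
  have hXP0 : 0 ≤ (2 : ℝ) ^ (Xg + sg + d.lb.g 3) / 2 ^ d.Pr := by positivity
  have hCk : C₁ ≤ 2 ^ kC := hkC.le
  have h1le : ∀ n : ℕ, (1 : ℝ) ≤ 2 ^ n := fun n => one_le_pow₀ (by norm_num)
  have hpos : ∀ n : ℕ, (0 : ℝ) < 2 ^ n := fun n => by positivity
  -- `C₁ 2^a ≤ 2^b`
  have hCa : ∀ a b : ℕ, kC + a ≤ b → C₁ * 2 ^ a ≤ 2 ^ b := by
    intro a b hab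
    calc C₁ * 2 ^ a ≤ 2 ^ kC * 2 ^ a := mul_le_mul_of_nonneg_right hCk (hpos a).le
      _ = 2 ^ (kC + a) := by rw [pow_add]
      _ ≤ _ := two_le hab
  have hU1 : 1 ≤ C₁ * 2 ^ (h₀ + L + q + ls) * (1 + 2 ^ (Xg + sg + d.lb.g 3) / 2 ^ d.Pr) := by
    refine one_le_mul_of_one_le_of_one_le (one_le_mul_of_one_le_of_one_le hC₁ (h1le _)) ?_
    linarith
  have hU : C₁ * 2 ^ (h₀ + L + q + ls) * (1 + 2 ^ (Xg + sg + d.lb.g 3) / 2 ^ d.Pr) ≤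
      2 ^ (L' + h) := by
    calc C₁ * 2 ^ (h₀ + L + q + ls) * (1 + 2 ^ (Xg + sg + d.lb.g 3) / 2 ^ d.Pr) ≤
        C₁ * 2 ^ (h₀ + L + q + ls) * 2 := by
          refine mul_le_mul_of_nonneg_left ?_ (by positivity)
          linarith
      _ = C₁ * 2 ^ (h₀ + L + q + ls + 1) := by
          rw [pow_succ]
          ring
      _ ≤ _ := hCa _ _ (by
          have := hnum.U
          omega)
  have hτ : C₁ * 2 ^ (L + q + 3 * h₀ + ls) / 2 ^ dd ≤ 1 / 2 ^ θ := by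
    rw [div_le_div_iff₀ (hpos _) (hpos _), mul_assoc, ← pow_add, one_mul]
    exact hCa _ _ (by
      have := hnum.τ
      omega)
  have hΛ' : C₁ * 2 ^ (q + ls) / 2 ^ L * 2 ^ hb ≤ 2 ^ h / 2 ^ L' := by
    rw [div_mul_eq_mul_div, div_le_div_iff₀ (hpos _) (hpos _), mul_assoc, mul_assoc, ← pow_add,
      ← pow_add, ← pow_add]
    exact hCa _ _ (by
      have := hnum.l4
      omega)
  have hquart : ∀ a b n k : ℕ, kC + a + 2 + n ≤ b + k →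
      C₁ * 2 ^ a / 2 ^ k ≤ 1 / 4 * (2 ^ b / 2 ^ n) := by
    intro a b n k hab
    have e1 : (1 : ℝ) / 4 * (2 ^ b / 2 ^ n) = 2 ^ b / (2 ^ n * 2 ^ 2) := by
      field_simp
      norm_num
    rw [e1, div_le_div_iff₀ (hpos _) (by positivity), mul_assoc, ← pow_add, ← pow_add, ← pow_add]
    exact hCa _ _ (by omega)
  have hΛ : C₁ * 2 ^ (q + ls) * (1 / 2 ^ Ln + 2 ^ d.lb.g 3 / 2 ^ J +
          2 ^ (Xg + sg + d.lb.g 3) / 2 ^ d.Pr) + C₁ * 2 ^ (q + ls) / 2 ^ L *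
            (2 ^ hb * (2 ^ L' / 2 ^ Ln')) ≤ 2 ^ h / 2 ^ Ln' := by
    have g3 : d.lb.g 3 = d.gU 3 := rfl
    have a1 := hquart (q + ls) h Ln' Ln (by
      have := hnum.l1
      omega)
    have a2 := hquart (q + ls + d.lb.g 3) h Ln' J (by
      have := hnum.l2
      omega)
    have a3 := hquart (q + ls + (Xg + sg + d.lb.g 3)) h Ln' d.Pr (by
      have := hnum.l3
      omega)
    have a4 := hquart (q + ls + hb + L') h Ln' (L + Ln') (by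
      have := hnum.l4
      omega)
    have e2 : C₁ * 2 ^ (q + ls + d.lb.g 3) / 2 ^ J =
        C₁ * 2 ^ (q + ls) * (2 ^ d.lb.g 3 / 2 ^ J) := by
      rw [pow_add 2 (q + ls)]
      ring
    have e3 : C₁ * 2 ^ (q + ls + (Xg + sg + d.lb.g 3)) / 2 ^ d.Pr =
        C₁ * 2 ^ (q + ls) * (2 ^ (Xg + sg + d.lb.g 3) / 2 ^ d.Pr) := by
      rw [pow_add 2 (q + ls) (Xg + sg + d.lb.g 3)]
      ring
    have e4 : C₁ * 2 ^ (q + ls + hb + L') / 2 ^ (L + Ln') =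
        C₁ * 2 ^ (q + ls) / 2 ^ L * (2 ^ hb * (2 ^ L' / 2 ^ Ln')) := by
      rw [pow_add 2 (q + ls + hb) L', pow_add 2 (q + ls) hb, pow_add 2 L Ln']
      field_simp
    rw [e2] at a2
    rw [e3] at a3
    rw [e4] at a4
    have e5 : C₁ * 2 ^ (q + ls) * (1 / 2 ^ Ln + 2 ^ d.lb.g 3 / 2 ^ J +
          2 ^ (Xg + sg + d.lb.g 3) / 2 ^ d.Pr) = C₁ * 2 ^ (q + ls) / 2 ^ Ln +
        C₁ * 2 ^ (q + ls) * (2 ^ d.lb.g 3 / 2 ^ J) +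
        C₁ * 2 ^ (q + ls) * (2 ^ (Xg + sg + d.lb.g 3) / 2 ^ d.Pr) := by ring
    rw [e5]
    linarith
  have hG : (2 : ℝ) ^ Xg * (1 + 2 ^ h₀ * 2 ^ tt) ≤ 2 ^ G := by
    have h2 : (1 : ℝ) + 2 ^ h₀ * 2 ^ tt ≤ 2 ^ (h₀ + tt) * 2 := by
      rw [pow_add]
      have := one_le_mul_of_one_le_of_one_le (h1le h₀) (h1le tt)
      linarith
    calc (2 : ℝ) ^ Xg * (1 + 2 ^ h₀ * 2 ^ tt) ≤ 2 ^ Xg * (2 ^ (h₀ + tt) * 2) :=
          mul_le_mul_of_nonneg_left h2 (hpos _).le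
      _ = 2 ^ (Xg + (h₀ + tt) + 1) := by
          rw [pow_succ, pow_add]
          ring
      _ ≤ _ := two_le (by
          have := hnum.G
          omega)
  have hε : (2 : ℝ) ^ (Xg + 1) / 2 ^ d.Pr ≤ 1 / 2 ^ Pn := by
    rw [div_le_div_iff₀ (hpos _) (hpos _), ← pow_add, one_mul]
    exact two_le (by
      have := hnum.ε
      omega)
  have hμ' : ∀ e, E₁ e → μ ≤ 2 ^ hb * (max 1 (|Pool.PM.gr hK' (yc 3 F c d.lb.P d.lb.z₀ d.lb.g dd e.1)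
      (arM K' (oar J W (F.T e.1) (d.lb.P (d.lb.z₀ (ptr F J e.1))) d.lb.g dd
        (ce 3 F c d.lb.P d.lb.z₀ d.lb.g dd e.1) (d.P (d.lb.z₁ (ptr F J e.1)) 4)))
      (fun i => 1 / 2 ^ sg * chg J W (d.lb.P (d.lb.z₀ (ptr F J e.1))) d.lb.g dd
        (d.lb.P (d.lb.z₀ (ptr F J e.1)) 4) i) 2| / (1 / 2 ^ (sg + d.lb.g 3 + dd))) +
          2 ^ L' / 2 ^ Ln') := by
    intro e he
    rw [hE₁] at he
    obtain ⟨he0, -, -, -, -, -, hmg⟩ := he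
    have hAe := (hsup e he0).1
    rw [hmkg] at hmg
    have h1 := own_gr2 (J := J) c W sg dd hK' htri hdeg d.lb.z₀ d.lb.g e.1
      (p := d.P (d.lb.z₁ (ptr F J e.1)) 4) ((hlab3.deg _ _).trans hKK) (hlab3.tri _ 4)
    rw [h1]
    have h2 : |1 / 2 ^ (sg + d.lb.g 2 + dd) * (2 ^ sg * eval (px c (ptr F J e.1))
        (pderiv 3 (d.P (d.lb.z₁ (ptr F J e.1)) 4)) - eval (px c (ptr F J e.1))
        (pderiv 3 (d.lb.P (d.lb.z₀ (ptr F J e.1)) 4)))| / (1 / 2 ^ (sg + d.lb.g 3 + dd)) =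
        2 ^ d.gU 3 / 2 ^ d.gU 2 * |d.dN (d.z (ptr F J e.1)) (d.u (ptr F J e.1))
        (px c (ptr F J e.1))| := by
      rw [hdN, abs_mul, abs_of_pos (by positivity : (0 : ℝ) < 1 / 2 ^ (sg + d.lb.g 2 + dd))]
      have e1 : (1 : ℝ) / 2 ^ (sg + d.lb.g 2 + dd) / (1 / 2 ^ (sg + d.lb.g 3 + dd)) =
          2 ^ d.gU 3 / 2 ^ d.gU 2 := by
        have e2 : d.lb.g 2 = d.gU 2 := rfl
        have e3 : d.lb.g 3 = d.gU 3 := rfl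
        rw [e2, e3, pow_add, pow_add, pow_add 2 (sg + d.gU 3), pow_add 2 sg (d.gU 3)]
        field_simp
      rw [mul_div_right_comm, e1]
      rfl
    rw [h2]
    have h3 := (hμ e.1 hAe).trans hmg
    refine h3.trans (mul_le_mul_of_nonneg_left ?_ (hpos _).le)
    have : (0 : ℝ) ≤ 2 ^ L' / 2 ^ Ln' := by positivity
    linarith
  obtain ⟨M, hArr, hμM, -⟩ := Pool.PM.arr_of' hK' d.lb hok AF
    (fun κ v T cc => arM K' (oar J W T (d.lb.P v) d.lb.g dd cc (d.P κ 4)))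
    (fun v i => 1 / 2 ^ sg * chg J W (d.lb.P v) d.lb.g dd (d.lb.P v 4) i) br E₁
    (h := h) (θ := θ) (L := L') (Ln := Ln') (Pn := Pn) (G := G) (hb := hb)
    (U := C₁ * 2 ^ (h₀ + L + q + ls) * (1 + 2 ^ (Xg + sg + d.lb.g 3) / 2 ^ d.Pr))
    (Λ₁ := C₁ * 2 ^ (q + ls) * (1 / 2 ^ Ln + 2 ^ d.lb.g 3 / 2 ^ J +
          2 ^ (Xg + sg + d.lb.g 3) / 2 ^ d.Pr)) (Λ₂ := C₁ * 2 ^ (q + ls) / 2 ^ L) (μ := μ)
    (fun e he => by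
      rw [hE₁] at he
      exact hsup e he.1) hfor hown hμ' hU1 hU hτ (by positivity) hΛ hΛ' hG hε
  exact ⟨br, _, _, _, M, E₁, hArr, hμM, hmass⟩

end Pool.TUB
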