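import Pool.Agent.H53.JM.Pair
import Pool.Agent.H5.M3F.Fu
import Pool.Agent.H86.GEO.Def
import Pool.Agent.H86.GEO.Pda

/-!
# H15/GEO/Ful: fullness of the digits in a system which depends on the label

`ful_s`: samples `ω e` of a law `Q`, a label `R e`, a triangular system `G (R e)` with derivatives at
most `L`; the entropies of the positions and of the times given the label give the fullness of the
digits of the exact point in the cells of the system.
-/

set_option autoImplicit false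

namespace Pool.TUB

open Finset Real
open Pool.Agent.H49.Ent Pool.Agent.H32.Dense Pool.STK Pool.KA Pool.KSAT Pool.K2S Pool.PB
  Pool.STAT Pool.STAT.CLO Pool.GEN Pool.M3F Pool.KAF Pool.KAL Pool.KS3 Pool.KJA
open Pool.JPR (log_fin)
open Pool.GEO (xte xte_near xte_dig xte_zero)
open Pool.CLO37 (zsw)

/-- A polynomial which does not depend on the variables from `i` on, with bounded derivatives. -/
theorem lip_tri {d : ℕ} (P : MvPolynomial (Fin d) ℝ) {L ρ : ℝ} (hL : 0 ≤ L) (hρ : 0 ≤ ρ)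
    (hP : ∀ l (b : Fin d → ℝ), |MvPolynomial.eval b (MvPolynomial.pderiv l P)| ≤ L) (i : Fin d)
    (htri : ∀ l, i ≤ l → MvPolynomial.pderiv l P = 0) {u u' : Fin d → ℝ}
    (hu : ∀ l, l < i → |u' l - u l| ≤ ρ) :
    |MvPolynomial.eval u' P - MvPolynomial.eval u P| ≤ d * L * ρ := by
  have h1 := Pool.EXS.mv_seg P (fun l => if l < i then L else 0) (u := u) (u' := u')
    (fun s _ l => by
      by_cases h : l < i
      · rw [if_pos h]
        exact hP l _
      · rw [if_neg h, htri l (not_lt.1 h), map_zero, abs_zero])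
  refine h1.trans ?_
  have h2 : ∀ l ∈ (Finset.univ : Finset (Fin d)), (if l < i then L else 0) * |u' l - u l| ≤
      L * ρ := by
    intro l _
    by_cases h : l < i
    · rw [if_pos h]
      exact mul_le_mul_of_nonneg_left (hu l h) hL
    · rw [if_neg h, zero_mul]
      positivity
  refine (Finset.sum_le_sum h2).trans (le_of_eq ?_)
  rw [Finset.sum_const, Finset.card_univ, Fintype.card_fin, nsmul_eq_mul]
  ring

variable {m J : ℕ} {F : Fam m J} {E Γ : Type} [Fintype E] {Q : E → ℝ}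

/-- The positions given the digits of the exact point. -/
theorem pos_cnt {k W P sx : ℕ} (hQ : IsLaw Q) (ω : E → F.Ω) (R : E → Γ) (c : ℕ → Fin m)
    (hWP : W ≤ P) (hP : P ≤ J) {G : Γ → Fin (k + 1) → MvPolynomial (Fin (k + 1)) ℝ}
    (htri : ∀ e, 0 < Q e → TriP (G (R e))) {L : ℝ} (hL : 0 ≤ L)
    (hgr : ∀ e, 0 < Q e → ∀ i l (b : Fin (k + 1) → ℝ),
      |MvPolynomial.eval b (MvPolynomial.pderiv l (G (R e) i))| ≤ L) :
    CH Q (fun e (i : Fin k) => F.X J (ω e) (c i)) (fun e =>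
      (ndg (2 ^ (P - W)) (G (R e)) (bse (xte c k W P sx F (ω e))), (F.T (ω e), R e))) ≤
      k * (((J - P : ℕ) : ℝ) * Real.log 2 + Real.log (11 + 8 * ((k + 1 : ℕ) : ℝ) * L)) := by
  classical
  obtain ⟨C, hC⟩ : ∃ C : ℝ, C = 5 + 4 * ((k + 1 : ℕ) : ℝ) * L := ⟨_, rfl⟩
  obtain ⟨M, hM⟩ : ∃ M : ℕ, M = 2 ^ (P - W) := ⟨_, rfl⟩
  have hM0 : (0 : ℝ) < M := by
    rw [hM]
    positivity
  have hC0 : 0 ≤ C := by rw [hC]; positivity
  have pJ : (0 : ℝ) < 2 ^ J := by positivity
  have pW : (0 : ℝ) < 2 ^ W := by positivity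
  have eJ : (2 : ℝ) ^ J = 2 ^ (J - P) * M * 2 ^ W := by
    rw [hM]
    push_cast
    rw [← pow_add, ← pow_add]
    congr 1
    omega
  have h1 := Ful.ch_vec hQ (fun e (i : Fin k) => F.X J (ω e) (c i)) (fun e =>
      (ndg (2 ^ (P - W)) (G (R e)) (bse (xte c k W P sx F (ω e))), (F.T (ω e), R e)))
    (fun _ => C * 2 ^ (J - P)) (by
      intro i e e' he he' hZ hj
      rw [← hM] at hZ
      simp only [Prod.mk.injEq] at hZ
      obtain ⟨hn, hT, hR⟩ := hZ
      have hnear : ∀ e : E, ∀ l : Fin (k + 1), |2 ^ W * px c (ptr F J (ω e)) l.val -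
          bse (xte c k W P sx F (ω e)) l| ≤ 2 / M := by
        intro e l
        rw [hM]
        exact xte_near c k sx hWP hP (ω e) (some l)
      have hpx : ∀ l : Fin (k + 1), l < i.succ → px c (ptr F J (ω e)) l.val =
          px c (ptr F J (ω e')) l.val := by
        intro l hl
        refine Fin.cases ?_ (fun l hl => ?_) l hl
        · intro _
          show px c (ptr F J (ω e)) 0 = px c (ptr F J (ω e')) 0
          unfold px
          rw [if_pos rfl, if_pos rfl]
          show (F.T (ω e) : ℝ) / 2 ^ J = (F.T (ω e') : ℝ) / 2 ^ J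
          rw [hT]
        · show px c (ptr F J (ω e)) (l.val + 1) = px c (ptr F J (ω e')) (l.val + 1)
          rw [px_succ, px_succ]
          have h2 : F.X J (ω e) (c l) = F.X J (ω e') (c l) := hj l (Fin.succ_lt_succ_iff.1 hl)
          show (F.X J (ω e) (c l.val) : ℝ) / 2 ^ J = (F.X J (ω e') (c l.val) : ℝ) / 2 ^ J
          rw [h2]
      have hx4 : ∀ l : Fin (k + 1), l < i.succ → |bse (xte c k W P sx F (ω e')) l -
          bse (xte c k W P sx F (ω e)) l| ≤ 4 / M := by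
        intro l hl
        have a1 := hnear e l
        have a2 := hnear e' l
        rw [hpx l hl] at a1
        have e1 : (4 : ℝ) / M = 2 / M + 2 / M := by ring
        rw [e1]
        rw [abs_le] at a1 a2 ⊢
        constructor <;> linarith [a1.1, a1.2, a2.1, a2.2]
      have hG := lip_tri (G (R e) i.succ) hL (by positivity : (0 : ℝ) ≤ 4 / M)
        (fun l b => hgr e he _ l b) i.succ (fun l hl => htri e he _ l hl) hx4
      -- the digits
      have hn' : ⌊(M : ℝ) * (bse (xte c k W P sx F (ω e)) i.succ - MvPolynomial.eval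
          (bse (xte c k W P sx F (ω e))) (G (R e) i.succ))⌋ =
          ⌊(M : ℝ) * (bse (xte c k W P sx F (ω e')) i.succ - MvPolynomial.eval
          (bse (xte c k W P sx F (ω e'))) (G (R e) i.succ))⌋ := by
        have h2 := congrFun hn i.succ
        unfold ndg at h2
        rw [← hR] at h2
        exact h2
      have b5 := Ful.fl_eq hn'
      rw [← mul_sub, abs_mul, abs_of_pos hM0] at b5
      have b6 : |(bse (xte c k W P sx F (ω e)) i.succ - MvPolynomial.eval
          (bse (xte c k W P sx F (ω e))) (G (R e) i.succ)) -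
          (bse (xte c k W P sx F (ω e')) i.succ - MvPolynomial.eval
          (bse (xte c k W P sx F (ω e'))) (G (R e) i.succ))| ≤ 1 / M := by
        rw [le_div_iff₀ hM0, mul_comm]
        exact b5
      have a1 := hnear e i.succ
      have a2 := hnear e' i.succ
      have e3 : px c (ptr F J (ω e)) i.succ.val = (F.X J (ω e) (c i) : ℝ) / 2 ^ J := by
        rw [Fin.val_succ, px_succ]
        rfl
      have e4 : px c (ptr F J (ω e')) i.succ.val = (F.X J (ω e') (c i) : ℝ) / 2 ^ J := by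
        rw [Fin.val_succ, px_succ]
        rfl
      rw [e3] at a1
      rw [e4] at a2
      have b7 : |2 ^ W * ((F.X J (ω e) (c i) : ℝ) / 2 ^ J) -
          2 ^ W * ((F.X J (ω e') (c i) : ℝ) / 2 ^ J)| ≤ C / M := by
        have e1 : C / M = 1 / M + 2 / M + 2 / M + ((k + 1 : ℕ) : ℝ) * L * (4 / M) := by
          rw [hC]
          ring
        rw [e1]
        rw [abs_le] at a1 a2 b6 hG ⊢
        constructor <;> linarith [a1.1, a1.2, a2.1, a2.2, b6.1, b6.2, hG.1, hG.2]
      have e5 : 2 ^ W * ((F.X J (ω e) (c i) : ℝ) / 2 ^ J) -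
          2 ^ W * ((F.X J (ω e') (c i) : ℝ) / 2 ^ J) =
          ((F.X J (ω e) (c i) : ℝ) - F.X J (ω e') (c i)) / (2 ^ (J - P) * M) := by
        rw [eJ]
        field_simp
      have hpos : (0 : ℝ) < 2 ^ (J - P) * M := by positivity
      rw [e5, abs_div, abs_of_pos hpos, div_le_div_iff₀ hpos hM0] at b7
      have b8 : |(F.X J (ω e) (c i) : ℝ) - F.X J (ω e') (c i)| * M ≤ C * 2 ^ (J - P) * M := by
        linarith
      have b9 := le_of_mul_le_mul_right b8 hM0
      push_cast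
      exact b9)
  refine h1.trans ?_
  rw [Finset.sum_const, card_range, nsmul_eq_mul]
  refine mul_le_mul_of_nonneg_left ?_ (Nat.cast_nonneg _)
  have p1 : (1 : ℝ) ≤ 2 ^ (J - P) := one_le_pow₀ (by norm_num)
  have hpos : (0 : ℝ) < 11 + 8 * ((k + 1 : ℕ) : ℝ) * L := by positivity
  rw [← Real.log_pow, ← Real.log_mul (by positivity) hpos.ne']
  refine Real.log_le_log (by positivity) ?_
  rw [hC]
  have : 0 ≤ 8 * ((k + 1 : ℕ) : ℝ) * L := by positivity
  nlinarith

/-- **Fullness of the digits in the cells of a system which depends on the label.** -/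
theorem ful_s {k W P sx : ℕ} (hQ : IsLaw Q) (ω : E → F.Ω) (R : E → Γ) (c : ℕ → Fin m)
    (hWP : W ≤ P) (hP : P ≤ J) {G : Γ → Fin (k + 1) → MvPolynomial (Fin (k + 1)) ℝ}
    (hG0 : ∀ e, 0 < Q e → G (R e) 0 = 0)
    (htri : ∀ e, 0 < Q e → TriP (G (R e))) {L : ℝ} (hL : 0 ≤ L)
    (hgr : ∀ e, 0 < Q e → ∀ i l (b : Fin (k + 1) → ℝ),
      |MvPolynomial.eval b (MvPolynomial.pderiv l (G (R e) i))| ≤ L)
    (N₀ : Fin (k + 1) → ℕ) (hN₀ : ∀ i, 1 ≤ N₀ i) {B : ℝ}
    (hidx : ∀ e e', 0 < Q e → 0 < Q e' → R e = R e' → ∀ i,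
      |((nidx N₀ (ndg (2 ^ (P - W)) (G (R e)) (bse (xte c k W P sx F (ω e)))) i -
        nidx N₀ (ndg (2 ^ (P - W)) (G (R e')) (bse (xte c k W P sx F (ω e')))) i : ℤ) : ℝ)| ≤ B)
    {E₀ T₀ : ℝ}
    (hE : E₀ ≤ CH Q (fun e (i : Fin k) => F.X J (ω e) (c i)) (fun e => (F.T (ω e), R e)))
    (hT : T₀ ≤ CH Q (fun e => F.T (ω e)) R) :
    ∑ i, Real.log (N₀ i) -
      CH Q (fun e => nrem N₀ (ndg (2 ^ (P - W)) (G (R e)) (bse (xte c k W P sx F (ω e)))))
        (fun e => (R e, nidx N₀ (ndg (2 ^ (P - W)) (G (R e)) (bse (xte c k W P sx F (ω e)))))) ≤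
      ∑ i, Real.log (N₀ i) - T₀ - E₀ + ((k + 1 : ℕ) : ℝ) * (((J - P : ℕ) : ℝ) * Real.log 2) +
        k * Real.log (11 + 8 * ((k + 1 : ℕ) : ℝ) * L) + ((k + 1 : ℕ) : ℝ) *
          Real.log (2 * B + 1) := by
  classical
  have hQ0 := hQ.nonneg
  obtain ⟨ng, hng⟩ : ∃ ng : E → Fin (k + 1) → ℤ, ng = fun e =>
    ndg (2 ^ (P - W)) (G (R e)) (bse (xte c k W P sx F (ω e))) := ⟨_, rfl⟩
  have hngd : ∀ e : E, ndg (2 ^ (P - W)) (G (R e)) (bse (xte c k W P sx F (ω e))) = ng e :=
    fun e => by rw [hng]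
  have hpc := pos_cnt (sx := sx) hQ ω R c hWP hP htri hL hgr
  simp only [hngd] at hidx hpc ⊢
  obtain ⟨TP, hTP⟩ : ∃ TP : E → ℕ, TP = fun e => F.T (ω e) / 2 ^ (J - P) := ⟨_, rfl⟩
  have hng0 : ∀ e, 0 < Q e → ng e 0 = (TP e : ℤ) := by
    intro e he
    rw [hng, hTP]
    exact (xte_dig c k W P sx (ω e) (hG0 e he)).2
  -- from the positions to the digits
  have a1 : CH Q ng (fun e => (R e, nidx N₀ (ng e))) ≤ CH Q (fun e => nrem N₀ (ng e))
      (fun e => (R e, nidx N₀ (ng e))) := by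
    refine CH_mono_left hQ0 fun e e' _ _ h => ?_
    simp only [Prod.mk.injEq] at h
    obtain ⟨h2, -, h3⟩ := h
    funext i
    have h4 := nrem_cast hN₀ (ng e) i
    have h5 := nrem_cast hN₀ (ng e') i
    rw [h2, h3] at h4
    linarith
  have a2 : CH Q ng R ≤ CH Q ng (fun e => (R e, nidx N₀ (ng e))) +
      CH Q (fun e => nidx N₀ (ng e)) R := by
    have b1 := CH_le_add hQ0 ng (fun e => nidx N₀ (ng e)) R
    have b2 : CH Q ng (fun e => (nidx N₀ (ng e), R e)) ≤
        CH Q ng (fun e => (R e, nidx N₀ (ng e))) := by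
      refine CH_mono_cond hQ0 fun e e' _ _ h => ?_
      simp only [Prod.mk.injEq] at h ⊢
      exact ⟨h.2, h.1⟩
    linarith
  have a3 : CH Q (fun e => nidx N₀ (ng e)) R ≤ ((k + 1 : ℕ) : ℝ) * Real.log (2 * B + 1) := by
    refine (Ful.ch_vec hQ (fun e => nidx N₀ (ng e)) R (fun _ => B)
      (fun i e e' he he' h _ => hidx e e' he he' h i)).trans (le_of_eq ?_)
    rw [Finset.sum_const, card_range, nsmul_eq_mul]
  have a4 : CH Q (fun e => (ng e, TP e)) R ≤ CH Q ng R := by
    refine CH_mono_left hQ0 fun e e' he he' h => ?_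
    obtain ⟨h2, h3⟩ := Prod.ext_iff.1 h
    have h2' : ng e = ng e' := h2
    refine Prod.ext h2' ?_
    have h5 := congrFun h2' 0
    rw [hng0 e he, hng0 e' he'] at h5
    exact_mod_cast h5
  have a5 := CH_chain hQ0 ng TP R
  have a7 : CH Q (fun e => F.T (ω e)) R ≤ CH Q TP R + ((J - P : ℕ) : ℝ) * Real.log 2 := by
    have b1 := CH_le_add hQ0 (fun e => F.T (ω e)) TP R
    obtain ⟨τ, hτ⟩ : ∃ τ : E → Fin (2 ^ (J - P)), τ = fun e =>
      ⟨F.T (ω e) % 2 ^ (J - P), Nat.mod_lt _ (by positivity)⟩ := ⟨_, rfl⟩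
    have b2 : CH Q (fun e => F.T (ω e)) (fun e => (TP e, R e)) ≤
        CH Q τ (fun e => (TP e, R e)) := by
      refine CH_mono_left hQ0 fun e e' _ _ h => ?_
      obtain ⟨h2, h3⟩ := Prod.ext_iff.1 h
      have h4 : TP e = TP e' := (Prod.ext_iff.1 h3).1
      have h5 : F.T (ω e) % 2 ^ (J - P) = F.T (ω e') % 2 ^ (J - P) := by
        have h6 : τ e = τ e' := h2
        rw [hτ] at h6
        exact congrArg Fin.val h6
      rw [hTP] at h4
      have h7 : F.T (ω e) / 2 ^ (J - P) = F.T (ω e') / 2 ^ (J - P) := h4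
      change F.T (ω e) = F.T (ω e')
      rw [← Nat.div_add_mod (F.T (ω e)) (2 ^ (J - P)),
        ← Nat.div_add_mod (F.T (ω e')) (2 ^ (J - P)), h5, h7]
    have b3 := log_fin (J - P) hQ τ (fun e => (TP e, R e))
    linarith
  have a9 : CH Q ng (fun e => (F.T (ω e), R e)) ≤ CH Q ng (fun e => (TP e, R e)) := by
    refine CH_mono_cond hQ0 fun e e' he he' h => ?_
    simp only [Prod.mk.injEq] at h ⊢
    rw [hTP]
    simp only
    rw [h.1]
    exact ⟨rfl, h.2⟩
  have a10 := CH_le_add hQ0 (fun e (i : Fin k) => F.X J (ω e) (c i)) ng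
    (fun e => (F.T (ω e), R e))
  have e1 : ((k + 1 : ℕ) : ℝ) * (((J - P : ℕ) : ℝ) * Real.log 2) =
      k * (((J - P : ℕ) : ℝ) * Real.log 2) + ((J - P : ℕ) : ℝ) * Real.log 2 := by
    push_cast
    ring
  rw [e1]
  rw [mul_add] at hpc
  linarith

end Pool.TUB
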