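import Pool.Agent.H15.GEO.Sln
import Pool.Agent.H15.GEO.Ful
import Pool.Agent.H15.GEO.Nbv

/-!
# H15/GEO/Pos: the rounded point in the cells

`pos_near`: the position of a point near `x` from the digits of `x`. `bpx`: the rounded point.
`bpx_dpt`: the rounded point in the cell of the affine chart. `nbi_ev`: `nbc_ev` with any finite
index set.
-/

set_option autoImplicit false

namespace Pool.TUB

open Finset Real
open Pool.Agent.H49.Ent Pool.Agent.H32.Dense Pool.STK Pool.KA Pool.KSAT Pool.K2S Pool.PB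
  Pool.STAT Pool.STAT.CLO Pool.GEN Pool.M3F Pool.KAF Pool.KAL Pool.KS3 Pool.KJA Pool.IEN Pool.EXS
open Pool.GEO (gsy gsy_zero gsy_succ gsy_tri gsy_deg xte xte_near)
open Pool.PM (lev nx nt lfv)
open Pool.JPN (ntc ce yc yc_nonneg yc_lt)

/-- The position of a point near `x`. -/
theorem pos_near {d M : ℕ} {N : Fin d → ℕ} {G : Fin d → MvPolynomial (Fin d) ℝ} {L κ : ℝ}
    (hM : 1 ≤ M) (hN : ∀ i, 1 ≤ N i) (hG : TriP G) (hL : 0 ≤ L) (hκ : 0 ≤ κ)
    (hgr : ∀ i l (b : Fin d → ℝ), |MvPolynomial.eval b (MvPolynomial.pderiv l (G i))| ≤ L)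
    {x p : Fin d → ℝ} (h : ∀ i, |p i - x i| ≤ κ / M) (i : Fin d) :
    |rpos M N G (nidx N (ndg M G x)) p i - (nrem N (ndg M G x) i : ℝ) / (N i : ℝ)| ≤
      (1 + κ + d * L * κ) / N i := by
  have hM0 : (0 : ℝ) < M := by exact_mod_cast hM
  have hN0 : (0 : ℝ) < N i := by exact_mod_cast hN i
  have h1 := lip_tri (G i) hL (by positivity : (0 : ℝ) ≤ κ / M) (fun l b => hgr i l b) i
    (fun l hl => hG i l hl) (u := x) (u' := p) (fun l _ => h l)
  have h2 : (nrem N (ndg M G x) i : ℝ) = (ndg M G x i : ℝ) - (nidx N (ndg M G x) i : ℝ) * N i := by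
    have h3 := nrem_cast hN (ndg M G x) i
    exact_mod_cast h3
  have e1 : rpos M N G (nidx N (ndg M G x)) p i - (nrem N (ndg M G x) i : ℝ) / (N i : ℝ) =
      (M * (p i - MvPolynomial.eval p (G i)) - (ndg M G x i : ℝ)) / N i := by
    rw [h2]
    unfold rpos
    field_simp
    ring
  rw [e1, abs_div, abs_of_pos hN0]
  refine div_le_div_of_nonneg_right ?_ hN0.le
  have h4 : |(M : ℝ) * (x i - MvPolynomial.eval x (G i)) - (ndg M G x i : ℝ)| ≤ 1 := by
    unfold ndg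
    have a1 := Int.floor_le ((M : ℝ) * (x i - MvPolynomial.eval x (G i)))
    have a2 := Int.lt_floor_add_one ((M : ℝ) * (x i - MvPolynomial.eval x (G i)))
    rw [abs_le]
    constructor <;> linarith
  have h5 : |(M : ℝ) * ((p i - x i) - (MvPolynomial.eval p (G i) -
      MvPolynomial.eval x (G i)))| ≤ κ + d * L * κ := by
    rw [abs_mul, abs_of_pos hM0]
    have h6 : |(p i - x i) - (MvPolynomial.eval p (G i) - MvPolynomial.eval x (G i))| ≤
        κ / M + d * L * (κ / M) := (abs_sub _ _).trans (add_le_add (h i) h1)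
    calc (M : ℝ) * |(p i - x i) - (MvPolynomial.eval p (G i) - MvPolynomial.eval x (G i))| ≤
          M * (κ / M + d * L * (κ / M)) := mul_le_mul_of_nonneg_left h6 hM0.le
      _ = _ := by field_simp
  have e2 : (M : ℝ) * (p i - MvPolynomial.eval p (G i)) - (ndg M G x i : ℝ) =
      (M * (x i - MvPolynomial.eval x (G i)) - (ndg M G x i : ℝ)) +
        M * ((p i - x i) - (MvPolynomial.eval p (G i) - MvPolynomial.eval x (G i))) := by ring
  rw [e2]
  refine (abs_add_le _ _).trans ?_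
  linarith

/-- `nbc_ev` with any finite index set. -/
theorem nbi_ev (d K : ℕ) (ι : Type) [Fintype ι] : ∃ C : ℝ, 1 ≤ C ∧
    ∀ (V Γ : Type) [Fintype V] (r : V → ℝ) (c : V → Γ) (L : ℕ) (N : Fin d → ℕ)
      (n : V → Fin d → ℤ) (b₀ : Γ → Fin d → ℤ) (v : V → Fin d → ℝ)
      (P : Γ → ι → MvPolynomial (Fin d) ℝ) (h μ : ℝ),
      IsLaw r → 1 ≤ L → (∀ i, 1 ≤ N i) → 0 < h → C * Real.exp h ≤ L →
      (∀ e, 0 < r e → ∀ j, (P (c e) j).totalDegree ≤ K) →
      (∀ e, 0 < r e → nidx (fun i => L * N i) (n e) = b₀ (c e)) →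
      (∀ e, 0 < r e → ∀ i, |v e i - (nrem (fun i => L * N i) (n e) i : ℝ) /
        ((L * N i : ℕ) : ℝ)| ≤ 1 / L) →
      ∑ i, Real.log ((L * N i : ℕ) : ℝ) -
        CH r (fun e => nrem (fun i => L * N i) (n e)) c ≤ μ →
      ms r (fun e => ¬ ∀ j, Nb (2 / L) (v e) (P (c e) j)) ≤ (μ + Real.log 2) / h := by
  classical
  obtain ⟨C, hC, H⟩ := nbc_ev d K (Fintype.card ι)
  refine ⟨C, hC, ?_⟩
  intro V Γ _ r c L N n b₀ v P h μ hr hL hN hh hCL hdeg hb₀ hv hμ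
  have h1 := H V Γ r c L N n b₀ v (fun γ j => P γ ((Fintype.equivFin ι).symm j)) h μ hr hL hN hh
    hCL (fun e he j => hdeg e he _) hb₀ hv hμ
  refine le_trans (ms_le hr.nonneg ?_) h1
  intro e _ hbad hgood
  refine hbad fun j => ?_
  have h2 := hgood (Fintype.equivFin ι j)
  rwa [Equiv.symm_apply_apply] at h2

variable {m J : ℕ} {F : Fam m J}

/-- The rounded point. -/
noncomputable def bpx (F : Fam m J) (c : ℕ → Fin m) (k W : ℕ) (ω : F.Ω) (i : Fin (k + 1)) : ℝ :=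
  2 ^ W * px c (ptr F J ω) i.val

theorem bpx_near (c : ℕ → Fin m) (k : ℕ) {W P : ℕ} (sx : ℕ) (hWP : W ≤ P) (hP : P ≤ J)
    (ω : F.Ω) (i : Fin (k + 1)) :
    |bpx F c k W ω i - bse (xte c k W P sx F ω) i| ≤ 2 / ((2 ^ (P - W) : ℕ) : ℝ) :=
  xte_near c k sx hWP hP ω (some i)

theorem unF_bpx (c : ℕ → Fin m) (k W : ℕ) (ω : F.Ω) {i : ℕ} (hi : i < k + 1) :
    unF (k + 1) W (bpx F c k W ω) i = px c (ptr F J ω) i := by
  unfold unF bpx
  rw [dif_pos hi]
  field_simp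

/-- The values of the polynomials at the rounded point. -/
theorem eval_bpx (c : ℕ → Fin m) (k W : ℕ) (ω : F.Ω) {p : PN} (hp : p.vars ⊆ range (k + 1)) :
    MvPolynomial.eval (bpx F c k W ω) (toF (k + 1) W p) =
      2 ^ W * MvPolynomial.eval (px c (ptr F J ω)) p := by
  rw [eval_toF]
  congr 1
  refine (eval_eq_unF (d := k + 1) (W := W) hp fun i => ?_).symm
  rfl

/-- **The rounded point in the cell of the affine chart.** -/
theorem bpx_dpt {V₀ : Type} (c : ℕ → Fin m) (W : ℕ) {P : V₀ → ℕ → PN} (htri : ∀ v, TriN (P v))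
    (z₀ : PtT F → V₀) (g : ℕ → ℕ) (d : ℕ) (ω : F.Ω) :
    dpt J W (F.T ω) (P (z₀ (ptr F J ω))) g d (ce 3 F c P z₀ g d ω) (yc 3 F c P z₀ g d ω) =
      bpx F c 3 W ω := by
  have pW : (0 : ℝ) < 2 ^ W := by positivity
  refine chi_unique (gsy_tri (htri _)) fun i => ?_
  refine Fin.cases ?_ (fun l => ?_) i
  · rw [gsy_zero, map_zero]
    show bpx F c 3 W ω 0 = 0 + 2 ^ W * ((F.T ω : ℝ) / 2 ^ J) + 0 * _
    have e1 : bpx F c 3 W ω 0 = 2 ^ W * ((F.T ω : ℝ) / 2 ^ J) := by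
      show 2 ^ W * px c (ptr F J ω) 0 = 2 ^ W * ((F.T ω : ℝ) / 2 ^ J)
      have e2 : px c (ptr F J ω) 0 = (F.T ω : ℝ) / 2 ^ J := by
        unfold px
        rw [if_pos rfl]
        rfl
      rw [e2]
    rw [e1]
    ring
  · rw [gsy_succ, eval_bpx c 3 W ω ((htri _ _).trans (Finset.range_mono (by
      have := l.2
      omega)))]
    show 2 ^ W * px c (ptr F J ω) (l.val + 1) = 2 ^ W * MvPolynomial.eval (px c (ptr F J ω))
      (P (z₀ (ptr F J ω)) (l.val + 1)) + 2 ^ W * ((ce 3 F c P z₀ g d ω l : ℝ) / 2 ^ (g l + d)) +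
      2 ^ W * (1 / 2 ^ (g l + d)) * yc 3 F c P z₀ g d ω l
    have e1 : yc 3 F c P z₀ g d ω l = (2 : ℝ) ^ (g l + d) * ntc F c P z₀ ω l -
      ce 3 F c P z₀ g d ω l := rfl
    have e2 : ntc F c P z₀ ω l = px c (ptr F J ω) (l.val + 1) -
      MvPolynomial.eval (px c (ptr F J ω)) (P (z₀ (ptr F J ω)) (l.val + 1)) := rfl
    rw [e1, e2]
    field_simp
    ring

/-- The position of the rounded point in a cell of the slanted system. -/
theorem rpos_bpx {V₀ : Type} (c : ℕ → Fin m) {W W₀ M : ℕ} {P : V₀ → ℕ → PN}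
    (htri : ∀ v, TriN (P v)) (z₀ : PtT F → V₀) {g : ℕ → ℕ} {d : ℕ} {q : Fin 4 → ℝ}
    {N : Fin 4 → ℕ} {b : Fin 4 → ℤ} (hM : 1 ≤ M) (hN : ∀ i, 1 ≤ N i) (ω : F.Ω) :
    rpos M N (gsy 3 W (sls (P (z₀ (ptr F J ω))) g W₀ (F.T1 W₀ ω) q)) b (bpx F c 3 W ω) =
      slv ((2 ^ W * ((F.T ω : ℝ) / 2 ^ J)) * (M / N 0) - b 0)
        (sB (snu W M N g d) q d (nt F W₀ ω) (ce 3 F c P z₀ g d ω) b)
        (sS (snu W M N g d) q) (yc 3 F c P z₀ g d ω) := by
  rw [← bpx_dpt c W htri z₀ g d ω]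
  exact rpos_dpt (htri _) hM hN _

end Pool.TUB
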