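import Pool.Agent.H3.PM.Cnj
import Pool.Agent.H15.GEO.Pos

/-!
# H15/GEO/Cel: the slanted cells of a label

`wdS`, `nwS`: the slanted cells of depth `q` (time, `c 0`, `c 1`, `c 2`), `L` digits thinner in the
direction of `c 2`. `sG`: the slanted system. `lbF`, `lbO`: the label of a pair: the leaf of the
second, of the first sample, in the chart of the first sample. `dgS`: the digits, `ceS`: the cell of
the first sample. `BrS`: a branch of the leaf of the second sample over the cell.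
-/

set_option autoImplicit false

namespace Pool.TUB

open Finset Real
open Pool.Agent.H49.Ent Pool.Agent.H32.Dense Pool.STK Pool.KA Pool.KSAT Pool.K2S Pool.PB
  Pool.STAT Pool.STAT.CLO Pool.GEN Pool.M3F Pool.KAF Pool.KAL Pool.KS3 Pool.KJA
open Pool.GEO (gsy xte)
open Pool.PM (PLab)

/-- The exponents of the widths of the slanted cells. -/
def wdS (W₀ : ℕ) (g : ℕ → ℕ) (L : ℕ) (i : Fin 4) : ℕ :=
  if i = 0 then W₀ else if i = 3 then g 2 + L else g (i.val - 1)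

/-- The slanted cells of depth `q`. -/
def nwS (P W₀ : ℕ) (g : ℕ → ℕ) (L q : ℕ) (i : Fin 4) : ℕ := 2 ^ (P - (wdS W₀ g L i + q))

theorem nwS_pos (P W₀ : ℕ) (g : ℕ → ℕ) (L q : ℕ) (i : Fin 4) : 1 ≤ nwS P W₀ g L q i :=
  Nat.one_le_two_pow

theorem nwS_split {P W₀ : ℕ} {g : ℕ → ℕ} {L q X : ℕ} (h : ∀ i, wdS W₀ g L i + (q + X) ≤ P) :
    nwS P W₀ g L q = fun i => 2 ^ X * nwS P W₀ g L (q + X) i := by
  funext i
  unfold nwS
  rw [← pow_add]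
  congr 1
  have := h i
  omega

variable {m J : ℕ} {F : Fam m J}

/-- The slanted system of a label: `γ.1` the leaf, `γ.2.1` the chart, `γ.2.2` the window. -/
noncomputable def sG (l : PLab F) (W W₀ : ℕ) (lv : l.V₁ → l.V₀ → Fin 4 → ℝ)
    (γ : l.V₁ × (l.V₀ × ℕ)) : Fin 4 → MvPolynomial (Fin 4) ℝ :=
  gsy 3 W (sls (l.P γ.2.1) l.g W₀ γ.2.2 (lv γ.1 γ.2.1))

/-- The leaf of the second sample, in the chart of the first one. -/
noncomputable def lbF (l : PLab F) (W₀ : ℕ) (e : F.Ω × F.Ω) : l.V₁ × (l.V₀ × ℕ) :=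
  (l.z₁ (ptr F J e.2), (l.z₀ (ptr F J e.1), F.T1 W₀ e.1))

/-- The own leaf. -/
noncomputable def lbO (l : PLab F) (W₀ : ℕ) (e : F.Ω × F.Ω) : l.V₁ × (l.V₀ × ℕ) :=
  (l.z₁ (ptr F J e.1), (l.z₀ (ptr F J e.1), F.T1 W₀ e.1))

/-- The digits of the point in the slanted system of `γ`. -/
noncomputable def dgS (l : PLab F) (c : ℕ → Fin m) (W W₀ Pr sg : ℕ)
    (lv : l.V₁ → l.V₀ → Fin 4 → ℝ) (γ : l.V₁ × (l.V₀ × ℕ)) (ω : F.Ω) : Fin 4 → ℤ :=
  ndg (2 ^ (Pr - W)) (sG l W W₀ lv γ) (bse (xte c 3 W Pr sg F ω))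

/-- The slanted cell of depth `q`. -/
noncomputable def ceS (l : PLab F) (c : ℕ → Fin m) (W W₀ Pr sg L q : ℕ)
    (lv : l.V₁ → l.V₀ → Fin 4 → ℝ) (γ : l.V₁ × (l.V₀ × ℕ)) (ω : F.Ω) : Fin 4 → ℤ :=
  nidx (nwS Pr W₀ l.g L q) (dgS l c W W₀ Pr sg lv γ ω)

/-- The position of the rounded point in the cell `b`. -/
noncomputable def poS (l : PLab F) (c : ℕ → Fin m) (W W₀ Pr L q : ℕ)
    (lv : l.V₁ → l.V₀ → Fin 4 → ℝ) (γ : l.V₁ × (l.V₀ × ℕ)) (b : Fin 4 → ℤ) (ω : F.Ω) :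
    Fin 4 → ℝ :=
  rpos (2 ^ (Pr - W)) (nwS Pr W₀ l.g L q) (sG l W W₀ lv γ) b (bpx F c 3 W ω)

/-- **A branch** of the leaf of the second sample over the slanted cell of the first one: the value
at the rounded point, and the gradient on the cell, enlarged. -/
structure BrS (l : PLab F) (c : ℕ → Fin m) (W W₀ Pr sg L q X : ℕ)
    (lv : l.V₁ → l.V₀ → Fin 4 → ℝ) {D n₀ : ℕ}
    (aF : l.V₁ × (l.V₀ × ℕ) → (Fin 4 → ℤ) → Fin D → Fin n₀ → MvPolynomial (Fin 4) ℝ)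
    (e : F.Ω × F.Ω) (k : Fin D) (i : Fin n₀) : Prop where
  val : |2 ^ W * (px c (ptr F J e.1) 4 / 2 ^ sg) - MvPolynomial.eval
      (poS l c W W₀ Pr L q lv (lbF l W₀ e) (ceS l c W W₀ Pr sg L q lv (lbF l W₀ e) e.1) e.1)
      (aF (lbF l W₀ e) (ceS l c W W₀ Pr sg L q lv (lbF l W₀ e) e.1) k i)| ≤
    2 ^ X / 2 ^ (Pr - W)
  grad : ∀ u : Fin 4 → ℝ, (∀ j, |u j| ≤ 2) → ∀ j, |MvPolynomial.eval u (MvPolynomial.pderiv j
      (aF (lbF l W₀ e) (ceS l c W W₀ Pr sg L q lv (lbF l W₀ e) e.1) k i))| ≤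
    2 ^ X * ((nwS Pr W₀ l.g L q j : ℝ) / 2 ^ (Pr - W))

end Pool.TUB
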