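import Pool.Agent.H15.GEO.Aok
import Pool.Agent.H15.GEO.Aff
import Pool.Agent.H15.GEO.Pos

/-!
# H15/GEO/Loc: the fields of the array of a leaf, from the sheets

`plC`: the chart of the height in the coordinates of a slanted cell, `plA`: the sheet of the height
relative to the chart. `loc_aok`: the fields `AOK` of the array of a polynomial `p` of the
coordinates of the cell, from near-constancy and from the two sheets.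
-/

set_option autoImplicit false

namespace Pool.TUB

open Finset MvPolynomial
open Pool.Agent.H49.Ent Pool.Agent.H32.Dense Pool.STK Pool.KA Pool.KSAT Pool.K2S Pool.PB
  Pool.STAT Pool.STAT.CLO Pool.GEN Pool.M3F Pool.KAF Pool.KAL Pool.KS3 Pool.KJA
open Pool.GEO (gsy gsy_zero gsy_succ gsy_tri gsy_deg)
open Pool.PM (lev nx nt lfv gr)
open Pool.JMN (ev shf tdg)
open Pool.SPN (sg1)
open Pool.JPN (ntc ce yc)

/-- The chart of the height in the coordinates of the cell. -/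
noncomputable def plC (W sg M : ℕ) (N : Fin 4 → ℕ) (G : Fin 4 → MvPolynomial (Fin 4) ℝ)
    (b : Fin 4 → ℤ) (p : PN) : MvPolynomial (Fin 4) ℝ :=
  C (1 / 2 ^ sg) * (C (1 / 2 ^ W) * bind₁ (nchi M N G b) (toF 4 W p))

theorem deg_nchi_one {M : ℕ} {N : Fin 4 → ℕ} {G : Fin 4 → MvPolynomial (Fin 4) ℝ}
    {b : Fin 4 → ℤ} (hG : ∀ i, (G i).totalDegree ≤ 1) (i : Fin 4) :
    (nchi M N G b i).totalDegree ≤ 1 := deg_chiN_one G _ _ hG 4 i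

theorem deg_plC {W sg M : ℕ} {N : Fin 4 → ℕ} {G : Fin 4 → MvPolynomial (Fin 4) ℝ}
    {b : Fin 4 → ℤ} (hG : ∀ i, (G i).totalDegree ≤ 1) {p : PN} {K : ℕ} (hp : p.totalDegree ≤ K) :
    (plC W sg M N G b p).totalDegree ≤ K :=
  deg_Cmul _ (deg_Cmul _ (deg_bind (fun i => deg_nchi_one hG i) ((deg_toF p).trans hp)))

/-- The sheet of the height in the coordinates of the cell. -/
noncomputable def plA (κ : ℝ) (q' : Fin 4 → ℝ) (α β : Fin 3 → ℝ) : MvPolynomial (Fin 4) ℝ :=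
  C κ * (C (q' 0) + C (q' 1) * (C (α 0) * MvPolynomial.X 0 + C (β 0)) +
    C (q' 2) * (C (α 1) * MvPolynomial.X 1 + C (β 1)) +
    C (q' 3) * (C (α 2) * MvPolynomial.X 2 + C (β 2)))

theorem eval_plA (κ : ℝ) (q' : Fin 4 → ℝ) (α β : Fin 3 → ℝ) (v : Fin 4 → ℝ) :
    eval v (plA κ q' α β) =
      κ * lev q' (α 0 * v 0 + β 0) (α 1 * v 1 + β 1) (α 2 * v 2 + β 2) := by
  unfold plA lev
  simp only [map_mul, map_add, eval_C, eval_X]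

theorem deg_plA (κ : ℝ) (q' : Fin 4 → ℝ) (α β : Fin 3 → ℝ) :
    (plA κ q' α β).totalDegree ≤ 1 := by
  have h1 : ∀ (a a' : ℝ) (i : Fin 4),
      (C a * MvPolynomial.X i + C a' : MvPolynomial (Fin 4) ℝ).totalDegree ≤ 1 := by
    intro a a' i
    refine deg_add1 (deg_Cmul _ ?_) ?_
    · rw [totalDegree_X]
    · rw [totalDegree_C]
      exact zero_le_one
  unfold plA
  refine deg_Cmul _ (deg_add1 (deg_add1 (deg_add1 ?_ (deg_Cmul _ (h1 _ _ _)))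
    (deg_Cmul _ (h1 _ _ _))) (deg_Cmul _ (h1 _ _ _)))
  rw [totalDegree_C]
  exact zero_le_one

theorem pd_plA (κ : ℝ) (q' : Fin 4 → ℝ) (α β : Fin 3 → ℝ) (v : Fin 4 → ℝ) :
    eval v (pderiv 1 (plA κ q' α β)) = κ * (q' 2 * α 1) ∧
    eval v (pderiv 2 (plA κ q' α β)) = κ * (q' 3 * α 2) := by
  unfold plA
  constructor <;>
  · simp only [Derivation.leibniz, map_add, pderiv_C, pderiv_X, smul_eq_mul, map_mul, eval_C,
      eval_X, map_zero, mul_zero, add_zero, zero_add]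
    simp

/-- The exact point and the rounded point. -/
theorem x_px {m J : ℕ} {F : Fam m J} (c : ℕ → Fin m) (ω : F.Ω) (i : ℕ) :
    |F.x ω (c i) - px c (ptr F J ω) (i + 1)| ≤ 1 / 2 ^ J := by
  rw [px_succ]
  have pJ : (0 : ℝ) < 2 ^ J := by positivity
  have e0 : (((ptr F J ω).1 (c i) : ℤ) : ℝ) = ((F.X J ω (c i) : ℤ) : ℝ) := rfl
  have e1 : F.X J ω (c i) = ⌊(2 : ℝ) ^ J * F.x ω (c i)⌋ := rfl
  rw [e0, e1]
  have h1 := Int.floor_le ((2 : ℝ) ^ J * F.x ω (c i))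
  have h2 := Int.lt_floor_add_one ((2 : ℝ) ^ J * F.x ω (c i))
  have e2 : F.x ω (c i) - (⌊(2 : ℝ) ^ J * F.x ω (c i)⌋ : ℝ) / 2 ^ J =
      ((2 : ℝ) ^ J * F.x ω (c i) - (⌊(2 : ℝ) ^ J * F.x ω (c i)⌋ : ℝ)) / 2 ^ J := by
    field_simp
  rw [e2, abs_div, abs_of_pos pJ]
  refine div_le_div_of_nonneg_right ?_ pJ.le
  rw [abs_le]
  constructor <;> linarith

theorem nat_pos (d g : ℕ) {ce n y : ℝ} (h : y = (2 : ℝ) ^ (g + d) * n - ce) :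
    (ce + y) / 2 ^ d = (2 : ℝ) ^ g * n := by
  rw [h, pow_add]
  field_simp
  ring

/-- **The fields of the array, from the sheets.** -/
theorem loc_aok (K : ℕ) (hK : 1 ≤ K) : ∃ C : ℝ, 1 ≤ C ∧
    ∀ {m J : ℕ} {F : Fam m J} {V₀ : Type} (c : ℕ → Fin m) (W W₀ M sg d : ℕ)
      (P : V₀ → ℕ → PN) (z₀ : PtT F → V₀) (g : ℕ → ℕ) (N : Fin 4 → ℕ) (b : Fin 4 → ℤ)
      (q q' : Fin 4 → ℝ) (ω : F.Ω) (p : MvPolynomial (Fin 4) ℝ) (Gr : Fin 3 → ℝ)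
      (ρ τ H X X₀ ε εd U τ' Λ Gg : ℝ) (G : Fin 4 → MvPolynomial (Fin 4) ℝ) (ν : Fin 3 → ℝ)
      (v : Fin 4 → ℝ),
      G = gsy 3 W (sls (P (z₀ (ptr F J ω))) g W₀ (F.T1 W₀ ω) q) → ν = snu W M N g d →
      v = rpos M N G b (bpx F c 3 W ω) →
      1 ≤ M → (∀ i, 1 ≤ N i) → (∀ v, TriN (P v)) → (∀ v i, (P v i).totalDegree ≤ 1) →
      p.totalDegree ≤ K → 0 < ρ → 0 < τ → τ ≤ 1 → 1 ≤ H → (∀ i, |q i| ≤ H) →
      (∀ l, ν l * H ≤ τ * ρ) → (∀ l, 9 * (ν l * H) ≤ ρ) → (∀ l, ν l ≤ X) →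
      (∀ i : Fin 2, ν (Fin.castSucc i) ≤ X₀) →
      Nb ρ v (p - plC W sg M N G b (P (z₀ (ptr F J ω)) 4)) →
      (∀ l : Fin 3, Nb ρ v (pderiv l.succ (p - plC W sg M N G b (P (z₀ (ptr F J ω)) 4)))) →
      Nb ρ v (p - plC W sg M N G b (P (z₀ (ptr F J ω)) 4) -
        plA (1 / 2 ^ (sg + g 3)) q'
          ![2 ^ W₀ / 2 ^ W * (N 0 / M), 1 / (ν 0 * 2 ^ d), 1 / (ν 1 * 2 ^ d)]
          ![2 ^ W₀ / 2 ^ W * (N 0 / M) * b 0 - F.T1 W₀ ω, 1 / (ν 0 * 2 ^ d) * b 1,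
            1 / (ν 1 * 2 ^ d) * b 2]) →
      (∀ l : Fin 3, ∀ v', (∀ i, |v' i - v i| ≤ ρ) → |eval v' (pderiv l.succ p)| ≤ Gr l) →
      |F.x ω (c 3) / 2 ^ sg - eval v p| ≤ ε → |ntc F c P z₀ ω 3| ≤ 1 / 2 ^ g 3 → g 3 ≤ J →
      |nx F c P z₀ g ω 3 - lfv F c P z₀ g W₀ q' ω| ≤ εd →
      (∀ i, ν i * Gr i + H * (ν 2 * Gr 2) ≤ Gg / 2 ^ (g i + d)) →
      C * H * (X / ρ) * (2 / 2 ^ (sg + g 3) + ε) ≤ U * (1 / 2 ^ (sg + g 3 + d)) →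
      C * τ * H ^ 2 ≤ τ' →
      C * (X₀ / ρ) * (2 / 2 ^ (sg + g 3) * (εd + 2 ^ g 3 / 2 ^ J) + ε) ≤
        Λ * (1 / 2 ^ (sg + g 3 + d)) →
      AOK hK g d (arM K (slc ((2 ^ W * ((F.T ω : ℝ) / 2 ^ J)) * (M / N 0) - b 0)
          (sB ν q d (nt F W₀ ω) (ce 3 F c P z₀ g d ω) b) (sS ν q) p))
        (yc 3 F c P z₀ g d ω)
        (fun i => 1 / 2 ^ sg * chg J W (P (z₀ (ptr F J ω))) g d (P (z₀ (ptr F J ω)) 4) i)
        q q' (F.x ω (c 3) / 2 ^ sg) (1 / 2 ^ (sg + g 3 + d)) U τ' Λ Gg ε := by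
  obtain ⟨C₀, hC₀, h0⟩ := aok_of K hK
  refine ⟨C₀, hC₀, ?_⟩
  intro m J F V₀ c W W₀ M sg d P z₀ g N b q q' ω p Gr ρ τ H X X₀ ε εd U τ' Λ Gg G ν v hGd hνd hvd
    hM hN htri hdeg hp hρ hτ hτ1 hH hq hντ hν9 hνX hνX₀ n1 n2 n3 hGr hx hpos hgJ hdev hGg hU hτ' hΛ
  have hM0 : (0 : ℝ) < M := by exact_mod_cast hM
  have hN0 : ∀ i, (0 : ℝ) < N i := fun i => by exact_mod_cast hN i
  have hνp : ∀ l, 0 < ν l := fun l => by
    rw [hνd]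
    unfold snu
    have := hN0 l.succ
    positivity
  obtain ⟨u0, hu0⟩ : ∃ v₀, v₀ = z₀ (ptr F J ω) := ⟨_, rfl⟩
  rw [← hu0] at hGd n1 n2 n3 ⊢
  obtain ⟨pc, hpc⟩ : ∃ pc, pc = plC W sg M N G b (P u0 4) := ⟨_, rfl⟩
  rw [← hpc] at n1 n2 n3
  obtain ⟨pA, hpA⟩ : ∃ pA, pA = plA (1 / 2 ^ (sg + g 3)) q'
          ![2 ^ W₀ / 2 ^ W * (N 0 / M), 1 / (ν 0 * 2 ^ d), 1 / (ν 1 * 2 ^ d)]
          ![2 ^ W₀ / 2 ^ W * (N 0 / M) * b 0 - F.T1 W₀ ω, 1 / (ν 0 * 2 ^ d) * b 1,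
            1 / (ν 1 * 2 ^ d) * b 2] := ⟨_, rfl⟩
  rw [← hpA] at n3
  have hGt : TriP G := by
    rw [hGd]
    exact gsy_tri (sls_tri (htri _) g W₀ _ q)
  have hG1 : ∀ i, (G i).totalDegree ≤ 1 := by
    intro i
    rw [hGd]
    exact gsy_deg (sls_deg (hdeg _) g W₀ _ q) i
  have hv : v = slv ((2 ^ W * ((F.T ω : ℝ) / 2 ^ J)) * (M / N 0) - b 0)
      (sB ν q d (nt F W₀ ω) (ce 3 F c P z₀ g d ω) b) (sS ν q) (yc 3 F c P z₀ g d ω) := by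
    rw [hvd, hGd, hνd, hu0]
    exact rpos_bpx c htri z₀ hM hN ω
  obtain ⟨y, hy⟩ : ∃ y, y = yc 3 F c P z₀ g d ω := ⟨_, rfl⟩
  obtain ⟨cc, hcc⟩ : ∃ cc, cc = ce 3 F c P z₀ g d ω := ⟨_, rfl⟩
  rw [← hy, ← hcc] at hv ⊢
  -- the values
  have hev : ∀ (Q : PN), Q.vars ⊆ range 4 → eval v (C (1 / 2 ^ W) * bind₁ (nchi M N G b)
      (toF 4 W Q)) = eval (px c (ptr F J ω)) Q := by
    intro Q hQ
    have pW : (0 : ℝ) < 2 ^ W := by positivity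
    rw [map_mul, eval_C, Pool.M3F.eval_bind, hvd, nchi_rpos hM hN hGt, eval_bpx c 3 W ω hQ]
    field_simp
  have hpcv : eval v pc = 1 / 2 ^ sg * eval (px c (ptr F J ω)) (P u0 4) := by
    rw [hpc]
    unfold plC
    rw [map_mul, eval_C, hev _ (htri u0 4)]
  have hyi : ∀ l : Fin 3, y l = (2 : ℝ) ^ (g l + d) * ntc F c P z₀ ω l - cc l := fun l => by
    rw [hy, hcc]
    rfl
  have hv0 : v 0 = (2 ^ W * ((F.T ω : ℝ) / 2 ^ J)) * (M / N 0) - b 0 := by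
    rw [hv, slv_zero]
  obtain ⟨s0, s1, -⟩ := sS_sum ν q y
  have hv1 : v 1 = ν 0 * (cc 0 + y 0) - b 1 := by
    have e1 : v 1 = v (Fin.succ 0) := rfl
    rw [e1, hv, slv_succ, s0]
    unfold sB
    rw [if_neg (by decide)]
    ring_nf
    rfl
  have hv2 : v 2 = ν 1 * (cc 1 + y 1) - b 2 := by
    have e1 : v 2 = v (Fin.succ 1) := rfl
    rw [e1, hv, slv_succ, s1]
    unfold sB
    rw [if_neg (by decide)]
    ring_nf
    rfl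
  have hpAv : eval v pA = 1 / 2 ^ (sg + g 3) * lfv F c P z₀ g W₀ q' ω := by
    rw [hpA, eval_plA]
    unfold lfv
    refine congrArg (fun t : ℝ => 1 / 2 ^ (sg + g 3) * t) ?_
    have e0 : (![2 ^ W₀ / 2 ^ W * (N 0 / M), 1 / (ν 0 * 2 ^ d), 1 / (ν 1 * 2 ^ d)] : Fin 3 → ℝ) 0 *
        v 0 + (![2 ^ W₀ / 2 ^ W * (N 0 / M) * b 0 - F.T1 W₀ ω, 1 / (ν 0 * 2 ^ d) * b 1,
            1 / (ν 1 * 2 ^ d) * b 2] : Fin 3 → ℝ) 0 = nt F W₀ ω := by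
      show 2 ^ W₀ / 2 ^ W * (N 0 / M) * v 0 + (2 ^ W₀ / 2 ^ W * (N 0 / M) * b 0 - F.T1 W₀ ω) =
        2 ^ W₀ * ((F.T ω : ℝ) / 2 ^ J) - F.T1 W₀ ω
      rw [hv0]
      have := hN0 0
      field_simp
      ring
    have e1 : (![2 ^ W₀ / 2 ^ W * (N 0 / M), 1 / (ν 0 * 2 ^ d), 1 / (ν 1 * 2 ^ d)] : Fin 3 → ℝ) 1 *
        v 1 + (![2 ^ W₀ / 2 ^ W * (N 0 / M) * b 0 - F.T1 W₀ ω, 1 / (ν 0 * 2 ^ d) * b 1,
            1 / (ν 1 * 2 ^ d) * b 2] : Fin 3 → ℝ) 1 = nx F c P z₀ g ω 0 := by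
      show 1 / (ν 0 * 2 ^ d) * v 1 + 1 / (ν 0 * 2 ^ d) * b 1 = (2 : ℝ) ^ g 0 * ntc F c P z₀ ω 0
      rw [hv1]
      have h1 := nat_pos d (g 0) (hyi 0)
      have h2 := hνp 0
      have h3 : (2 : ℝ) ^ g 0 * ntc F c P z₀ ω 0 = (cc 0 + y 0) / 2 ^ d := h1.symm
      rw [h3]
      field_simp
      ring
    have e2 : (![2 ^ W₀ / 2 ^ W * (N 0 / M), 1 / (ν 0 * 2 ^ d), 1 / (ν 1 * 2 ^ d)] : Fin 3 → ℝ) 2 *
        v 2 + (![2 ^ W₀ / 2 ^ W * (N 0 / M) * b 0 - F.T1 W₀ ω, 1 / (ν 0 * 2 ^ d) * b 1,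
            1 / (ν 1 * 2 ^ d) * b 2] : Fin 3 → ℝ) 2 = nx F c P z₀ g ω 1 := by
      show 1 / (ν 1 * 2 ^ d) * v 2 + 1 / (ν 1 * 2 ^ d) * b 2 = (2 : ℝ) ^ g 1 * ntc F c P z₀ ω 1
      rw [hv2]
      have h1 := nat_pos d (g 1) (hyi 1)
      have h2 := hνp 1
      have h3 : (2 : ℝ) ^ g 1 * ntc F c P z₀ ω 1 = (cc 1 + y 1) / 2 ^ d := h1.symm
      rw [h3]
      field_simp
      ring
    rw [e0, e1, e2]
  -- the height
  obtain ⟨ξ, hξ⟩ : ∃ ξ, ξ = px c (ptr F J ω) := ⟨_, rfl⟩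
  have hn3 : ntc F c P z₀ ω 3 = ξ 4 - eval ξ (P u0 4) := by
    rw [hξ, hu0]
    rfl
  have hx3 : |F.x ω (c 3) - ξ 4| ≤ 1 / 2 ^ J := by
    rw [hξ]
    exact x_px c ω 3
  rw [← hξ] at hpcv
  have psg : (0 : ℝ) < 2 ^ sg := by positivity
  have pg : (0 : ℝ) < 2 ^ g 3 := by positivity
  have hJg : (1 : ℝ) / 2 ^ J ≤ 1 / 2 ^ g 3 :=
    one_div_le_one_div_of_le pg (pow_le_pow_right₀ (by norm_num) hgJ)
  have hxc : |F.x ω (c 3) / 2 ^ sg - eval v pc| ≤ 2 / 2 ^ (sg + g 3) := by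
    rw [hpcv]
    have e1 : F.x ω (c 3) / 2 ^ sg - 1 / 2 ^ sg * eval ξ (P u0 4) =
        ((F.x ω (c 3) - ξ 4) + ntc F c P z₀ ω 3) / 2 ^ sg := by
      rw [hn3]
      field_simp
      ring
    rw [e1, abs_div, abs_of_pos psg, pow_add, ← div_div, div_right_comm]
    refine div_le_div_of_nonneg_right ?_ psg.le
    refine (abs_add_le _ _).trans ?_
    have e2 : (2 : ℝ) / 2 ^ g 3 = 1 / 2 ^ g 3 + 1 / 2 ^ g 3 := by ring
    rw [e2]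
    linarith
  have hxA : |F.x ω (c 3) / 2 ^ sg - eval v pc - eval v pA| ≤
      2 / 2 ^ (sg + g 3) * (εd + 2 ^ g 3 / 2 ^ J) := by
    have hεd : 0 ≤ εd := (abs_nonneg _).trans hdev
    rw [hpcv, hpAv]
    have e1 : F.x ω (c 3) / 2 ^ sg - 1 / 2 ^ sg * eval ξ (P u0 4) -
        1 / 2 ^ (sg + g 3) * lfv F c P z₀ g W₀ q' ω =
        ((F.x ω (c 3) - ξ 4) + (nx F c P z₀ g ω 3 - lfv F c P z₀ g W₀ q' ω) / 2 ^ g 3) /
          2 ^ sg := by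
      have e2 : nx F c P z₀ g ω 3 = 2 ^ g 3 * (ξ 4 - eval ξ (P u0 4)) := by
        rw [← hn3]
        rfl
      rw [e2, pow_add]
      field_simp
      ring
    rw [e1, abs_div, abs_of_pos psg]
    have e3 : |(F.x ω (c 3) - ξ 4) + (nx F c P z₀ g ω 3 - lfv F c P z₀ g W₀ q' ω) / 2 ^ g 3| ≤
        1 / 2 ^ J + εd / 2 ^ g 3 := by
      refine (abs_add_le _ _).trans (add_le_add hx3 ?_)
      rw [abs_div, abs_of_pos pg]
      exact div_le_div_of_nonneg_right hdev pg.le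
    have e4 : (1 : ℝ) / 2 ^ J = 2 ^ g 3 / 2 ^ J / 2 ^ g 3 := by field_simp
    have e5 : 2 / 2 ^ (sg + g 3) * (εd + 2 ^ g 3 / 2 ^ J) =
        2 * (2 ^ g 3 / 2 ^ J / 2 ^ g 3 + εd / 2 ^ g 3) / 2 ^ sg := by
      rw [pow_add]
      field_simp
      ring
    rw [e5]
    refine div_le_div_of_nonneg_right ?_ psg.le
    rw [e4] at e3
    have e6 : 0 ≤ (2 : ℝ) ^ g 3 / 2 ^ J / 2 ^ g 3 := by positivity
    have e7 : 0 ≤ εd / 2 ^ g 3 := div_nonneg hεd pg.le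
    linarith
  have hslc : slc ((2 ^ W * ((F.T ω : ℝ) / 2 ^ J)) * (M / N 0) - b 0)
      (sB ν q d (nt F W₀ ω) cc b) (sS ν q) pc =
      C (1 / 2 ^ sg) * oar J W (F.T ω) (P u0) g d cc (P u0 4) := by
    have h1 := slc_oar (J := J) (W := W) (T := F.T ω) (W₀ := W₀) (T₁ := F.T1 W₀ ω) (htri u0)
      (g := g) (d := d) (ce := cc) (q := q) (b := b) hM hN (P u0 4)
    have h2 : nt F W₀ ω = 2 ^ W₀ * ((F.T ω : ℝ) / 2 ^ J) - F.T1 W₀ ω := rfl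
    rw [hpc]
    unfold plC
    rw [h2, hνd, hGd]
    rw [← h1]
    refine MvPolynomial.funext fun z => ?_
    rw [eval_slc, map_mul, eval_C, map_mul (eval z), eval_C, eval_slc]
  have key := h0 g d p pc pA ((2 ^ W * ((F.T ω : ℝ) / 2 ^ J)) * (M / N 0) - b 0)
    (sB ν q d (nt F W₀ ω) cc b) ν q q' y
    (fun i => 1 / 2 ^ sg * chg J W (P u0) g d (P u0 4) i) Gr ρ τ H X X₀ (2 / 2 ^ (sg + g 3))
    (F.x ω (c 3) / 2 ^ sg) (1 / 2 ^ (sg + g 3 + d)) ε (εd + 2 ^ g 3 / 2 ^ J) U τ' Λ Gg hp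
    (by
      rw [hpc]
      exact deg_plC hG1 (hdeg _ _))
    (by
      rw [hpA]
      exact deg_plA _ _ _ _)
    (fun i => by
      rw [hy]
      exact ⟨Pool.JPN.yc_nonneg _ _, (Pool.JPN.yc_lt _ _).le⟩)
    hρ hτ hτ1 (fun l => (hνp l).le) hH hq hντ hν9 hνX hνX₀
  rw [← hv] at key
  refine key n1 n2 n3 hGr ?_ ?_ hx hxc hxA hGg hU hτ' hΛ
  · intro i
    have h1 := pd_plA (1 / 2 ^ (sg + g 3)) q'
          ![2 ^ W₀ / 2 ^ W * (N 0 / M), 1 / (ν 0 * 2 ^ d), 1 / (ν 1 * 2 ^ d)]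
          ![2 ^ W₀ / 2 ^ W * (N 0 / M) * b 0 - F.T1 W₀ ω, 1 / (ν 0 * 2 ^ d) * b 1,
            1 / (ν 1 * 2 ^ d) * b 2] v
    rw [← hpA] at h1
    have hi : i = 0 ∨ i = 1 := by
      fin_cases i
      · exact Or.inl rfl
      · exact Or.inr rfl
    rcases hi with rfl | rfl
    · have h2 : eval v (pderiv (Fin.castSucc (0 : Fin 2)).succ pA) =
          1 / 2 ^ (sg + g 3) * (q' 2 * (1 / (ν 0 * 2 ^ d))) := h1.1
      have h3 := hνp 0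
      have e1 : ν (Fin.castSucc (0 : Fin 2)) = ν 0 := rfl
      have e2 : q' (Fin.natAdd 2 (0 : Fin 2)) = q' 2 := rfl
      rw [h2, e1, e2, pow_add _ (sg + g 3) d]
      field_simp
    · have h2 : eval v (pderiv (Fin.castSucc (1 : Fin 2)).succ pA) =
          1 / 2 ^ (sg + g 3) * (q' 3 * (1 / (ν 1 * 2 ^ d))) := h1.2
      have h3 := hνp 1
      have e1 : ν (Fin.castSucc (1 : Fin 2)) = ν 1 := rfl
      have e2 : q' (Fin.natAdd 2 (1 : Fin 2)) = q' 3 := rfl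
      rw [h2, e1, e2, pow_add _ (sg + g 3) d]
      field_simp
  · intro i
    rw [hslc]
    have hda : (C (1 / 2 ^ sg) * oar J W (F.T ω) (P u0) g d cc (P u0 4)).totalDegree ≤ K :=
      (deg_Cmul _ (deg_oar (hdeg u0) g d cc (hdeg u0 4))).trans hK
    have h1 := shf_one hda y (sg1 hK i) i (fun l => by
      unfold sg1
      split_ifs
      · rfl
      · rfl)
    rw [h1, pderiv_C_mul, map_mul, eval_C, chg_eq (htri u0) (hdeg u0) g d cc (hdeg u0 4)]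

end Pool.TUB
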