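import Pool.Agent.H3.PM.Dat
import Pool.Agent.H15.GEO.Loc
import Pool.Agent.H15.GEO.Cel

/-!
# H15/GEO/Own: the own leaf in the cells

`plO`: the leaf of a label in the coordinates of a cell: value, gradient. `own_gr2`: the coefficient
of the array in the direction of `c 2` is the slope of the height, relative to the chart.
-/

set_option autoImplicit false

namespace Pool.TUB

open Finset MvPolynomial
open Pool.Agent.H49.Ent Pool.Agent.H32.Dense Pool.STK Pool.KA Pool.KSAT Pool.K2S Pool.PB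
  Pool.STAT Pool.STAT.CLO Pool.GEN Pool.M3F Pool.KAF Pool.KAL Pool.KS3 Pool.KJA
open Pool.GEO (gsy gsy_zero gsy_succ gsy_tri gsy_deg)
open Pool.PM (lev nx nt lfv)
open Pool.JMN (ev shf tdg)
open Pool.SPN (sg1)
open Pool.JPN (ntc ce yc)

/-- The leaf of a label in the coordinates of the cell. -/
noncomputable def plO (W M : ℕ) (N : Fin 4 → ℕ) (G : Fin 4 → MvPolynomial (Fin 4) ℝ)
    (b : Fin 4 → ℤ) (p : PN) : MvPolynomial (Fin 4) ℝ :=
  C (1 / 2 ^ W) * bind₁ (nchi M N G b) (toF 4 W p)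

theorem deg_plO {W M : ℕ} {N : Fin 4 → ℕ} {G : Fin 4 → MvPolynomial (Fin 4) ℝ}
    {b : Fin 4 → ℤ} (hG : ∀ i, (G i).totalDegree ≤ 1) {p : PN} {K : ℕ} (hp : p.totalDegree ≤ K) :
    (plO W M N G b p).totalDegree ≤ K :=
  deg_Cmul _ (deg_bind (fun i => deg_nchi_one hG i) ((deg_toF p).trans hp))

section val

variable {m J : ℕ} {F : Fam m J} {c : ℕ → Fin m} {W M : ℕ} {N : Fin 4 → ℕ}
  {G : Fin 4 → MvPolynomial (Fin 4) ℝ} {b : Fin 4 → ℤ}

theorem own_val (hM : 1 ≤ M) (hN : ∀ i, 1 ≤ N i) (hG : TriP G) {p : PN} (hp : p.vars ⊆ range 4)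
    (ω : F.Ω) : eval (rpos M N G b (bpx F c 3 W ω)) (plO W M N G b p) =
      eval (px c (ptr F J ω)) p := by
  have pW : (0 : ℝ) < 2 ^ W := by positivity
  unfold plO
  rw [map_mul, eval_C, Pool.M3F.eval_bind, nchi_rpos hM hN hG, eval_bpx c 3 W ω hp]
  field_simp

/-- The gradient at the rounded point. -/
theorem own_grad (hM : 1 ≤ M) (hN : ∀ i, 1 ≤ N i) (hG : TriP G) {Lg L : ℝ} (hLg : 0 ≤ Lg)
    (hL : 0 ≤ L) (hgr : ∀ i l (x : Fin 4 → ℝ), |eval x (pderiv l (G i))| ≤ Lg) {p : PN}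
    (ω : F.Ω) (hp : ∀ l < 4, |eval (px c (ptr F J ω)) (pderiv l p)| ≤ L)
    (hv : p.vars ⊆ range 4) (l : Fin 4) :
    |eval (rpos M N G b (bpx F c 3 W ω)) (pderiv l (plO W M N G b p))| ≤
      4 * L * (1 + 4 * Lg) ^ 5 * ((N l : ℝ) / M) / 2 ^ W := by
  have pW : (0 : ℝ) < 2 ^ W := by positivity
  have hM0 : (0 : ℝ) < M := by exact_mod_cast hM
  have hN0 : ∀ i, (0 : ℝ) < N i := fun i => by exact_mod_cast hN i
  have hw : ∀ i, 0 < nwid M N i := fun i => by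
    have := hN0 i
    unfold nwid
    positivity
  have hB1 : 1 ≤ 1 + 4 * Lg := by linarith
  obtain ⟨v, hvd⟩ : ∃ v, v = rpos M N G b (bpx F c 3 W ω) := ⟨_, rfl⟩
  have hcv : cpt (nchi M N G b) v = bpx F c 3 W ω := by
    rw [hvd]
    exact nchi_rpos hM hN hG _
  rw [← hvd]
  have hχ : ∀ o, |eval v (pderiv l (nchi M N G b o))| ≤ ((N l : ℝ) / M) * (1 + 4 * Lg) ^ 5 := by
    intro o
    have h1 := abs_pderiv_chiN G hG (ncor M N b) (nwid M N) hw Lg hLg v
      (fun i l => hgr i l _) o l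
    refine h1.trans (mul_le_mul_of_nonneg_left ?_ (hw l).le)
    have h2 : (1 : ℝ) + ((4 : ℕ) : ℝ) * Lg = 1 + 4 * Lg := by norm_num
    rw [h2]
    exact pow_le_pow_right₀ hB1 (by have := o.2; omega)
  have hQ : ∀ o : Fin 4, |eval (bpx F c 3 W ω) (pderiv o (toF 4 W p))| ≤ L := by
    intro o
    have h0 : eval (bpx F c 3 W ω) (pderiv o (toF 4 W p)) =
        eval (unF 4 W (bpx F c 3 W ω)) (pderiv o.val p) := eval_pderiv_toF _ _ _
    have h1 : (pderiv o.val p).vars ⊆ range 4 := (Pool.GEO.vars_pd _ _).trans hv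
    have h2 : eval (px c (ptr F J ω)) (pderiv o.val p) =
        eval (unF 4 W (bpx F c 3 W ω)) (pderiv o.val p) :=
      eval_eq_unF (d := 4) (W := W) h1 fun i => rfl
    rw [h0, ← h2]
    exact hp o.val o.2
  unfold plO
  rw [pderiv_C_mul, Pool.M3F.pderiv_bind, map_mul, eval_C, map_sum, abs_mul]
  have h1 : |∑ o, eval v (bind₁ (nchi M N G b) (pderiv o (toF 4 W p)) *
      pderiv l (nchi M N G b o))| ≤ 4 * (L * (((N l : ℝ) / M) * (1 + 4 * Lg) ^ 5)) := by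
    have h2 : ∀ o ∈ (Finset.univ : Finset (Fin 4)),
        |eval v (bind₁ (nchi M N G b) (pderiv o (toF 4 W p)) * pderiv l (nchi M N G b o))| ≤
        L * (((N l : ℝ) / M) * (1 + 4 * Lg) ^ 5) := by
      intro o _
      rw [map_mul, Pool.M3F.eval_bind, hcv, abs_mul]
      exact mul_le_mul (hQ o) (hχ o) (abs_nonneg _) hL
    refine (Finset.abs_sum_le_sum_abs _ _).trans ((Finset.sum_le_sum h2).trans ?_)
    rw [Finset.sum_const, Finset.card_univ, Fintype.card_fin, nsmul_eq_mul]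
    norm_num
  have h3 : |(1 : ℝ) / 2 ^ W| = 1 / 2 ^ W := abs_of_pos (by positivity)
  rw [h3]
  calc 1 / 2 ^ W * |∑ o, eval v (bind₁ (nchi M N G b) (pderiv o (toF 4 W p)) *
      pderiv l (nchi M N G b o))| ≤
      1 / 2 ^ W * (4 * (L * (((N l : ℝ) / M) * (1 + 4 * Lg) ^ 5))) :=
        mul_le_mul_of_nonneg_left h1 (by positivity)
    _ = _ := by ring

end val

/-- The last chart function. -/
theorem pd_chi_last {g : Fin 4 → MvPolynomial (Fin 4) ℝ} (hg : TriP g) (c w : Fin 4 → ℝ) :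
    (∀ o : Fin 4, o < 3 → pderiv 3 (chi g c w o) = 0) ∧ pderiv 3 (chi g c w 3) = C (w 3) := by
  have h1 : ∀ o : Fin 4, o < 3 → pderiv 3 (chi g c w o) = 0 := fun o ho =>
    pderiv_chiN_zero g hg c w 4 o 3 ho
  refine ⟨h1, ?_⟩
  have e1 : chi g c w 3 = bind₁ (chi g c w) (g 3) + C (c 3) + C (w 3) * MvPolynomial.X 3 := by
    refine MvPolynomial.funext fun u => ?_
    rw [map_add, map_add, map_mul, eval_C, eval_C, eval_X, Pool.M3F.eval_bind]
    exact eval_chi g hg c w u 3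
  have e2 : pderiv 3 (bind₁ (chi g c w) (g 3)) = 0 := by
    rw [Pool.M3F.pderiv_bind]
    refine Finset.sum_eq_zero fun r _ => ?_
    by_cases hr : r < 3
    · rw [h1 r hr, mul_zero]
    · rw [hg 3 r (not_lt.1 hr), map_zero, zero_mul]
  conv_lhs => rw [e1]
  rw [map_add, map_add, e2, pderiv_C, Derivation.leibniz, pderiv_C, pderiv_X_self]
  simp

/-- The derivative in the direction of `c 2`. -/
theorem pd_oar {J W T : ℕ} {P : ℕ → PN} (hP : TriN P) (g : ℕ → ℕ) (d : ℕ) (ce : Fin 3 → ℤ)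
    (p : PN) (y : Fin 3 → ℝ) : eval y (pderiv 2 (oar J W T P g d ce p)) =
      1 / 2 ^ (g 2 + d) * eval (unF 4 W (dpt J W T P g d ce y)) (pderiv 3 p) := by
  have pW : (0 : ℝ) < 2 ^ W := by positivity
  unfold oar ids
  rw [pderiv_C_mul, map_mul, eval_C, pd_slc]
  have hsl : slv (0 : ℝ) (fun _ => 0) (fun l i : Fin 3 => if l = i then (1 : ℝ) else 0) y =
      (Fin.cons 0 y : Fin 4 → ℝ) := by
    funext i
    refine Fin.cases ?_ (fun l => ?_) i
    · rfl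
    · rw [slv_succ, Fin.cons_succ, zero_add, Finset.sum_eq_single l]
      · rw [if_pos rfl, one_mul]
      · intro j _ hj
        rw [if_neg (Ne.symm hj), zero_mul]
      · intro h
        exact absurd (Finset.mem_univ _) h
  rw [hsl]
  have e1 : ∑ l : Fin 3, (if l = 2 then (1 : ℝ) else 0) *
      eval (Fin.cons 0 y : Fin 4 → ℝ) (pderiv l.succ (bind₁ (dchi J W T P g d ce) (toF 4 W p))) =
      eval (Fin.cons 0 y : Fin 4 → ℝ) (pderiv 3 (bind₁ (dchi J W T P g d ce) (toF 4 W p))) := by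
    rw [Finset.sum_eq_single 2]
    · rw [if_pos rfl, one_mul]
      rfl
    · intro j _ hj
      rw [if_neg hj, zero_mul]
    · intro h
      exact absurd (Finset.mem_univ _) h
  rw [e1, Pool.M3F.pderiv_bind, map_sum, Finset.sum_eq_single 3]
  · have h1 := (pd_chi_last (gsy_tri (k := 3) (W := W) hP) (dco J W T g d ce) (dwi W g d)).2
    have h2 : pderiv 3 (dchi J W T P g d ce 3) = C (dwi W g d 3) := h1
    have h3 : dwi W g d 3 = 2 ^ W * (1 / 2 ^ (g 2 + d)) := rfl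
    have h4 : cpt (dchi J W T P g d ce) (Fin.cons 0 y : Fin 4 → ℝ) = dpt J W T P g d ce y := rfl
    have h5 : eval (dpt J W T P g d ce y) (pderiv 3 (toF 4 W p)) =
        eval (unF 4 W (dpt J W T P g d ce y)) (pderiv 3 p) := eval_pderiv_toF _ _ 3
    rw [h2, h3, map_mul, eval_C, Pool.M3F.eval_bind, h4, h5]
    field_simp
  · intro o _ ho
    have h1 : o < 3 := lt_of_le_of_ne (Fin.le_last o) ho
    have h2 : pderiv 3 (dchi J W T P g d ce o) = 0 :=
      (pd_chi_last (gsy_tri hP) (dco J W T g d ce) (dwi W g d)).1 o h1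
    rw [h2, mul_zero, map_zero]
  · intro h
    exact absurd (Finset.mem_univ _) h

/-- **The coefficient in the direction of `c 2` is the slope of the height.** -/
theorem own_gr2 {m J : ℕ} {F : Fam m J} {V₀ : Type} (c : ℕ → Fin m) (W sg d : ℕ) {K : ℕ}
    (hK : 1 ≤ K) {P : V₀ → ℕ → PN} (htri : ∀ v, TriN (P v))
    (hdeg : ∀ v i, (P v i).totalDegree ≤ 1) (z₀ : PtT F → V₀) (g : ℕ → ℕ) (ω : F.Ω) {p : PN}
    (hp : p.totalDegree ≤ K) (hv : p.vars ⊆ range 4) :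
    Pool.PM.gr hK (yc 3 F c P z₀ g d ω) (arM K (oar J W (F.T ω) (P (z₀ (ptr F J ω))) g d
        (ce 3 F c P z₀ g d ω) p))
      (fun i => 1 / 2 ^ sg * chg J W (P (z₀ (ptr F J ω))) g d (P (z₀ (ptr F J ω)) 4) i) 2 =
      1 / 2 ^ (sg + g 2 + d) * (2 ^ sg * eval (px c (ptr F J ω)) (pderiv 3 p) -
        eval (px c (ptr F J ω)) (pderiv 3 (P (z₀ (ptr F J ω)) 4))) := by
  obtain ⟨u0, hu0⟩ : ∃ v₀, v₀ = z₀ (ptr F J ω) := ⟨_, rfl⟩
  obtain ⟨y, hy⟩ : ∃ y, y = yc 3 F c P z₀ g d ω := ⟨_, rfl⟩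
  obtain ⟨cc, hcc⟩ : ∃ cc, cc = ce 3 F c P z₀ g d ω := ⟨_, rfl⟩
  have hbp := bpx_dpt c W htri z₀ g d ω
  rw [← hu0, ← hy, ← hcc] at hbp
  rw [← hu0, ← hy, ← hcc]
  unfold Pool.PM.gr
  have h1 := shf_one (deg_oar (hdeg u0) g d cc hp (J := J) (W := W) (T := F.T ω)) y (sg1 hK 2) 2
    (fun l => by
      unfold sg1
      split_ifs
      · rfl
      · rfl)
  have hu : ∀ {q : PN}, q.vars ⊆ range 4 → eval (unF 4 W (bpx F c 3 W ω)) (pderiv 3 q) =
      eval (px c (ptr F J ω)) (pderiv 3 q) := by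
    intro q hq
    exact (eval_eq_unF (d := 4) (W := W) ((Pool.GEO.vars_pd _ _).trans hq)
      (b := px c (ptr F J ω)) fun i => rfl).symm
  have h2 := chg_eq (J := J) (W := W) (T := F.T ω) (htri u0) (hdeg u0) g d cc (hdeg u0 4) y 2
  rw [h1]
  show eval y (pderiv 2 (oar J W (F.T ω) (P u0) g d cc p)) -
    1 / 2 ^ sg * chg J W (P u0) g d (P u0 4) 2 = _
  rw [← h2, pd_oar (htri u0), pd_oar (htri u0), hbp, hu hv, hu (htri u0 4), pow_add, pow_add,
    pow_add]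
  field_simp

end Pool.TUB
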