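import Pool.Agent.H86.GEO.Def
import Pool.Agent.H22.M.Stm
import Pool.Agent.H15.GEO.Ary

/-!
# H15/GEO/Sln: slanted cells

Coordinates: time, `c 0`, `c 1`, `c 2`. `shN`: the sheet of `c 2` with the natural coefficients `q`
over the affine chart `P`. `sls`: the chart `P` with the sheet instead of the chart of `c 2`.
`dpt`: the point with the time `T`, the cell `ce` of depth `d` and the position `z` in it. `rpos_dpt`:
its position in a cell of the slanted system is an affine slice `slv t B S z`.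
-/

set_option autoImplicit false

namespace Pool.TUB

open Finset MvPolynomial
open Pool.Agent.H49.Ent Pool.Agent.H32.Dense Pool.STK Pool.KA Pool.KSAT Pool.K2S Pool.PB
  Pool.STAT Pool.STAT.CLO Pool.GEN Pool.M3F Pool.KAF Pool.KAL Pool.KS3 Pool.KJA
open Pool.GEO (gsy gsy_zero gsy_succ gsy_tri gsy_deg)
open Pool.PM (lev nx nt lfv)
open Pool.JPN (ntc ce yc)

/-- The sheet of `c 2`. -/
noncomputable def shN (P : ℕ → PN) (g : ℕ → ℕ) (W₀ T₁ : ℕ) (q : Fin 4 → ℝ) : PN :=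
  P 3 + C (1 / 2 ^ g 2) * (C (q 0) + C (q 1) * (C (2 ^ W₀) * MvPolynomial.X 0 - C (T₁ : ℝ)) +
    C (q 2) * (C (2 ^ g 0) * (MvPolynomial.X 1 - P 1)) + C (q 3) * (C (2 ^ g 1) * (MvPolynomial.X 2 - P 2)))

/-- The slanted system. -/
noncomputable def sls (P : ℕ → PN) (g : ℕ → ℕ) (W₀ T₁ : ℕ) (q : Fin 4 → ℝ) (i : ℕ) : PN :=
  if i = 3 then shN P g W₀ T₁ q else P i

theorem eval_shN (P : ℕ → PN) (g : ℕ → ℕ) (W₀ T₁ : ℕ) (q : Fin 4 → ℝ) (x : ℕ → ℝ) :
    eval x (shN P g W₀ T₁ q) = eval x (P 3) + 1 / 2 ^ g 2 * lev q (2 ^ W₀ * x 0 - T₁)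
      (2 ^ g 0 * (x 1 - eval x (P 1))) (2 ^ g 1 * (x 2 - eval x (P 2))) := by
  unfold shN lev
  simp only [map_add, map_mul, map_sub, eval_C, eval_X]

theorem vars_mul_sub {σ : Type} [DecidableEq σ] {s : Finset σ} {p q : MvPolynomial σ ℝ}
    (hp : p.vars ⊆ s) (hq : q.vars ⊆ s) : (p * q).vars ⊆ s ∧ (p + q).vars ⊆ s ∧
      (p - q).vars ⊆ s := by
  refine ⟨(vars_mul p q).trans (Finset.union_subset hp hq),
    (vars_add_subset p q).trans (Finset.union_subset hp hq), ?_⟩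
  rw [sub_eq_add_neg]
  refine (vars_add_subset p (-q)).trans (Finset.union_subset hp ?_)
  rw [vars_neg]
  exact hq

theorem vars_CX (a : ℝ) {i : ℕ} (hi : i < 3) : (C a : PN).vars ⊆ range 3 ∧
    (MvPolynomial.X i : PN).vars ⊆ range 3 := by
  refine ⟨by rw [vars_C]; exact Finset.empty_subset _, ?_⟩
  rw [vars_X]
  exact Finset.singleton_subset_iff.2 (Finset.mem_range.2 hi)

theorem shN_vars {P : ℕ → PN} (hP : TriN P) (g : ℕ → ℕ) (W₀ T₁ : ℕ) (q : Fin 4 → ℝ) :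
    (shN P g W₀ T₁ q).vars ⊆ range 3 := by
  have hC : ∀ a : ℝ, (C a : PN).vars ⊆ range 3 := fun a => (vars_CX a (i := 0) (by norm_num)).1
  have hX : ∀ i, i < 3 → (MvPolynomial.X i : PN).vars ⊆ range 3 := fun i hi => (vars_CX 0 hi).2
  have h1 : (P 1).vars ⊆ range 3 := (hP 1).trans (Finset.range_mono (by norm_num))
  have h2 : (P 2).vars ⊆ range 3 := (hP 2).trans (Finset.range_mono (by norm_num))
  unfold shN
  refine (vars_mul_sub (hP 3) ?_).2.1
  refine (vars_mul_sub (hC _) ?_).1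
  refine (vars_mul_sub ?_ ?_).2.1
  · refine (vars_mul_sub ?_ ?_).2.1
    · refine (vars_mul_sub (hC _) ?_).2.1
      refine (vars_mul_sub (hC _) ?_).1
      exact (vars_mul_sub (vars_mul_sub (hC _) (hX 0 (by norm_num))).1 (hC _)).2.2
    · refine (vars_mul_sub (hC _) ?_).1
      refine (vars_mul_sub (hC _) ?_).1
      exact (vars_mul_sub (hX 1 (by norm_num)) h1).2.2
  · refine (vars_mul_sub (hC _) ?_).1
    refine (vars_mul_sub (hC _) ?_).1
    exact (vars_mul_sub (hX 2 (by norm_num)) h2).2.2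

theorem sls_tri {P : ℕ → PN} (hP : TriN P) (g : ℕ → ℕ) (W₀ T₁ : ℕ) (q : Fin 4 → ℝ) :
    TriN (sls P g W₀ T₁ q) := by
  intro i
  unfold sls
  split_ifs with h
  · subst h
    exact shN_vars hP g W₀ T₁ q
  · exact hP i

theorem deg_CX (a : ℝ) (i : ℕ) : (C a : PN).totalDegree ≤ 1 ∧ (MvPolynomial.X i : PN).totalDegree ≤ 1 := by
  constructor
  · rw [totalDegree_C]
    exact zero_le_one
  · rw [totalDegree_X]

theorem deg_Cmul (a : ℝ) {σ : Type} {p : MvPolynomial σ ℝ} {n : ℕ} (hp : p.totalDegree ≤ n) :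
    (C a * p).totalDegree ≤ n := by
  refine (totalDegree_mul _ _).trans ?_
  rw [totalDegree_C, zero_add]
  exact hp

theorem deg_add1 {σ : Type} {p q : MvPolynomial σ ℝ} {n : ℕ} (hp : p.totalDegree ≤ n)
    (hq : q.totalDegree ≤ n) : (p + q).totalDegree ≤ n :=
  (totalDegree_add _ _).trans (max_le hp hq)

theorem deg_sub1 {σ : Type} {p q : MvPolynomial σ ℝ} {n : ℕ} (hp : p.totalDegree ≤ n)
    (hq : q.totalDegree ≤ n) : (p - q).totalDegree ≤ n :=
  (totalDegree_sub _ _).trans (max_le hp hq)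

theorem sls_deg {P : ℕ → PN} (hP : ∀ i, (P i).totalDegree ≤ 1) (g : ℕ → ℕ) (W₀ T₁ : ℕ)
    (q : Fin 4 → ℝ) (i : ℕ) : (sls P g W₀ T₁ q i).totalDegree ≤ 1 := by
  unfold sls
  split_ifs with h
  · unfold shN
    refine deg_add1 (hP 3) (deg_Cmul _ ?_)
    refine deg_add1 (deg_add1 (deg_add1 (deg_CX _ 0).1 (deg_Cmul _ ?_)) (deg_Cmul _ ?_))
      (deg_Cmul _ ?_)
    · exact deg_sub1 (deg_Cmul _ (deg_CX 0 0).2) (deg_CX _ 0).1
    · exact deg_Cmul _ (deg_sub1 (deg_CX 0 1).2 (hP 1))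
    · exact deg_Cmul _ (deg_sub1 (deg_CX 0 2).2 (hP 2))
  · exact hP i

/-- Uniqueness of the point of a chart. -/
theorem chi_unique {d : ℕ} {G : Fin d → MvPolynomial (Fin d) ℝ} (hG : TriP G) {c w u x : Fin d → ℝ}
    (h : ∀ i, x i = eval x (G i) + c i + w i * u i) : cpt (chi G c w) u = x := by
  have key : ∀ n : ℕ, ∀ i : Fin d, i.val = n → cpt (chi G c w) u i = x i := by
    intro n
    induction n using Nat.strong_induction_on with
    | _ n ih =>
      intro i hi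
      rw [eval_chi G hG c w u i, h i]
      have h1 : eval (cpt (chi G c w) u) (G i) = eval x (G i) :=
        eval_eq_of_pderiv (fun l hl => hG i l hl) fun l hl => ih l.val (by
          rw [← hi]
          exact hl) l rfl
      rw [h1]
  funext i
  exact key i.val i rfl

/-- The corner and the widths of the cell `ce` of depth `d`, at the time `T / 2 ^ J`. -/
noncomputable def dco (J W T : ℕ) (g : ℕ → ℕ) (d : ℕ) (ce : Fin 3 → ℤ) : Fin 4 → ℝ :=
  Fin.cons (2 ^ W * ((T : ℝ) / 2 ^ J)) (fun l : Fin 3 => 2 ^ W * ((ce l : ℝ) / 2 ^ (g l + d)))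

noncomputable def dwi (W : ℕ) (g : ℕ → ℕ) (d : ℕ) : Fin 4 → ℝ :=
  Fin.cons 0 (fun l : Fin 3 => 2 ^ W * (1 / 2 ^ (g l + d)))

/-- The chart of the cell. -/
noncomputable def dchi (J W T : ℕ) (P : ℕ → PN) (g : ℕ → ℕ) (d : ℕ) (ce : Fin 3 → ℤ) :
    Fin 4 → MvPolynomial (Fin 4) ℝ := chi (gsy 3 W P) (dco J W T g d ce) (dwi W g d)

/-- The point with the position `z` in the cell. -/
noncomputable def dpt (J W T : ℕ) (P : ℕ → PN) (g : ℕ → ℕ) (d : ℕ) (ce : Fin 3 → ℤ)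
    (z : Fin 3 → ℝ) : Fin 4 → ℝ := cpt (dchi J W T P g d ce) (Fin.cons 0 z : Fin 4 → ℝ)

theorem dpt_zero (J W T : ℕ) {P : ℕ → PN} (hP : TriN P) (g : ℕ → ℕ) (d : ℕ) (ce : Fin 3 → ℤ)
    (z : Fin 3 → ℝ) : dpt J W T P g d ce z 0 = 2 ^ W * ((T : ℝ) / 2 ^ J) := by
  have h1 := eval_chi (gsy 3 W P) (gsy_tri hP) (dco J W T g d ce) (dwi W g d)
    (Fin.cons 0 z : Fin 4 → ℝ) 0
  show cpt (chi (gsy 3 W P) (dco J W T g d ce) (dwi W g d)) (Fin.cons 0 z : Fin 4 → ℝ) 0 = _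
  rw [h1, gsy_zero, map_zero]
  show 0 + 2 ^ W * ((T : ℝ) / 2 ^ J) + 0 * _ = _
  ring

theorem dpt_succ (J W T : ℕ) {P : ℕ → PN} (hP : TriN P) (g : ℕ → ℕ) (d : ℕ) (ce : Fin 3 → ℤ)
    (z : Fin 3 → ℝ) (l : Fin 3) : dpt J W T P g d ce z l.succ =
      eval (dpt J W T P g d ce z) (toF 4 W (P (l + 1))) +
        2 ^ W * ((ce l + z l) / 2 ^ (g l + d)) := by
  have h1 := eval_chi (gsy 3 W P) (gsy_tri hP) (dco J W T g d ce) (dwi W g d)
    (Fin.cons 0 z : Fin 4 → ℝ) l.succ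
  show cpt (chi (gsy 3 W P) (dco J W T g d ce) (dwi W g d)) (Fin.cons 0 z : Fin 4 → ℝ) l.succ = _
  rw [h1, gsy_succ]
  show eval (dpt J W T P g d ce z) (toF 4 W (P (l + 1))) + 2 ^ W * ((ce l : ℝ) / 2 ^ (g l + d)) +
    2 ^ W * (1 / 2 ^ (g l + d)) * z l = _
  ring

/-- The matrix of the slice. -/
def sS (ν : Fin 3 → ℝ) (q : Fin 4 → ℝ) (l i : Fin 3) : ℝ :=
  ν l * (if l = i then 1 else if l = 2 then -(q (Fin.castSucc i + 2)) else 0)

/-- The corner of the slice. -/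
noncomputable def sB (ν : Fin 3 → ℝ) (q : Fin 4 → ℝ) (d : ℕ) (τ : ℝ) (ce : Fin 3 → ℤ)
    (b : Fin 4 → ℤ) (l : Fin 3) : ℝ :=
  ν l * (if l = 2 then ce 2 - 2 ^ d * lev q τ (ce 0 / 2 ^ d) (ce 1 / 2 ^ d) else (ce l : ℝ)) -
    b l.succ

/-- The widths of the cell of depth `d` in the units of the cells `N`. -/
noncomputable def snu (W M : ℕ) (N : Fin 4 → ℕ) (g : ℕ → ℕ) (d : ℕ) (l : Fin 3) : ℝ :=
  2 ^ W * (1 / 2 ^ (g l + d)) * (M / N l.succ)

theorem sS_sum (ν : Fin 3 → ℝ) (q : Fin 4 → ℝ) (z : Fin 3 → ℝ) :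
    (∑ i, sS ν q 0 i * z i = ν 0 * z 0) ∧ (∑ i, sS ν q 1 i * z i = ν 1 * z 1) ∧
      ∑ i, sS ν q 2 i * z i = ν 2 * (z 2 - q 2 * z 0 - q 3 * z 1) := by
  refine ⟨?_, ?_, ?_⟩
  · rw [Fin.sum_univ_three]
    unfold sS
    simp
  · rw [Fin.sum_univ_three]
    unfold sS
    simp
  · rw [Fin.sum_univ_three]
    have h0 : (Fin.castSucc (0 : Fin 3) + 2 : Fin 4) = 2 := by decide
    have h1 : (Fin.castSucc (1 : Fin 3) + 2 : Fin 4) = 3 := by decide
    unfold sS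
    rw [if_neg (by decide), if_pos rfl, if_neg (by decide), if_pos rfl, if_pos rfl, h0, h1]
    ring

/-- **The position in a cell of the slanted system.** -/
theorem rpos_dpt {J W T W₀ T₁ M : ℕ} {P : ℕ → PN} (hP : TriN P) {g : ℕ → ℕ} {d : ℕ}
    {ce : Fin 3 → ℤ} {q : Fin 4 → ℝ} {N : Fin 4 → ℕ} {b : Fin 4 → ℤ} (hM : 1 ≤ M)
    (hN : ∀ i, 1 ≤ N i) (z : Fin 3 → ℝ) :
    rpos M N (gsy 3 W (sls P g W₀ T₁ q)) b (dpt J W T P g d ce z) =
      slv ((2 ^ W * ((T : ℝ) / 2 ^ J)) * (M / N 0) - b 0)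
        (sB (snu W M N g d) q d (2 ^ W₀ * ((T : ℝ) / 2 ^ J) - T₁) ce b)
        (sS (snu W M N g d) q) z := by
  have hM0 : (0 : ℝ) < M := by exact_mod_cast hM
  have hN0 : ∀ i, (0 : ℝ) < N i := fun i => by exact_mod_cast hN i
  obtain ⟨x, hx⟩ : ∃ x, x = dpt J W T P g d ce z := ⟨_, rfl⟩
  have hx0 : x 0 = 2 ^ W * ((T : ℝ) / 2 ^ J) := by rw [hx]; exact dpt_zero J W T hP g d ce z
  have hxs : ∀ l : Fin 3, x l.succ - eval x (toF 4 W (P (l + 1))) =
      2 ^ W * ((ce l + z l) / 2 ^ (g l + d)) := fun l => by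
    rw [hx, dpt_succ J W T hP g d ce z l]
    ring
  have pW : (0 : ℝ) < 2 ^ W := by positivity
  rw [← hx]
  obtain ⟨s0, s1, s2⟩ := sS_sum (snu W M N g d) q z
  funext i
  refine Fin.cases ?_ (fun l => ?_) i
  · rw [slv_zero]
    unfold rpos
    rw [gsy_zero, map_zero, hx0]
    have := hN0 0
    field_simp
    ring
  · rw [slv_succ]
    unfold rpos
    rw [gsy_succ]
    have hl : l = 0 ∨ l = 1 ∨ l = 2 := by
      fin_cases l
      · exact Or.inl rfl
      · exact Or.inr (Or.inl rfl)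
      · exact Or.inr (Or.inr rfl)
    rcases hl with rfl | rfl | rfl
    · rw [s0]
      have h1 := hxs 0
      have e1 : sls P g W₀ T₁ q ((0 : Fin 3).val + 1) = P ((0 : Fin 3).val + 1) :=
        if_neg (by decide)
      have h2 : x (Fin.succ 0) - eval x (toF 4 W (sls P g W₀ T₁ q ((0 : Fin 3).val + 1))) =
          2 ^ W * ((ce 0 + z 0) / 2 ^ (g ((0 : Fin 3) : ℕ) + d)) := by
        rw [e1]
        exact h1
      rw [h2]
      unfold sB snu
      rw [if_neg (by decide)]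
      have := hN0 (Fin.succ 0)
      field_simp
      ring
    · rw [s1]
      have h1 := hxs 1
      have e1 : sls P g W₀ T₁ q ((1 : Fin 3).val + 1) = P ((1 : Fin 3).val + 1) :=
        if_neg (by decide)
      have h2 : x (Fin.succ 1) - eval x (toF 4 W (sls P g W₀ T₁ q ((1 : Fin 3).val + 1))) =
          2 ^ W * ((ce 1 + z 1) / 2 ^ (g ((1 : Fin 3) : ℕ) + d)) := by
        rw [e1]
        exact h1
      rw [h2]
      unfold sB snu
      rw [if_neg (by decide)]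
      have := hN0 (Fin.succ 1)
      field_simp
      ring
    · rw [s2]
      have e1 : sls P g W₀ T₁ q ((2 : Fin 3).val + 1) = shN P g W₀ T₁ q := if_pos rfl
      rw [e1]
      have u0 : unF 4 W x 0 = (T : ℝ) / 2 ^ J := by
        unfold unF
        rw [dif_pos (by norm_num)]
        show x 0 / 2 ^ W = _
        rw [hx0]
        field_simp
      have u1 : unF 4 W x 1 = x (Fin.succ 0) / 2 ^ W := by
        unfold unF
        rw [dif_pos (by norm_num)]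
        rfl
      have u2 : unF 4 W x 2 = x (Fin.succ 1) / 2 ^ W := by
        unfold unF
        rw [dif_pos (by norm_num)]
        rfl
      have h0 := hxs 0
      have h1 := hxs 1
      have h2 := hxs 2
      rw [eval_toF] at h0 h1 h2
      have g0 : 2 ^ g 0 * (unF 4 W x 1 - eval (unF 4 W x) (P 1)) = (ce 0 + z 0) / 2 ^ d := by
        rw [u1]
        have h0' : x (Fin.succ 0) - 2 ^ W * eval (unF 4 W x) (P 1) =
            2 ^ W * ((ce 0 + z 0) / 2 ^ (g 0 + d)) := h0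
        have e2 : x (Fin.succ 0) / 2 ^ W - eval (unF 4 W x) (P 1) =
            (x (Fin.succ 0) - 2 ^ W * eval (unF 4 W x) (P 1)) / 2 ^ W := by field_simp
        rw [e2, h0', pow_add]
        field_simp
      have g1 : 2 ^ g 1 * (unF 4 W x 2 - eval (unF 4 W x) (P 2)) = (ce 1 + z 1) / 2 ^ d := by
        rw [u2]
        have h1' : x (Fin.succ 1) - 2 ^ W * eval (unF 4 W x) (P 2) =
            2 ^ W * ((ce 1 + z 1) / 2 ^ (g 1 + d)) := h1
        have e2 : x (Fin.succ 1) / 2 ^ W - eval (unF 4 W x) (P 2) =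
            (x (Fin.succ 1) - 2 ^ W * eval (unF 4 W x) (P 2)) / 2 ^ W := by field_simp
        rw [e2, h1', pow_add]
        field_simp
      have h2' : x (Fin.succ 2) - 2 ^ W * eval (unF 4 W x) (P 3) =
          2 ^ W * ((ce 2 + z 2) / 2 ^ (g 2 + d)) := h2
      rw [eval_toF, eval_shN, g0, g1, u0]
      have e3 : x (Fin.succ 2) - 2 ^ W * (eval (unF 4 W x) (P 3) + 1 / 2 ^ g 2 *
          lev q (2 ^ W₀ * ((T : ℝ) / 2 ^ J) - T₁) ((ce 0 + z 0) / 2 ^ d) ((ce 1 + z 1) / 2 ^ d)) =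
          2 ^ W * ((ce 2 + z 2) / 2 ^ (g 2 + d)) - 2 ^ W * (1 / 2 ^ g 2 *
          lev q (2 ^ W₀ * ((T : ℝ) / 2 ^ J) - T₁) ((ce 0 + z 0) / 2 ^ d)
            ((ce 1 + z 1) / 2 ^ d)) := by
        rw [← h2']
        ring
      rw [e3]
      unfold sB snu lev
      rw [if_pos rfl]
      have e4 : (((2 : Fin 3) : ℕ)) = 2 := rfl
      rw [e4]
      have := hN0 (Fin.succ 2)
      rw [pow_add]
      field_simp
      ring

end Pool.TUB
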